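import Mathlib
import Pool.Agent.Lib.MP_4e7804_co.Defs

/-! MP_4e7804_co, lower bound for all n, module Boxes. -/

set_option autoImplicit false

open Finset

namespace Pool.Agent.Lib.MP_4e7804_co

theorem Boxes_exists_level (R : Finset ℝ) : (∀ r ∈ R, 0 < r) → ∀ k ≤ R.card, ∀ M : ℝ, 0 < M →
    (∀ r ∈ R, r < M) → ∃ u : ℝ, 0 < u ∧ u < M ∧ u ∉ R ∧ (R.filter (· < u)).card = k := by
  classical
  induction R using Finset.induction_on_max with
  | empty =>
    intro _ k hk M hM _
    refine ⟨M / 2, by positivity, by linarith, by simp, ?_⟩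
    simp at hk
    simp [hk]
  | insert a s hs ih =>
    intro hpos k hk M hM hlt
    have ha : a ∉ s := fun h => lt_irrefl _ (hs a h)
    rw [card_insert_of_notMem ha] at hk
    have hapos : 0 < a := hpos a (mem_insert_self _ _)
    rcases Nat.lt_or_ge k (s.card + 1) with hk' | hk'
    · obtain ⟨u, hu0, hua, hus, hcard⟩ := ih (fun r hr => hpos r (mem_insert_of_mem hr)) k
        (by omega) a hapos hs
      refine ⟨u, hu0, hua.trans (hlt a (mem_insert_self _ _)), ?_, ?_⟩
      · simp only [mem_insert, not_or]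
        exact ⟨ne_of_lt hua, hus⟩
      · rw [filter_insert, if_neg (by linarith)]
        exact hcard
    · have hk2 : k = s.card + 1 := by omega
      have haM : a < M := hlt a (mem_insert_self _ _)
      have hall : ∀ r ∈ insert a s, r < (a + M) / 2 := by
        intro r hr
        rcases mem_insert.1 hr with rfl | h
        · linarith
        · have := hs r h
          linarith
      refine ⟨(a + M) / 2, by linarith, by linarith, fun h => lt_irrefl _ (hall _ h), ?_⟩
      rw [filter_true_of_mem hall, card_insert_of_notMem ha, hk2]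

theorem Boxes_exists_level' (R : Finset ℝ) (hR : ∀ r ∈ R, 0 < r) (k : ℕ) (hk : k ≤ R.card) :
    ∃ u : ℝ, 0 < u ∧ u ∉ R ∧ (R.filter (· < u)).card = k := by
  classical
  obtain ⟨u, h1, _, h2, h3⟩ := Boxes_exists_level R hR k hk (1 + ∑ r ∈ R, r)
    (by have := Finset.sum_nonneg (fun r hr => (hR r hr).le); linarith)
    (fun r hr => by
      have := Finset.single_le_sum (f := fun r : ℝ => r) (fun r hr => (hR r hr).le) hr
      linarith)
  exact ⟨u, h1, h2, h3⟩

/-- a unique minimizer is an extreme point of the hull -/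
theorem Boxes_extreme {n : ℕ} (S : Set (Fin n → ℝ)) (a : Fin n → ℝ) (ha : a ∈ S)
    (y : Fin n → ℝ) (h : ∀ b ∈ S, b ≠ a → a ⬝ᵥ y < b ⬝ᵥ y) :
    a ∈ (convexHull ℝ S).extremePoints ℝ := by
  have hconv : Convex ℝ ({z : Fin n → ℝ | a ⬝ᵥ y < z ⬝ᵥ y} ∪ {a}) := by
    rw [convex_iff_forall_pos]
    intro u hu v hv s t hs ht hst
    have key : (s • u + t • v) ⬝ᵥ y = s * (u ⬝ᵥ y) + t * (v ⬝ᵥ y) := by
      rw [add_dotProduct, smul_dotProduct, smul_dotProduct, smul_eq_mul, smul_eq_mul]
    rcases hu with hu | hu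
    · left
      simp only [Set.mem_ofPred_eq] at hu ⊢
      rw [key]
      have hv' : a ⬝ᵥ y ≤ v ⬝ᵥ y := by
        rcases hv with hv | hv
        · exact le_of_lt hv
        · rw [Set.mem_singleton_iff.1 hv]
      have e : a ⬝ᵥ y = s * (a ⬝ᵥ y) + t * (a ⬝ᵥ y) := by rw [← add_mul, hst, one_mul]
      rw [e]
      have h1 : s * (a ⬝ᵥ y) < s * (u ⬝ᵥ y) := mul_lt_mul_of_pos_left hu hs
      have h2 : t * (a ⬝ᵥ y) ≤ t * (v ⬝ᵥ y) := mul_le_mul_of_nonneg_left hv' ht.le
      linarith
    · rw [Set.mem_singleton_iff] at hu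
      rcases hv with hv | hv
      · left
        simp only [Set.mem_ofPred_eq] at hv ⊢
        rw [key, hu]
        have e : a ⬝ᵥ y = s * (a ⬝ᵥ y) + t * (a ⬝ᵥ y) := by rw [← add_mul, hst, one_mul]
        have h1 : t * (a ⬝ᵥ y) < t * (v ⬝ᵥ y) := mul_lt_mul_of_pos_left hv ht
        linarith
      · right
        rw [Set.mem_singleton_iff] at hv ⊢
        rw [hu, hv, ← add_smul, hst, one_smul]
  have hsub : convexHull ℝ S ⊆ {z : Fin n → ℝ | a ⬝ᵥ y < z ⬝ᵥ y} ∪ {a} := by
    apply convexHull_min _ hconv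
    intro b hb
    by_cases hba : b = a
    · right
      simp [hba]
    · left
      exact h b hb hba
  rw [mem_extremePoints]
  refine ⟨subset_convexHull ℝ S ha, ?_⟩
  intro u hu v hv hauv
  obtain ⟨s, t, hs, ht, hst, he⟩ := hauv
  have key : (s • u + t • v) ⬝ᵥ y = s * (u ⬝ᵥ y) + t * (v ⬝ᵥ y) := by
    rw [add_dotProduct, smul_dotProduct, smul_dotProduct, smul_eq_mul, smul_eq_mul]
  rw [he] at key
  have hge : ∀ w ∈ convexHull ℝ S, a ⬝ᵥ y ≤ w ⬝ᵥ y := by
    intro w hw
    rcases hsub hw with h | h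
    · exact le_of_lt h
    · rw [Set.mem_singleton_iff.1 h]
  have e : a ⬝ᵥ y = s * (a ⬝ᵥ y) + t * (a ⬝ᵥ y) := by rw [← add_mul, hst, one_mul]
  constructor
  · rcases hsub hu with h' | h'
    · exfalso
      simp only [Set.mem_ofPred_eq] at h'
      have h1 : s * (a ⬝ᵥ y) < s * (u ⬝ᵥ y) := mul_lt_mul_of_pos_left h' hs
      have h2 : t * (a ⬝ᵥ y) ≤ t * (v ⬝ᵥ y) := mul_le_mul_of_nonneg_left (hge v hv) ht.le
      linarith
    · exact h'
  · rcases hsub hv with h' | h'
    · exfalso
      simp only [Set.mem_ofPred_eq] at h'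
      have h1 : t * (a ⬝ᵥ y) < t * (v ⬝ᵥ y) := mul_lt_mul_of_pos_left h' ht
      have h2 : s * (a ⬝ᵥ y) ≤ s * (u ⬝ᵥ y) := mul_le_mul_of_nonneg_left (hge u hu) hs.le
      linarith
    · exact h'

theorem Boxes_cont {d : ℕ} (α : Fin (d + 1) → ℝ) :
    Continuous (fun x : Fin d → ℝ => α ⬝ᵥ (Fin.cons 1 x : Fin (d + 1) → ℝ)) := by
  have : (fun x : Fin d → ℝ => α ⬝ᵥ (Fin.cons 1 x : Fin (d + 1) → ℝ)) =
      fun x => α 0 + ∑ i : Fin d, α i.succ * x i := by
    funext x
    rw [dotProduct, Fin.sum_univ_succ]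
    simp
  rw [this]
  fun_prop

theorem Boxes_dense {d : ℕ} (α β : Fin (d + 1) → ℝ) (h : α ≠ β) :
    Dense {x : Fin d → ℝ | α ⬝ᵥ (Fin.cons 1 x : Fin (d + 1) → ℝ) ≠
      β ⬝ᵥ (Fin.cons 1 x : Fin (d + 1) → ℝ)} := by
  classical
  have hform : ∀ (γ : Fin (d + 1) → ℝ) (x : Fin d → ℝ),
      γ ⬝ᵥ (Fin.cons 1 x : Fin (d + 1) → ℝ) = γ 0 + ∑ i : Fin d, γ i.succ * x i := by
    intro γ x
    rw [dotProduct, Fin.sum_univ_succ]
    simp
  by_cases hs : ∀ i : Fin d, α i.succ = β i.succ
  · have h0 : α 0 ≠ β 0 := by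
      intro h0
      apply h
      funext j
      refine Fin.cases h0 hs j
    have : {x : Fin d → ℝ | α ⬝ᵥ (Fin.cons 1 x : Fin (d + 1) → ℝ) ≠
      β ⬝ᵥ (Fin.cons 1 x : Fin (d + 1) → ℝ)} = Set.univ := by
      rw [Set.eq_univ_iff_forall]
      intro x
      simp only [Set.mem_ofPred_eq, hform]
      intro he
      apply h0
      have : ∑ i : Fin d, α i.succ * x i = ∑ i : Fin d, β i.succ * x i :=
        Finset.sum_congr rfl fun i _ => by rw [hs i]
      linarith
    rw [this]
    exact dense_univ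
  · push Not at hs
    obtain ⟨i, hi⟩ := hs
    intro x
    by_cases hx : α ⬝ᵥ (Fin.cons 1 x : Fin (d + 1) → ℝ) ≠ β ⬝ᵥ (Fin.cons 1 x : Fin (d + 1) → ℝ)
    · exact subset_closure hx
    · push Not at hx
      have hchange : ∀ (γ : Fin (d + 1) → ℝ) (t : ℝ),
          γ ⬝ᵥ (Fin.cons 1 (x + t • (Pi.single i 1 : Fin d → ℝ)) : Fin (d + 1) → ℝ) =
            γ ⬝ᵥ (Fin.cons 1 x : Fin (d + 1) → ℝ) + t * γ i.succ := by
        intro γ t
        rw [hform, hform]
        have : ∑ j : Fin d, γ j.succ * (x + t • (Pi.single i 1 : Fin d → ℝ)) j =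
            ∑ j : Fin d, γ j.succ * x j + ∑ j : Fin d, γ j.succ * (t * (Pi.single i 1 : Fin d → ℝ) j) := by
          rw [← Finset.sum_add_distrib]
          refine Finset.sum_congr rfl fun j _ => ?_
          simp only [Pi.add_apply, Pi.smul_apply, smul_eq_mul]
          ring
        rw [this]
        have h2 : ∑ j : Fin d, γ j.succ * (t * (Pi.single i 1 : Fin d → ℝ) j) = t * γ i.succ := by
          rw [Finset.sum_eq_single i]
          · simp
            ring
          · intro j _ hj
            simp [hj]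
          · intro hh
            exact absurd (mem_univ i) hh
        rw [h2]
        ring
      have hlim : Filter.Tendsto (fun t : ℝ => x + t • (Pi.single i 1 : Fin d → ℝ))
          (nhdsWithin 0 {0}ᶜ) (nhds x) := by
        have hc : Continuous (fun t : ℝ => x + t • (Pi.single i 1 : Fin d → ℝ)) := by fun_prop
        have := hc.tendsto 0
        simp only [zero_smul, add_zero] at this
        exact this.mono_left nhdsWithin_le_nhds
      refine mem_closure_of_tendsto hlim ?_
      filter_upwards [self_mem_nhdsWithin] with t ht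
      rw [hchange, hchange, hx]
      intro he
      have : t * α i.succ = t * β i.succ := by linarith
      exact hi (mul_left_cancel₀ ht this)

theorem Boxes_open {d : ℕ} (α β : Fin (d + 1) → ℝ) :
    IsOpen {x : Fin d → ℝ | α ⬝ᵥ (Fin.cons 1 x : Fin (d + 1) → ℝ) ≠
      β ⬝ᵥ (Fin.cons 1 x : Fin (d + 1) → ℝ)} :=
  isOpen_ne_fun (Boxes_cont α) (Boxes_cont β)

/-- TASK B3 (file Lo/Boxes.lean), 150 lines.
PROOF. Let `N i = (R i).card` and let `r i 1 < ... < r i (N i)` be the elements of `R i`
(`Finset.orderEmbOfFin`), `r i 0 = 0`. For `g : ∀ i, Fin (N i + 1)` let `O g` be the open nonempty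
box of all `x : Fin d → ℝ` with `x i > r i (g i)` (the largest element of `R i ∪ {0}` below) and
`x i < r i (g i + 1)` (no condition if `g i = N i`). (Alternatively: index the boxes by the value
of the function `x ↦ (card of {r ∈ R i | r < x i})_i`, defined on the `x > 0` with no `x i ∈ R i`;
every value `g ≤ N` is attained on a nonempty open set.)
(1) For `α ≠ β` in `S` the set of `x : Fin d → ℝ` with `α ⬝ᵥ Fin.cons 1 x = β ⬝ᵥ Fin.cons 1 x` is
closed with empty interior (an affine function, which is not identically zero; restrict to a line).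
So there is a point `x g ∈ O g` outside of all these sets (finitely many closed nowhere dense sets,
or a Baire / induction argument: `interior_eq_empty_iff_dense_compl`, `Dense.inter_of_isOpen_left`,
`dense_biInter_of_isOpen`). At `y g = Fin.cons 1 (x g)` the minimum over `S` is attained at exactly
one `α g ∈ S` (`Finset.exists_min_image`).
(2) `α g` is an extreme point of the hull (unique minimizer of a linear form, as in
`numVertices_hull`).
(3) `g ↦ α g` is injective: let `α g = α g' = α`, `g ≠ g'`, say `g i < g' i`. Then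
`x g i < ρ < x g' i` for some `ρ ∈ R i` (namely `ρ = r i (g i + 1)`). The point `z` of the segment
from `x g` to `x g'` with `z i = ρ` has positive coordinates, so by `hsheet` applied to
`y = Fin.cons 1 z` and `α` there is `β ≠ α` in `S` with `β ⬝ᵥ y ≤ α ⬝ᵥ y`; but
`β ⬝ᵥ y g > α ⬝ᵥ y g` and the same for `g'`, and `y` is a convex combination of both:
contradiction.
(4) So the number of extreme points (a finite set) is at least the number of `g`, i.e.
`∏ i, (N i + 1)` (`Fintype.card_pi`). -/
theorem boxes_le {d : ℕ} (S : Finset (Fin (d + 1) → ℝ)) (hS : S.Nonempty) (R : Fin d → Finset ℝ)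
    (hR : ∀ i, ∀ r ∈ R i, 0 < r)
    (hsheet : ∀ y : Fin (d + 1) → ℝ, y 0 = 1 → (∀ i : Fin d, 0 < y i.succ) →
      (∃ i : Fin d, y i.succ ∈ R i) → ∀ α ∈ S, ∃ β ∈ S, β ≠ α ∧ β ⬝ᵥ y ≤ α ⬝ᵥ y) :
    ∏ i, ((R i).card + 1) ≤ numVertices (convexHull ℝ (S : Set (Fin (d + 1) → ℝ))) := by
  classical
  -- for every g a point with prescribed ranks and a unique minimizer
  have hpt : ∀ g : (∀ i, Fin ((R i).card + 1)), ∃ x : Fin d → ℝ, (∀ i, 0 < x i) ∧
      (∀ i, ((R i).filter (· < x i)).card = g i) ∧
      ∀ α ∈ S, ∀ β ∈ S, α ≠ β → α ⬝ᵥ (Fin.cons 1 x : Fin (d + 1) → ℝ) ≠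
        β ⬝ᵥ (Fin.cons 1 x : Fin (d + 1) → ℝ) := by
    intro g
    have hu : ∀ i, ∃ u : ℝ, 0 < u ∧ u ∉ R i ∧ ((R i).filter (· < u)).card = g i := fun i =>
      Boxes_exists_level' (R i) (hR i) (g i) (by have := (g i).2; omega)
    choose u hu0 huR hucard using hu
    let O : Set (Fin d → ℝ) := {x | ∀ i, 0 < x i ∧ ∀ r ∈ R i, (r < u i → r < x i) ∧ (u i < r → x i < r)}
    have hOopen : IsOpen O := by
      have : O = ⋂ i, ({x : Fin d → ℝ | 0 < x i} ∩ ⋂ r ∈ R i,
          ({x : Fin d → ℝ | r < u i → r < x i} ∩ {x : Fin d → ℝ | u i < r → x i < r})) := by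
        ext x
        simp only [O, Set.mem_ofPred_eq, Set.mem_iInter, Set.mem_inter_iff]
      rw [this]
      refine isOpen_iInter_of_finite fun i => ?_
      refine IsOpen.inter (isOpen_lt continuous_const (continuous_apply i)) ?_
      refine isOpen_biInter_finset fun r _ => ?_
      refine IsOpen.inter ?_ ?_
      · by_cases h : r < u i
        · simp only [h, forall_const]
          exact isOpen_lt continuous_const (continuous_apply i)
        · simp only [h, false_imp_iff, Set.ofPred_true]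
          exact isOpen_univ
      · by_cases h : u i < r
        · simp only [h, forall_const]
          exact isOpen_lt (continuous_apply i) continuous_const
        · simp only [h, false_imp_iff, Set.ofPred_true]
          exact isOpen_univ
    have hOne : O.Nonempty := ⟨u, fun i => ⟨hu0 i, fun r _ => ⟨fun h => h, fun h => h⟩⟩⟩
    have hdense : Dense (⋂ p ∈ ((S ×ˢ S).filter (fun p => p.1 ≠ p.2) :
        Set ((Fin (d + 1) → ℝ) × (Fin (d + 1) → ℝ))),
        {x : Fin d → ℝ | p.1 ⬝ᵥ (Fin.cons 1 x : Fin (d + 1) → ℝ) ≠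
          p.2 ⬝ᵥ (Fin.cons 1 x : Fin (d + 1) → ℝ)}) := by
      apply dense_biInter_of_isOpen
      · intro p _
        exact Boxes_open p.1 p.2
      · exact (Finset.finite_toSet _).countable
      · intro p hp
        apply Boxes_dense
        have := (Finset.mem_filter.1 (Finset.mem_coe.1 hp)).2
        exact this
    obtain ⟨x, hxO, hx⟩ := hdense.inter_open_nonempty O hOopen hOne
    refine ⟨x, fun i => (hxO i).1, fun i => ?_, ?_⟩
    · rw [← hucard i]
      congr 1
      ext r
      simp only [mem_filter, and_congr_right_iff]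
      intro hr
      constructor
      · intro hrx
        rcases lt_trichotomy r (u i) with h | h | h
        · exact h
        · exact absurd (h ▸ hr) (huR i)
        · exact absurd (((hxO i).2 r hr).2 h) (not_lt.2 hrx.le)
      · intro hru
        exact ((hxO i).2 r hr).1 hru
    · intro α hα β hβ hne
      have := Set.mem_iInter₂.1 hx (α, β) (by
        rw [Finset.mem_coe, Finset.mem_filter, Finset.mem_product]
        exact ⟨⟨hα, hβ⟩, hne⟩)
      exact this
  choose x hx0 hxrank hxgen using hpt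
  have hmin : ∀ g, ∃ a ∈ S, ∀ b ∈ S, b ≠ a →
      a ⬝ᵥ (Fin.cons 1 (x g) : Fin (d + 1) → ℝ) < b ⬝ᵥ (Fin.cons 1 (x g) : Fin (d + 1) → ℝ) := by
    intro g
    obtain ⟨a, haS, ha⟩ := S.exists_min_image
      (fun b => b ⬝ᵥ (Fin.cons 1 (x g) : Fin (d + 1) → ℝ)) hS
    refine ⟨a, haS, fun b hb hba => lt_of_le_of_ne (ha b hb) ?_⟩
    exact hxgen g a haS b hb (Ne.symm hba)
  choose a haS hamin using hmin
  have hinj : Function.Injective a := by
    intro g g' hgg
    by_contra hne
    -- a coordinate where they differ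
    obtain ⟨i, hi⟩ := Function.ne_iff.1 hne
    -- wlog
    have main : ∀ g g' : (∀ i, Fin ((R i).card + 1)), a g = a g' → ∀ i, (g i : ℕ) < g' i →
        False := by
      intro g g' hgg i hlt
      -- an element of R i between
      have hex : ∃ ρ ∈ R i, x g i ≤ ρ ∧ ρ < x g' i := by
        by_contra hcon
        push Not at hcon
        have hsub : (R i).filter (· < x g' i) ⊆ (R i).filter (· < x g i) := by
          intro r hr
          rw [mem_filter] at hr ⊢
          refine ⟨hr.1, ?_⟩
          by_contra hc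
          exact absurd hr.2 (not_lt.2 (hcon r hr.1 (not_lt.1 hc)))
        have := card_le_card hsub
        rw [hxrank, hxrank] at this
        omega
      obtain ⟨ρ, hρR, hρ1, hρ2⟩ := hex
      have hden : 0 < x g' i - x g i := by linarith
      -- the parameter
      obtain ⟨t, ht0, ht1, htρ⟩ : ∃ t : ℝ, 0 ≤ t ∧ t < 1 ∧
          (1 - t) * x g i + t * x g' i = ρ := by
        refine ⟨(ρ - x g i) / (x g' i - x g i), div_nonneg (by linarith) hden.le, ?_, ?_⟩
        · rw [div_lt_one hden]
          linarith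
        · field_simp
          ring
      let z : Fin d → ℝ := fun j => (1 - t) * x g j + t * x g' j
      have hz0 : ∀ j, 0 < z j := by
        intro j
        have h1 : 0 < (1 - t) * x g j := mul_pos (by linarith) (hx0 g j)
        have h2 : 0 ≤ t * x g' j := mul_nonneg ht0 (hx0 g' j).le
        simp only [z]
        linarith
      obtain ⟨b, hbS, hba, hble⟩ := hsheet (Fin.cons 1 z) (by simp) (by simpa using hz0)
        ⟨i, by simpa [z, htρ] using hρR⟩ (a g) (haS g)
      have hcomb : ∀ γ : Fin (d + 1) → ℝ, γ ⬝ᵥ (Fin.cons 1 z : Fin (d + 1) → ℝ) =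
          (1 - t) * (γ ⬝ᵥ (Fin.cons 1 (x g) : Fin (d + 1) → ℝ)) +
            t * (γ ⬝ᵥ (Fin.cons 1 (x g') : Fin (d + 1) → ℝ)) := by
        intro γ
        have hv : (Fin.cons 1 z : Fin (d + 1) → ℝ) =
            (1 - t) • (Fin.cons 1 (x g) : Fin (d + 1) → ℝ) +
              t • (Fin.cons 1 (x g') : Fin (d + 1) → ℝ) := by
          funext j
          refine Fin.cases ?_ (fun j => ?_) j
          · simp
          · simp [z]
        rw [hv, dotProduct_add, dotProduct_smul, dotProduct_smul, smul_eq_mul, smul_eq_mul]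
      rw [hcomb, hcomb] at hble
      have h1 := hamin g b hbS hba
      have h2 := hamin g' b hbS (by rw [← hgg]; exact hba)
      rw [← hgg] at h2
      have h3 : (1 - t) * (a g ⬝ᵥ (Fin.cons 1 (x g) : Fin (d + 1) → ℝ)) <
          (1 - t) * (b ⬝ᵥ (Fin.cons 1 (x g) : Fin (d + 1) → ℝ)) :=
        mul_lt_mul_of_pos_left h1 (by linarith)
      have h4 : t * (a g ⬝ᵥ (Fin.cons 1 (x g') : Fin (d + 1) → ℝ)) ≤
          t * (b ⬝ᵥ (Fin.cons 1 (x g') : Fin (d + 1) → ℝ)) :=
        mul_le_mul_of_nonneg_left h2.le ht0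
      linarith
    rcases lt_or_gt_of_ne (fun h => hi (Fin.ext h) : (g i : ℕ) ≠ g' i) with h | h
    · exact main g g' hgg i h
    · exact main g' g hgg.symm i h
  have hext : ∀ g, a g ∈ (convexHull ℝ (S : Set (Fin (d + 1) → ℝ))).extremePoints ℝ := fun g =>
    Boxes_extreme _ (a g) (haS g) _ (fun b hb hba => hamin g b hb hba)
  have hfin : ((convexHull ℝ (S : Set (Fin (d + 1) → ℝ))).extremePoints ℝ).Finite :=
    S.finite_toSet.subset extremePoints_convexHull_subset
  have hcard : (Set.range a).ncard = ∏ i, ((R i).card + 1) := by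
    rw [← Set.image_univ, Set.ncard_image_of_injective _ hinj, Set.ncard_univ,
      Nat.card_eq_fintype_card, Fintype.card_pi]
    simp
  rw [← hcard, numVertices]
  exact Set.ncard_le_ncard (by rintro _ ⟨g, rfl⟩; exact hext g) hfin

end Pool.Agent.Lib.MP_4e7804_co
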