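import Mathlib
import Pool.Agent.Lib.MP_4e7804_co.Defs

/-! MP_4e7804_co, lower bound for all n, module Generic. -/

set_option autoImplicit false

open Finset

namespace Pool.Agent.Lib.MP_4e7804_co

open Cardinal in
theorem Generic_infinite : ∃ (ι : Type) (x : ι → ℂ), Infinite ι ∧ AlgebraicIndependent ℚ x := by
  obtain ⟨ι, x, hx⟩ := exists_isTranscendenceBasis' ℚ ℂ
  refine ⟨ι, x, ?_, hx.1⟩
  have h : #ℂ = #ι :=
    IsAlgClosed.cardinal_eq_cardinal_transcendence_basis_of_aleph0_lt' x hx
      (Cardinal.mkRat.le) (by rw [Cardinal.mk_complex]; exact Cardinal.aleph0_lt_continuum)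
  rw [Cardinal.mk_complex] at h
  rw [Cardinal.infinite_iff, ← h]
  exact Cardinal.aleph0_le_continuum

/-- TASK D6 (file Lo/Generic.lean), 70 lines: generic coefficients exist.
PROOF. A transcendence basis of `ℂ` over `ℚ` is infinite: otherwise `ℂ` would be algebraic over a
countable ring and hence countable (`Algebra.IsAlgebraic.cardinalMk_le_max`, or
`IsTranscendenceBasis`, `Cardinal.mk_complex`, `Cardinal.continuum`); choose an injection of the
finite type `Σ i, latticePoints (P i)` into the basis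
(`AlgebraicIndependent.comp`, `Infinite.natEmbedding`), and extend by `0`. -/
theorem exists_generic {n d : ℕ} (P : Fin n → Set (Fin d → ℝ))
    (hfin : ∀ i, (latticePoints (P i)).Finite) : ∃ c, IsGeneric P c := by
  classical
  obtain ⟨ι, x, hinf, hx⟩ := Generic_infinite
  have : ∀ i, Finite (latticePoints (P i)) := fun i => (hfin i).to_subtype
  have hQ : Finite (Σ i : Fin n, latticePoints (P i)) := inferInstance
  obtain ⟨m, ⟨e⟩⟩ := Finite.exists_equiv_fin (Σ i : Fin n, latticePoints (P i))
  let g : (Σ i : Fin n, latticePoints (P i)) → ι := fun q => Infinite.natEmbedding ι (e q).val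
  have hg : Function.Injective g := by
    intro a b hab
    exact e.injective (Fin.ext ((Infinite.natEmbedding ι).injective hab))
  refine ⟨fun i p => if h : p ∈ latticePoints (P i) then x (g ⟨i, ⟨p, h⟩⟩) else 0, ?_⟩
  have h1 : (fun q : (Σ i : Fin n, latticePoints (P i)) =>
      (if h : (q.2 : Fin d → ℤ) ∈ latticePoints (P q.1) then x (g ⟨q.1, ⟨q.2, h⟩⟩) else 0)) =
      x ∘ g := by
    funext q
    rw [dif_pos q.2.2]
    rfl
  unfold IsGeneric
  rw [h1]
  exact hx.comp g hg

theorem IsGeneric.ne_zero {n d : ℕ} {P : Fin n → Set (Fin d → ℝ)}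
    {c : Fin n → (Fin d → ℤ) → ℂ} (h : IsGeneric P c) (i : Fin n) (p : Fin d → ℤ)
    (hp : p ∈ latticePoints (P i)) : c i p ≠ 0 :=
  AlgebraicIndependent.ne_zero h ⟨i, ⟨p, hp⟩⟩

end Pool.Agent.Lib.MP_4e7804_co
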