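import Mathlib
import Pool.Agent.Lib.MP_4e7804_co.Defs

/-! MP_4e7804_co, lower bound for all n, module Prime. -/

set_option autoImplicit false

open Finset

namespace Pool.Agent.Lib.MP_4e7804_co

/-- The evaluation of a monomial as a monoid homomorphism in the exponent. -/
noncomputable def PrimeHom {d : ℕ} (t : Fin d → ℂˣ) : Multiplicative (Fin d → ℤ) →* ℂ where
  toFun p := mono t p.toAdd
  map_one' := by simp [mono]
  map_mul' p q := by
    simp only [mono, toAdd_mul, Pi.add_apply, zpow_add, Units.val_mul, Finset.prod_mul_distrib]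

/-- The evaluation of a monomial as a monoid homomorphism in the point. -/
noncomputable def PrimeChi {d : ℕ} (p : Fin d → ℤ) : (Fin d → ℂˣ) →* ℂ where
  toFun t := mono t p
  map_one' := by simp [mono]
  map_mul' s t := by
    simp only [mono, Pi.mul_apply, mul_zpow, Units.val_mul, Finset.prod_mul_distrib]

theorem PrimeChi_injective (d : ℕ) : Function.Injective (PrimeChi (d := d)) := by
  intro p q h
  funext k
  have h1 : mono (Function.update 1 k (Units.mk0 (2 : ℂ) two_ne_zero)) p =
      mono (Function.update 1 k (Units.mk0 (2 : ℂ) two_ne_zero)) q := DFunLike.congr_fun h _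
  have h2 : ∀ r : Fin d → ℤ,
      mono (Function.update 1 k (Units.mk0 (2 : ℂ) two_ne_zero)) r = (2 : ℂ) ^ r k := by
    intro r
    unfold mono
    rw [Finset.prod_eq_single k]
    · rw [Function.update_self, Units.val_zpow_eq_zpow_val, Units.val_mk0]
    · intro j _ hj
      rw [Function.update_of_ne hj, Pi.one_apply, one_zpow, Units.val_one]
    · intro hk
      exact absurd (Finset.mem_univ k) hk
  rw [h2, h2] at h1
  have h3 := congrArg (fun z : ℂ => ‖z‖) h1
  simp only [norm_zpow, Complex.norm_ofNat] at h3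
  exact zpow_right_injective₀ (by norm_num) (by norm_num) h3

/-- The evaluation of a Laurent polynomial at a point of the torus. -/
noncomputable def PrimeEv {d : ℕ} (t : Fin d → ℂˣ) : AddMonoidAlgebra ℂ (Fin d → ℤ) →ₐ[ℂ] ℂ :=
  AddMonoidAlgebra.lift ℂ ℂ (Fin d → ℤ) (PrimeHom t)

theorem PrimeEv_single {d : ℕ} (t : Fin d → ℂˣ) (p : Fin d → ℤ) (a : ℂ) :
    PrimeEv t (AddMonoidAlgebra.single p a) = a * mono t p := by
  unfold PrimeEv
  rw [AddMonoidAlgebra.lift_single]
  rfl

theorem PrimeEv_zero {d : ℕ} (g : AddMonoidAlgebra ℂ (Fin d → ℤ)) (h : ∀ t, PrimeEv t g = 0) :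
    g = 0 := by
  have h1 : LinearIndependent ℂ (fun p : Fin d → ℤ => (PrimeChi p : (Fin d → ℂˣ) → ℂ)) :=
    (linearIndependent_monoidHom (Fin d → ℂˣ) ℂ).comp PrimeChi (PrimeChi_injective d)
  have h2 : Finsupp.linearCombination ℂ (fun p : Fin d → ℤ => (PrimeChi p : (Fin d → ℂˣ) → ℂ))
      g.coeff = 0 := by
    funext t
    have h3 := h t
    unfold PrimeEv at h3
    rw [AddMonoidAlgebra.lift_apply] at h3
    rw [Finsupp.linearCombination_apply, Finsupp.sum, Finset.sum_apply]
    exact h3
  exact AddMonoidAlgebra.coeff_eq_zero.1 (linearIndependent_iff.1 h1 g.coeff h2)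

/-- TASK D1 (file Lo/Prime.lean), 100 lines: polynomial relations between the `f_i` form a prime
ideal.
PROOF. Let `Λ = AddMonoidAlgebra ℂ (Fin d → ℤ)`, an integral domain (`NoZeroDivisors` from
`UniqueSums`/`TwoUniqueSums (Fin d → ℤ)`), `ev t : Λ →ₐ[ℂ] ℂ` the algebra map with
`ev t (single p 1) = mono t p` (`AddMonoidAlgebra.lift` of the monoid map `p ↦ mono t p`), and
`f i = ∑ p ∈ T i, single p (c i p) : Λ`, `T i = (hfin i).toFinset`, so `ev t (f i) = evalAt P c t i`
and `ev t (aeval f G) = eval (evalAt P c t) G`. If `g : Λ` has `ev t g = 0` for all `t` then `g = 0`: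
the monoid homs `χ_p : (Fin d → ℂˣ) →* ℂ`, `t ↦ mono t p`, are different for different `p` (take
`t_k = 2` at one coordinate, `1` elsewhere) hence linearly independent
(`linearIndependent_monoidHom`), and `∑ p, g p • χ_p = 0`. So the statement
`∀ t, eval (evalAt P c t) G = 0` is equivalent to `aeval f G = 0` in the domain `Λ`. -/
theorem relations_prime {n d : ℕ} (P : Fin n → Set (Fin d → ℝ))
    (hfin : ∀ i, (latticePoints (P i)).Finite) (c : Fin n → (Fin d → ℤ) → ℂ)
    (G₁ G₂ : MvPolynomial (Fin n) ℂ)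
    (h : ∀ t, MvPolynomial.eval (evalAt P c t) (G₁ * G₂) = 0) :
    (∀ t, MvPolynomial.eval (evalAt P c t) G₁ = 0) ∨
      ∀ t, MvPolynomial.eval (evalAt P c t) G₂ = 0 := by
  let f : Fin n → AddMonoidAlgebra ℂ (Fin d → ℤ) :=
    fun i => ∑ p ∈ (hfin i).toFinset, AddMonoidAlgebra.single p (c i p)
  have h1 : ∀ (t : Fin d → ℂˣ) (G : MvPolynomial (Fin n) ℂ),
      PrimeEv t (MvPolynomial.aeval f G) = MvPolynomial.eval (evalAt P c t) G := by
    intro t G
    have h2 : (fun i => PrimeEv t (f i)) = evalAt P c t := by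
      funext i
      unfold evalAt
      rw [finsum_mem_eq_finite_toFinset_sum _ (hfin i), map_sum]
      exact Finset.sum_congr rfl fun p _ => PrimeEv_single t p (c i p)
    rw [MvPolynomial.comp_aeval_apply, h2]
    rfl
  have h3 : MvPolynomial.aeval f G₁ * MvPolynomial.aeval f G₂ = 0 := by
    rw [← map_mul]
    exact PrimeEv_zero _ fun t => by rw [h1, h t]
  rcases mul_eq_zero.1 h3 with h4 | h4
  · left
    intro t
    rw [← h1, h4, map_zero]
  · right
    intro t
    rw [← h1, h4, map_zero]

end Pool.Agent.Lib.MP_4e7804_co
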