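import Mathlib
import Pool.Agent.Lib.MP_4e7804_co.Defs

/-! The explicit polytopes of the lower bound. `d = n - 1 ≥ 2`. -/

set_option autoImplicit false

open Finset

namespace Pool.Agent.Lib.MP_4e7804_co

/-- The vector `-(1, …, 1)`. -/
def vV (d : ℕ) : Fin d → ℤ := fun _ => -1

/-- The vector `ω_i = (d - 1) e_i - 2 ∑_{l ≠ i} e_l`. -/
def om {d : ℕ} (i : Fin d) : Fin d → ℤ := fun l => if l = i then (d : ℤ) - 1 else -2

/-- The vector `U_j^i = 2 e_i + (d - 1) e_j` (used for `j ≠ i`). -/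
def uU {d : ℕ} (i j : Fin d) : Fin d → ℤ :=
  fun l => if l = i then 2 else if l = j then (d : ℤ) - 1 else 0

/-- The point number `x` of the family `i` of the polytope `P_j`, `i ≠ j`:
`e_j - L ω_i + x M_j U_j^i + x² V`. -/
def pt {d : ℕ} (M : Fin d → ℤ) (L : ℤ) (j i : Fin d) (x : ℕ) : Fin d → ℤ :=
  fun l => (if l = j then 1 else 0) - L * om i l + x * M j * uU i j l + (x : ℤ) ^ 2 * vV d l

/-- The vertices of `P_j`: the unit vector `e_j` and `k j i` points of family `i`, for all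
`i ≠ j`. -/
def setA {d : ℕ} (M : Fin d → ℤ) (L : ℤ) (k : Fin d → Fin d → ℕ) (j : Fin d) :
    Finset (Fin d → ℤ) :=
  insert (Pi.single j 1)
    ((univ.filter (· ≠ j)).biUnion fun i => (range (k j i)).image (pt M L j i))

/-- The vertices of the free polytope `P_0`: `V + x A V + x² e_0`. -/
def pt0 (d : ℕ) (A : ℤ) (x : ℕ) : Fin d → ℤ :=
  fun l => -1 - x * A + if l.val = 0 then (x : ℤ) ^ 2 else 0

/-- The vertices of the free polytope. -/
def set0 (d : ℕ) (A : ℤ) (v : ℕ) : Finset (Fin d → ℤ) := (range v).image (pt0 d A)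

/-- `∑_{j ≠ i} q_j`. -/
def eps {d : ℕ} (i : Fin d) (q : Fin d → ℚ) : ℚ := ∑ j ∈ univ.filter (· ≠ i), q j

/-- The solution `w` of `V · w = 1`, `U_j^i · w = - q_j` (`j ≠ i`). -/
def wg {d : ℕ} (i : Fin d) (q : Fin d → ℚ) : Fin d → ℚ :=
  fun l => if l = i then 1 - eps i q / (d - 1)
    else -(q l + 2 * (1 - eps i q / (d - 1))) / (d - 1)

/-- The slopes at the edges number `κ_j`. -/
def qk {d : ℕ} (M : Fin d → ℤ) (κ : Fin d → ℕ) : Fin d → ℚ := fun l => (2 * κ l + 1) / M l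

/-- The slopes at the vertex number `x` of the family `i` of `P_j`. -/
def qv {d : ℕ} (M : Fin d → ℤ) (j : Fin d) (x : ℕ) : Fin d → ℚ :=
  fun l => if l = j then 2 * x / M l else 0

/-- The polytopes `P_0, …, P_d` of the lower bound. -/
def confP {d : ℕ} (M : Fin d → ℤ) (L : ℤ) (k : Fin d → Fin d → ℕ) (A : ℤ) (v0 : ℕ) :
    Fin (d + 1) → Set (Fin d → ℝ) :=
  Fin.cons (convexHull ℝ (toReal '' (set0 d A v0 : Set (Fin d → ℤ))))
    fun j => convexHull ℝ (toReal '' (setA M L k j : Set (Fin d → ℤ)))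

/-- The levels of the sheets with `y_i` constant. -/
noncomputable def levels {d : ℕ} (M : Fin d → ℤ) (k : Fin d → Fin d → ℕ) (i : Fin d) :
    Finset ℝ :=
  (Fintype.piFinset fun j => if j = i then {0} else range (k j i - 1)).image
    fun κ => ((wg i (qk M κ) i : ℚ) : ℝ)

end Pool.Agent.Lib.MP_4e7804_co
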