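import Mathlib
import Pool.Agent.Lib.MP_4e7804_co.Lo.GeoDefs

/-! MP_4e7804_co, lower bound for all n, module Wg. -/

set_option autoImplicit false

open Finset

namespace Pool.Agent.Lib.MP_4e7804_co

/-! ### TASK C1 (file Lo/Wg.lean), 120 lines: values of the linear form `wg i q`.

Everything is a direct computation: `∑ l, f l = f i + ∑ l ∈ univ.filter (· ≠ i), f l`, the number
of `l ≠ i` is `d - 1`. -/

private theorem wg_split {d : ℕ} (i : Fin d) (f : Fin d → ℚ) :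
    ∑ l, f l = f i + ∑ l ∈ univ.filter (· ≠ i), f l := by
  have h := Finset.sum_filter_add_sum_filter_not (univ : Finset (Fin d)) (fun l => l = i) f
  rw [← h]
  congr 1
  rw [Finset.filter_eq' univ i]
  simp

private theorem wg_cardne {d : ℕ} (i : Fin d) :
    (((univ.filter (· ≠ i) : Finset (Fin d)).card : ℕ) : ℚ) = (d : ℚ) - 1 := by
  have h := wg_split i (fun _ => (1 : ℚ))
  simp only [Finset.sum_const, Finset.card_univ, Fintype.card_fin, nsmul_eq_mul, mul_one] at h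
  linarith

private theorem wg_d1 {d : ℕ} (hd : 2 ≤ d) : (1 : ℚ) ≤ (d : ℚ) - 1 := by
  have : (2 : ℚ) ≤ d := by exact_mod_cast hd
  linarith

theorem sum_wg {d : ℕ} (hd : 2 ≤ d) (i : Fin d) (q : Fin d → ℚ) : ∑ l, wg i q l = -1 := by
  have h1 := wg_d1 hd
  have h0 : (d : ℚ) - 1 ≠ 0 := by linarith
  rw [wg_split i]
  have e1 : ∑ l ∈ univ.filter (· ≠ i), wg i q l =
      ∑ l ∈ univ.filter (· ≠ i), (-(q l + 2 * (1 - eps i q / (d - 1))) / ((d : ℚ) - 1)) := by
    apply Finset.sum_congr rfl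
    intro l hl
    have hl' : l ≠ i := (Finset.mem_filter.1 hl).2
    simp [wg, hl']
  have e2 : ∑ l ∈ univ.filter (· ≠ i), (-(q l + 2 * (1 - eps i q / (d - 1))) / ((d : ℚ) - 1)) =
      -(eps i q + ((d : ℚ) - 1) * (2 * (1 - eps i q / (d - 1)))) / ((d : ℚ) - 1) := by
    rw [← Finset.sum_div, Finset.sum_neg_distrib, Finset.sum_add_distrib, Finset.sum_const,
      nsmul_eq_mul, wg_cardne]
    rfl
  have e3 : wg i q i = 1 - eps i q / (d - 1) := by simp [wg]
  rw [e1, e2, e3]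
  field_simp
  ring

theorem dot_vV {d : ℕ} (w : Fin d → ℚ) : dot w (vV d) = -∑ l, w l := by
  simp [dot, vV]

theorem dot_om {d : ℕ} (w : Fin d → ℚ) (i : Fin d) :
    dot w (om i) = (d + 1) * w i - 2 * ∑ l, w l := by
  unfold dot
  rw [wg_split i, wg_split i w]
  have e1 : ∑ l ∈ univ.filter (· ≠ i), w l * ((om i l : ℤ) : ℚ) =
      ∑ l ∈ univ.filter (· ≠ i), w l * (-2) := by
    apply Finset.sum_congr rfl
    intro l hl
    have hl' : l ≠ i := (Finset.mem_filter.1 hl).2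
    simp [om, hl']
  rw [e1, ← Finset.sum_mul]
  simp only [om, if_true]
  push_cast
  ring

theorem dot_uU {d : ℕ} (w : Fin d → ℚ) (i j : Fin d) (hij : j ≠ i) :
    dot w (uU i j) = 2 * w i + (d - 1) * w j := by
  unfold dot
  rw [wg_split i]
  have hj : j ∈ univ.filter (fun l : Fin d => l ≠ i) := by simp [hij]
  rw [Finset.sum_eq_single_of_mem j hj]
  · simp [uU, hij]
    ring
  · intro l hl hlj
    have hl' : l ≠ i := (Finset.mem_filter.1 hl).2
    simp [uU, hl', hlj]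

theorem wg_self {d : ℕ} (i : Fin d) (q : Fin d → ℚ) : wg i q i = 1 - eps i q / (d - 1) := by
  simp [wg]

private theorem wg_other {d : ℕ} (i l : Fin d) (h : l ≠ i) (q : Fin d → ℚ) :
    wg i q l = -(q l + 2 * (1 - eps i q / (d - 1))) / (d - 1) := by
  simp [wg, h]

theorem dot_wg_uU {d : ℕ} (hd : 2 ≤ d) (i j : Fin d) (hij : j ≠ i) (q : Fin d → ℚ) :
    dot (wg i q) (uU i j) = -q j := by
  have h1 := wg_d1 hd
  have h0 : (d : ℚ) - 1 ≠ 0 := by linarith
  rw [dot_uU _ _ _ hij, wg_self, wg_other i j hij]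
  field_simp
  ring

/-- General value of `w` at the points. -/
theorem dot_pt {d : ℕ} (w : Fin d → ℚ) (M : Fin d → ℤ) (L : ℤ) (j i : Fin d) (x : ℕ) :
    dot w (pt M L j i x) = w j - L * dot w (om i) + x * M j * dot w (uU i j)
      + (x : ℚ) ^ 2 * dot w (vV d) := by
  unfold dot pt
  have e : ∀ l, w l * (((if l = j then (1 : ℤ) else 0) - L * om i l + x * M j * uU i j l
      + (x : ℤ) ^ 2 * vV d l : ℤ) : ℚ) = (if l = j then w l else 0) - L * (w l * (om i l : ℚ))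
      + x * M j * (w l * (uU i j l : ℚ)) + (x : ℚ) ^ 2 * (w l * (vV d l : ℚ)) := by
    intro l
    by_cases h : l = j
    · simp only [h, if_true]
      push_cast
      ring
    · simp only [h, if_false]
      push_cast
      ring
  rw [Finset.sum_congr rfl (fun l _ => e l)]
  simp only [Finset.sum_add_distrib, Finset.sum_sub_distrib, ← Finset.mul_sum]
  simp

theorem dot_single {d : ℕ} (w : Fin d → ℚ) (j : Fin d) : dot w (Pi.single j 1) = w j := by
  unfold dot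
  rw [Finset.sum_eq_single j]
  · simp
  · intro l _ hl
    simp [hl]
  · simp

theorem dot_pt0 {d : ℕ} (hd : 2 ≤ d) (w : Fin d → ℚ) (A : ℤ) (x : ℕ) :
    dot w (pt0 d A x) = -(1 + x * A) * ∑ l, w l + (x : ℚ) ^ 2 * w ⟨0, by omega⟩ := by
  unfold dot pt0
  have e : ∀ l : Fin d, w l * ((-1 - x * A + (if l.val = 0 then (x : ℤ) ^ 2 else 0) : ℤ) : ℚ) =
      -(1 + x * A) * w l + (if l = ⟨0, by omega⟩ then (x : ℚ) ^ 2 * w l else 0) := by
    intro l
    by_cases h : l.val = 0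
    · have h' : l = ⟨0, by omega⟩ := Fin.ext h
      rw [if_pos h, if_pos h']
      push_cast
      ring
    · have h' : ¬ l = ⟨0, by omega⟩ := fun h2 => h (by rw [h2])
      rw [if_neg h, if_neg h']
      push_cast
      ring
  rw [Finset.sum_congr rfl (fun l _ => e l), Finset.sum_add_distrib, ← Finset.mul_sum]
  simp

/-- Signs. From `0 ≤ ε ≤ 1/3` (`ε = eps i q`) and `d - 1 ≥ 1`: `w_i = 1 - ε/(d-1) > 0`,
`w_j = -(q_j + 2 w_i)/(d-1) < 0`; `ω_i · w = (d+1) w_i + 2 > 0`;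
`ω_i' · w = (d+1) w_i' + 2 ≤ 2 - (d+1) * 2 (1 - ε/(d-1))/(d-1)
= (-4 + 2 (d+1) ε/(d-1))/(d-1) < 0`, because `(d+1)/(d-1) ≤ 3`. -/
theorem wg_signs {d : ℕ} (hd : 2 ≤ d) (i : Fin d) (q : Fin d → ℚ) (hq : ∀ l, 0 ≤ q l)
    (he : eps i q ≤ 1 / 3) :
    0 < wg i q i ∧ (∀ j, j ≠ i → wg i q j < 0) ∧ 0 < dot (wg i q) (om i) ∧
      ∀ i', i' ≠ i → dot (wg i q) (om i') < 0 := by
  have h1 := wg_d1 hd
  have hpos : (0 : ℚ) < (d : ℚ) - 1 := by linarith
  have h0 : (d : ℚ) - 1 ≠ 0 := hpos.ne'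
  have he0 : 0 ≤ eps i q := Finset.sum_nonneg (fun l _ => hq l)
  have hw : 2 / 3 ≤ wg i q i := by
    rw [wg_self]
    have : eps i q / ((d : ℚ) - 1) ≤ 1 / 3 := by
      rw [div_le_iff₀ hpos]
      nlinarith
    linarith
  have hwo : ∀ l, l ≠ i → wg i q l * ((d : ℚ) - 1) = -(q l + 2 * wg i q i) := by
    intro l hl
    rw [wg_other i l hl, wg_self]
    field_simp
  have hneg : ∀ l, l ≠ i → wg i q l < 0 := by
    intro l hl
    have := hwo l hl
    have hql := hq l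
    by_contra hc
    push Not at hc
    have : 0 ≤ wg i q l * ((d : ℚ) - 1) := mul_nonneg hc hpos.le
    linarith
  refine ⟨by linarith, hneg, ?_, ?_⟩
  · rw [dot_om, sum_wg hd]
    have : (0 : ℚ) ≤ (d : ℚ) + 1 := by linarith
    nlinarith
  · intro l hl
    rw [dot_om, sum_wg hd]
    have e1 := hwo l hl
    have hql := hq l
    -- (d+1) w_l + 2 < 0 ; multiply by d - 1
    have hwi : wg i q i * ((d : ℚ) - 1) = ((d : ℚ) - 1) - eps i q := by
      rw [wg_self]
      field_simp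
    have key : (((d : ℚ) + 1) * wg i q l - 2 * (-1)) * (((d : ℚ) - 1) * ((d : ℚ) - 1)) < 0 := by
      have e2 : (((d : ℚ) + 1) * wg i q l - 2 * (-1)) * (((d : ℚ) - 1) * ((d : ℚ) - 1)) =
          ((d : ℚ) + 1) * ((wg i q l * ((d : ℚ) - 1)) * ((d : ℚ) - 1))
            + 2 * (((d : ℚ) - 1) * ((d : ℚ) - 1)) := by ring
      have e3 : (wg i q l * ((d : ℚ) - 1)) * ((d : ℚ) - 1) =
          -(q l * ((d : ℚ) - 1) + 2 * (wg i q i * ((d : ℚ) - 1))) := by
        rw [e1]; ring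
      rw [e2, e3, hwi]
      have hqd : 0 ≤ ((d : ℚ) + 1) * (q l * ((d : ℚ) - 1)) := by positivity
      nlinarith
    have hsq : (0 : ℚ) < ((d : ℚ) - 1) * ((d : ℚ) - 1) := mul_pos hpos hpos
    by_contra hc
    push Not at hc
    have : 0 ≤ (((d : ℚ) + 1) * wg i q l - 2 * (-1)) * (((d : ℚ) - 1) * ((d : ℚ) - 1)) :=
      mul_nonneg hc hsq.le
    linarith

end Pool.Agent.Lib.MP_4e7804_co
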