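import Mathlib
import Pool.Agent.Lib.MP_4e7804_co.Lo.Wg

/-! MP_4e7804_co, lower bound for all n, module MinSet. -/

set_option autoImplicit false

open Finset

namespace Pool.Agent.Lib.MP_4e7804_co

/-! ### TASK C3 (file Lo/MinSet.lean, imports Lo/Wg.lean), 120 lines: minimizers at `wg i q`.

Hypotheses `h1, h2, h3` are the first three statements of `exists_L`. -/

theorem MinSet_val {d : ℕ} (hd : 2 ≤ d) (M : Fin d → ℤ) (L : ℤ) (i j : Fin d) (hji : j ≠ i)
    (q : Fin d → ℚ) (x : ℕ) :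
    dot (wg i q) (pt M L j i x) =
      (wg i q j - L * dot (wg i q) (om i)) - x * (M j * q j) + (x : ℚ) ^ 2 := by
  rw [dot_pt, dot_wg_uU hd i j hji, dot_vV, sum_wg hd]
  ring

theorem MinSet_mem {d : ℕ} (M : Fin d → ℤ) (L : ℤ) (k : Fin d → Fin d → ℕ) (i j : Fin d)
    (hij : i ≠ j) (x : ℕ) (hx : x < k j i) : pt M L j i x ∈ setA M L k j := by
  unfold setA
  rw [Finset.mem_insert, Finset.mem_biUnion]
  exact Or.inr ⟨i, Finset.mem_filter.2 ⟨Finset.mem_univ _, hij⟩,
    Finset.mem_image.2 ⟨x, Finset.mem_range.2 hx, rfl⟩⟩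

theorem MinSet_cases {d : ℕ} {M : Fin d → ℤ} {L : ℤ} {k : Fin d → Fin d → ℕ} {j : Fin d}
    {a : Fin d → ℤ} (ha : a ∈ setA M L k j) :
    a = Pi.single j 1 ∨ ∃ i, i ≠ j ∧ ∃ x, x < k j i ∧ a = pt M L j i x := by
  unfold setA at ha
  rw [Finset.mem_insert, Finset.mem_biUnion] at ha
  rcases ha with h | ⟨i, hi, h⟩
  · exact Or.inl h
  · obtain ⟨x, hx, h⟩ := Finset.mem_image.1 h
    exact Or.inr ⟨i, (Finset.mem_filter.1 hi).2, x, Finset.mem_range.1 hx, h.symm⟩

/-- At the slopes `qk M κ` the minimum over `setA M L k j`, `j ≠ i`, is attained exactly at the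
points number `κ j`, `κ j + 1` of the family `i`.
PROOF. `dot w (pt M L j i x) = w j - L (ω_i · w) - x (2 κ_j + 1) + x²`
`= const + (x - κ_j)(x - κ_j - 1)`; the product is zero for `x = κ_j, κ_j + 1` and positive for the
other natural numbers. The point `e_j` is excluded by `h1`, the other families by `h2`. -/
theorem minset_edge {d : ℕ} (hd : 2 ≤ d) (M : Fin d → ℤ) (hM : ∀ l, 0 < M l) (L : ℤ)
    (k : Fin d → Fin d → ℕ) (i : Fin d) (κ : Fin d → ℕ) (j : Fin d) (hji : j ≠ i)
    (hκ : κ j + 1 < k j i)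
    (h1 : ∀ x < k j i, dot (wg i (qk M κ)) (pt M L j i x) < wg i (qk M κ) j)
    (h2 : ∀ x < k j i, ∀ i', i' ≠ i → i' ≠ j → ∀ x' < k j i',
        dot (wg i (qk M κ)) (pt M L j i x) < dot (wg i (qk M κ)) (pt M L j i' x')) :
    pt M L j i (κ j) ∈ setA M L k j ∧ pt M L j i (κ j + 1) ∈ setA M L k j ∧
    dot (wg i (qk M κ)) (pt M L j i (κ j)) = dot (wg i (qk M κ)) (pt M L j i (κ j + 1)) ∧
    ∀ a ∈ setA M L k j, a ≠ pt M L j i (κ j) → a ≠ pt M L j i (κ j + 1) →
      dot (wg i (qk M κ)) (pt M L j i (κ j)) < dot (wg i (qk M κ)) a := by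
  have hMj : (M j : ℚ) ≠ 0 := by exact_mod_cast (hM j).ne'
  have hq : (M j : ℚ) * qk M κ j = 2 * κ j + 1 := by
    unfold qk
    field_simp
  have hv : ∀ x : ℕ, dot (wg i (qk M κ)) (pt M L j i x) =
      (wg i (qk M κ) j - L * dot (wg i (qk M κ)) (om i)) - x * (2 * κ j + 1) + (x : ℚ) ^ 2 := by
    intro x
    rw [MinSet_val hd M L i j hji, hq]
  refine ⟨MinSet_mem M L k i j (Ne.symm hji) _ (by omega),
    MinSet_mem M L k i j (Ne.symm hji) _ hκ, ?_, ?_⟩
  · rw [hv, hv]
    push_cast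
    ring
  · intro a ha hne1 hne2
    rcases MinSet_cases ha with rfl | ⟨i', hi', x', hx', rfl⟩
    · rw [dot_single]
      exact h1 _ (by omega)
    · by_cases hii : i' = i
      · subst hii
        have hx1 : x' ≠ κ j := fun h => hne1 (by rw [h])
        have hx2 : x' ≠ κ j + 1 := fun h => hne2 (by rw [h])
        rw [hv, hv]
        have hpos : 0 < ((x' : ℚ) - κ j) * ((x' : ℚ) - κ j - 1) := by
          rcases lt_or_ge x' (κ j) with h | h
          · have h' : (x' : ℚ) + 1 ≤ κ j := by exact_mod_cast h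
            exact mul_pos_of_neg_of_neg (by linarith) (by linarith)
          · have h3 : κ j + 2 ≤ x' := by omega
            have h' : (κ j : ℚ) + 2 ≤ x' := by exact_mod_cast h3
            exact mul_pos (by linarith) (by linarith)
        nlinarith
      · exact h2 _ (by omega) i' hii hi' x' hx'

/-- At `wg i q` the minimum over `setA M L k i` is attained only at `e_i`. -/
theorem minset_unit {d : ℕ} (M : Fin d → ℤ) (L : ℤ)
    (k : Fin d → Fin d → ℕ) (i : Fin d) (q : Fin d → ℚ)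
    (h3 : ∀ i', i' ≠ i → ∀ x < k i i', wg i q i < dot (wg i q) (pt M L i i' x)) :
    ∀ a ∈ setA M L k i, a ≠ Pi.single i 1 →
      dot (wg i q) (Pi.single i 1) < dot (wg i q) a := by
  intro a ha hne
  rcases MinSet_cases ha with h | ⟨i', hi', x', hx', rfl⟩
  · exact absurd h hne
  · rw [dot_single]
    exact h3 i' hi' x' hx'

/-- At the slopes `qv M j x` the minimum over `setA M L k j` is attained only at the point
number `x` of family `i`: the values in the family `i` are `const + (x' - x)²`. -/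
theorem minset_vertex {d : ℕ} (hd : 2 ≤ d) (M : Fin d → ℤ) (hM : ∀ l, 0 < M l) (L : ℤ)
    (k : Fin d → Fin d → ℕ) (i : Fin d) (j : Fin d) (hji : j ≠ i) (x : ℕ) (hx : x < k j i)
    (h1 : ∀ x' < k j i, dot (wg i (qv M j x)) (pt M L j i x') < wg i (qv M j x) j)
    (h2 : ∀ x' < k j i, ∀ i', i' ≠ i → i' ≠ j → ∀ x'' < k j i',
        dot (wg i (qv M j x)) (pt M L j i x') < dot (wg i (qv M j x)) (pt M L j i' x'')) :
    ∀ a ∈ setA M L k j, a ≠ pt M L j i x →
      dot (wg i (qv M j x)) (pt M L j i x) < dot (wg i (qv M j x)) a := by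
  have hMj : (M j : ℚ) ≠ 0 := by exact_mod_cast (hM j).ne'
  have hq : (M j : ℚ) * qv M j x j = 2 * x := by
    unfold qv
    rw [if_pos rfl]
    field_simp
  have hv : ∀ x' : ℕ, dot (wg i (qv M j x)) (pt M L j i x') =
      (wg i (qv M j x) j - L * dot (wg i (qv M j x)) (om i)) - x' * (2 * x) + (x' : ℚ) ^ 2 := by
    intro x'
    rw [MinSet_val hd M L i j hji, hq]
  intro a ha hne
  rcases MinSet_cases ha with rfl | ⟨i', hi', x', hx', rfl⟩
  · rw [dot_single]
    exact h1 _ hx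
  · by_cases hii : i' = i
    · subst hii
      have hx1 : x' ≠ x := fun h => hne (by rw [h])
      rw [hv, hv]
      have hpos : 0 < ((x' : ℚ) - x) ^ 2 := by
        have h : (x' : ℚ) - x ≠ 0 := by
          rw [sub_ne_zero]
          exact_mod_cast hx1
        positivity
      nlinarith
    · exact h2 _ hx i' hii hi' x' hx'

end Pool.Agent.Lib.MP_4e7804_co
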