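import Mathlib
import Pool.Agent.Lib.MP_4e7804_co.Lo.MinSet

/-! MP_4e7804_co, lower bound for all n, module CardA. -/

set_option autoImplicit false

open Finset

namespace Pool.Agent.Lib.MP_4e7804_co

/-! ### TASK C4 (file Lo/CardA.lean, imports Lo/MinSet.lean), 120 lines: number of vertices. -/

/-- The number of points of `setA M L k j`, and each is the unique minimizer of some linear form.
`h1, h2` for the slopes `qv M j x`, `h4` is the fourth statement of `exists_L`.
PROOF. The unique minimizer statements are `minset_vertex` and, for `e_j`, `w = 1` with `h4`. The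
points are different: if `pt M L j i x = pt M L j i' x'` (`x < k j i`, `x' < k j i'`) and `i ≠ i'`
then `h2` (at `qv M j x`, `x' := x`) gives `dot w a < dot w a`; if `i = i'` and `x ≠ x'` the values
at `wg i (qv M j x)` differ by `(x' - x)² > 0`; `pt M L j i x ≠ e_j` by `h4` (or `h1`). So the
cardinality is `1 + ∑ i ≠ j, k j i` (`card_insert_of_notMem`, `card_biUnion`,
`card_image_of_injOn`). -/
theorem setA_vertices {d : ℕ} (hd : 2 ≤ d) (M : Fin d → ℤ) (hM : ∀ l, 0 < M l) (L : ℤ)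
    (k : Fin d → Fin d → ℕ) (j : Fin d)
    (h1 : ∀ i, j ≠ i → ∀ x < k j i, ∀ x' < k j i,
      dot (wg i (qv M j x)) (pt M L j i x') < wg i (qv M j x) j)
    (h2 : ∀ i, j ≠ i → ∀ x < k j i, ∀ x' < k j i, ∀ i', i' ≠ i → i' ≠ j → ∀ x'' < k j i',
        dot (wg i (qv M j x)) (pt M L j i x') < dot (wg i (qv M j x)) (pt M L j i' x''))
    (h4 : ∀ i, j ≠ i → ∀ x < k j i, 1 < dot (fun _ => (1 : ℚ)) (pt M L j i x)) :
    (setA M L k j).card = 1 + ∑ i ∈ univ.filter (· ≠ j), k j i ∧
    (∀ a ∈ setA M L k j, ∃ w : Fin d → ℚ, ∀ a' ∈ setA M L k j, a' ≠ a → dot w a < dot w a') ∧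
    ∀ a ∈ setA M L k j, a ≠ Pi.single j 1 →
      dot (fun _ => (1 : ℚ)) (Pi.single j 1) < dot (fun _ => (1 : ℚ)) a := by
  have hone : dot (fun _ => (1 : ℚ)) (Pi.single j 1) = 1 := dot_single _ j
  have hmem : ∀ a ∈ setA M L k j, a = Pi.single j 1 ∨
      ∃ i, j ≠ i ∧ ∃ x < k j i, a = pt M L j i x := by
    intro a ha
    rw [setA, mem_insert, mem_biUnion] at ha
    rcases ha with ha | ⟨i, hi, ha⟩
    · exact Or.inl ha
    · rw [mem_image] at ha
      obtain ⟨x, hx, rfl⟩ := ha
      exact Or.inr ⟨i, (mem_filter.1 hi).2.symm, x, mem_range.1 hx, rfl⟩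
  have hval : ∀ i, j ≠ i → ∀ x x' : ℕ, dot (wg i (qv M j x)) (pt M L j i x') =
      wg i (qv M j x) j - L * dot (wg i (qv M j x)) (om i) - (x : ℚ) ^ 2 +
        ((x' : ℚ) - x) ^ 2 := by
    intro i hji x x'
    have hMj : (M j : ℚ) ≠ 0 := by exact_mod_cast (hM j).ne'
    rw [dot_pt, dot_wg_uU hd i j hji, dot_vV, sum_wg hd]
    simp only [qv, if_true]
    field_simp
    ring
  have hinj : ∀ i, j ≠ i → Function.Injective (pt M L j i) := by
    intro i hji x x' h
    have e1 := hval i hji x x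
    have e2 := hval i hji x x'
    rw [← h, e1] at e2
    have e3 : ((x' : ℚ) - x) ^ 2 = 0 := by linarith
    have e4 : (x' : ℚ) = x := by
      rw [pow_eq_zero_iff two_ne_zero, sub_eq_zero] at e3
      exact e3
    exact_mod_cast e4.symm
  have hthird : ∀ a ∈ setA M L k j, a ≠ Pi.single j 1 →
      dot (fun _ => (1 : ℚ)) (Pi.single j 1) < dot (fun _ => (1 : ℚ)) a := by
    intro a ha hne
    rcases hmem a ha with h | ⟨i, hji, x, hx, rfl⟩
    · exact absurd h hne
    · rw [hone]
      exact h4 i hji x hx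
  refine ⟨?_, ?_, hthird⟩
  · rw [setA, card_insert_of_notMem, card_biUnion, add_comm]
    · congr 1
      refine sum_congr rfl fun i hi => ?_
      rw [card_image_of_injective _ (hinj i (mem_filter.1 hi).2.symm), card_range]
    · intro i hi i' hi' hii'
      change Disjoint (image (pt M L j i) (range (k j i))) (image (pt M L j i') (range (k j i')))
      rw [disjoint_left]
      intro a ha ha'
      rw [mem_image] at ha ha'
      obtain ⟨x, hx, rfl⟩ := ha
      obtain ⟨x', hx', h⟩ := ha'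
      have := h2 i (mem_filter.1 (mem_coe.1 hi)).2.symm x (mem_range.1 hx) x (mem_range.1 hx) i'
        hii'.symm (mem_filter.1 (mem_coe.1 hi')).2 x' (mem_range.1 hx')
      rw [h] at this
      exact lt_irrefl _ this
    · intro hmm
      rw [mem_biUnion] at hmm
      obtain ⟨i, hi, ha⟩ := hmm
      rw [mem_image] at ha
      obtain ⟨x, hx, h⟩ := ha
      have := h4 i (mem_filter.1 hi).2.symm x (mem_range.1 hx)
      rw [h, hone] at this
      exact lt_irrefl _ this
  · intro a ha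
    rcases hmem a ha with rfl | ⟨i, hji, x, hx, rfl⟩
    · exact ⟨fun _ => 1, hthird⟩
    · exact ⟨wg i (qv M j x), minset_vertex hd M hM L k i j hji x hx (h1 i hji x hx)
        (h2 i hji x hx)⟩

/-- The free polytope. PROOF. Take `w` with `w_0 = 1`, `w_1 = 2x/A - 1`, all others `0`; then
`∑ w = 2x/A` and `dot w (pt0 d A x') = -(1 + x' A) * 2x/A + x'^2 = const + (x' - x)²`. The points
are different because the values are. -/
theorem set0_vertices {d : ℕ} (hd : 2 ≤ d) (A : ℤ) (hA : 0 < A) (v : ℕ) :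
    (set0 d A v).card = v ∧
    ∀ a ∈ set0 d A v, ∃ w : Fin d → ℚ, ∀ a' ∈ set0 d A v, a' ≠ a → dot w a < dot w a' := by
  have hA' : (A : ℚ) ≠ 0 := by exact_mod_cast hA.ne'
  have hval : ∀ x : ℕ, ∃ w : Fin d → ℚ, ∀ x' : ℕ,
      dot w (pt0 d A x') = dot w (pt0 d A x) + ((x' : ℚ) - x) ^ 2 := by
    intro x
    refine ⟨Pi.single ⟨0, by omega⟩ 1 + Pi.single ⟨1, by omega⟩ ((2 * (x : ℚ) / (A : ℚ) - 1 : ℚ)), fun x' => ?_⟩
    have hs : ∑ l, ((Pi.single ⟨0, by omega⟩ 1 + Pi.single ⟨1, by omega⟩ ((2 * (x : ℚ) / (A : ℚ) - 1 : ℚ)) :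
        Fin d → ℚ)) l = 2 * (x : ℚ) / (A : ℚ) := by
      simp only [Pi.add_apply, sum_add_distrib, sum_pi_single', mem_univ, if_true]
      ring
    have h0 : ((Pi.single ⟨0, by omega⟩ 1 + Pi.single ⟨1, by omega⟩ ((2 * (x : ℚ) / (A : ℚ) - 1 : ℚ)) :
        Fin d → ℚ)) ⟨0, by omega⟩ = 1 := by
      rw [Pi.add_apply, Pi.single_eq_same, Pi.single_eq_of_ne, add_zero]
      intro h
      exact absurd (congrArg Fin.val h) (by simp)
    rw [dot_pt0 hd, dot_pt0 hd, hs, h0]
    field_simp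
    ring
  have hinj : Function.Injective (pt0 d A) := by
    intro x x' h
    obtain ⟨w, hw⟩ := hval x
    have e2 := hw x'
    rw [← h] at e2
    have e3 : ((x' : ℚ) - x) ^ 2 = 0 := by linarith
    have e4 : (x' : ℚ) = x := by
      rw [pow_eq_zero_iff two_ne_zero, sub_eq_zero] at e3
      exact e3
    exact_mod_cast e4.symm
  refine ⟨?_, ?_⟩
  · rw [set0, card_image_of_injective _ hinj, card_range]
  · intro a ha
    rw [set0, mem_image] at ha
    obtain ⟨x, _, rfl⟩ := ha
    obtain ⟨w, hw⟩ := hval x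
    refine ⟨w, fun a' ha' hne => ?_⟩
    rw [set0, mem_image] at ha'
    obtain ⟨x', _, rfl⟩ := ha'
    rw [hw x']
    have hxx : (x' : ℚ) - x ≠ 0 := by
      intro h
      apply hne
      have : (x' : ℚ) = x := sub_eq_zero.1 h
      have h' : x' = x := by exact_mod_cast this
      rw [h']
    have := pow_pos (abs_pos.2 hxx) 2
    rw [sq_abs] at this
    linarith

end Pool.Agent.Lib.MP_4e7804_co
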