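import Mathlib
import Pool.Agent.Lib.MP_4e7804_co.Defs

/-! MP_4e7804_co, lower bound for all n, module NumV. -/

set_option autoImplicit false

open Finset

namespace Pool.Agent.Lib.MP_4e7804_co

theorem NumV_val {d : ℕ} (w : Fin d → ℚ) (p : Fin d → ℤ) :
    ∑ k, (w k : ℝ) * toReal p k = ((dot w p : ℚ) : ℝ) := by
  unfold dot toReal
  push_cast
  rfl

theorem NumV_lin {d : ℕ} (w : Fin d → ℚ) (x y : Fin d → ℝ) (s t : ℝ) :
    ∑ k, (w k : ℝ) * (s • x + t • y) k =
      s * ∑ k, (w k : ℝ) * x k + t * ∑ k, (w k : ℝ) * y k := by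
  rw [Finset.mul_sum, Finset.mul_sum, ← Finset.sum_add_distrib]
  refine Finset.sum_congr rfl fun k _ => ?_
  simp only [Pi.add_apply, Pi.smul_apply, smul_eq_mul]
  ring

theorem NumV_hull {d : ℕ} (A : Finset (Fin d → ℤ)) (a : Fin d → ℤ) (w : Fin d → ℚ)
    (h : ∀ a' ∈ A, a' ≠ a → dot w a < dot w a') (y : Fin d → ℝ)
    (hy : y ∈ convexHull ℝ (toReal '' (A : Set (Fin d → ℤ)))) :
    ((dot w a : ℚ) : ℝ) < ∑ k, (w k : ℝ) * y k ∨ y = toReal a := by
  have hT : Convex ℝ {y : Fin d → ℝ | ((dot w a : ℚ) : ℝ) < ∑ k, (w k : ℝ) * y k ∨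
      y = toReal a} := by
    intro x hx y hy s t hs ht hst
    rcases hs.eq_or_lt with hs0 | hs0
    · have h1 : t = 1 := by linarith
      rw [← hs0, h1, zero_smul, one_smul, zero_add]
      exact hy
    rcases ht.eq_or_lt with ht0 | ht0
    · have h1 : s = 1 := by linarith
      rw [← ht0, h1, zero_smul, one_smul, add_zero]
      exact hx
    have hc : s * ((dot w a : ℚ) : ℝ) + t * ((dot w a : ℚ) : ℝ) = ((dot w a : ℚ) : ℝ) := by
      rw [← add_mul, hst, one_mul]
    rcases hx with hx | hx
    · left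
      rw [NumV_lin]
      have h1 := mul_lt_mul_of_pos_left hx hs0
      rcases hy with hy | hy
      · have h2 := mul_lt_mul_of_pos_left hy ht0
        linarith
      · rw [hy, NumV_val]
        linarith
    · rcases hy with hy | hy
      · left
        rw [NumV_lin, hx, NumV_val]
        have h2 := mul_lt_mul_of_pos_left hy ht0
        linarith
      · right
        rw [hx, hy, ← add_smul, hst, one_smul]
  refine (convexHull_min ?_ hT) hy
  rintro _ ⟨a', ha', rfl⟩
  by_cases haa : a' = a
  · right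
    rw [haa]
  · left
    rw [NumV_val]
    exact_mod_cast h a' ha' haa

/-- B2, second lemma (it is the main step of the first one). -/
theorem toReal_mem_extremePoints {d : ℕ} (A : Finset (Fin d → ℤ)) (a : Fin d → ℤ) (ha : a ∈ A)
    (h : ∃ w : Fin d → ℚ, ∀ a' ∈ A, a' ≠ a → dot w a < dot w a') :
    toReal a ∈ (convexHull ℝ (toReal '' (A : Set (Fin d → ℤ)))).extremePoints ℝ := by
  obtain ⟨w, hw⟩ := h
  rw [mem_extremePoints]
  refine ⟨subset_convexHull ℝ _ ⟨a, ha, rfl⟩, fun x hx y hy hxy => ?_⟩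
  obtain ⟨s, t, hs, ht, hst, hsum⟩ := hxy
  have h1 := NumV_lin w x y s t
  rw [hsum, NumV_val] at h1
  have hc : s * ((dot w a : ℚ) : ℝ) + t * ((dot w a : ℚ) : ℝ) = ((dot w a : ℚ) : ℝ) := by
    rw [← add_mul, hst, one_mul]
  rcases NumV_hull A a w hw x hx with hx' | hx'
  · exfalso
    have h2 := mul_lt_mul_of_pos_left hx' hs
    rcases NumV_hull A a w hw y hy with hy' | hy'
    · have h3 := mul_lt_mul_of_pos_left hy' ht
      linarith
    · rw [hy', NumV_val] at h1
      linarith
  · rcases NumV_hull A a w hw y hy with hy' | hy'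
    · exfalso
      have h3 := mul_lt_mul_of_pos_left hy' ht
      rw [hx', NumV_val] at h1
      linarith
    · exact ⟨hx', hy'⟩

theorem NumV_inj {d : ℕ} : Function.Injective (toReal : (Fin d → ℤ) → Fin d → ℝ) := by
  intro p q h
  funext k
  have h1 : (p k : ℝ) = q k := congrFun h k
  exact_mod_cast h1

/-- TASK B2 (file Lo/NumV.lean), 60 lines.
PROOF. `extremePoints (convexHull S) ⊆ S` (`extremePoints_convexHull_subset`), and each `toReal a`
is an extreme point of the hull: if `a = θ x + (1 - θ) y` with `x, y` in the hull then both have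
`∑ w k * x k = dot w a` (since `∑ w k * x k ≥ dot w a` on the hull), and the only point of the hull
with `∑ w k * x k = dot w a` is `toReal a` (write `x = ∑ λ_a' a'`, as in `dot_lt_of_unique`). So
the set of extreme points is `toReal '' A`; `toReal` is injective; `Set.ncard_image_of_injective`,
`Set.ncard_coe_finset`. -/
theorem numVertices_hull {d : ℕ} (A : Finset (Fin d → ℤ))
    (h : ∀ a ∈ A, ∃ w : Fin d → ℚ, ∀ a' ∈ A, a' ≠ a → dot w a < dot w a') :
    numVertices (convexHull ℝ (toReal '' (A : Set (Fin d → ℤ)))) = A.card := by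
  have h1 : (convexHull ℝ (toReal '' (A : Set (Fin d → ℤ)))).extremePoints ℝ =
      toReal '' (A : Set (Fin d → ℤ)) := by
    apply Set.Subset.antisymm extremePoints_convexHull_subset
    rintro _ ⟨a, ha, rfl⟩
    exact toReal_mem_extremePoints A a ha (h a ha)
  unfold numVertices
  rw [h1, Set.ncard_image_of_injective _ NumV_inj, Set.ncard_coe_finset]

end Pool.Agent.Lib.MP_4e7804_co
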