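import Mathlib
import Pool.Agent.Lib.MP_4e7804_co.Defs

/-! MP_4e7804_co, lower bound for all n, module Hull. -/

set_option autoImplicit false

open Finset

namespace Pool.Agent.Lib.MP_4e7804_co

theorem latticePoints_hull_finite {d : ℕ} (A : Finset (Fin d → ℤ)) :
    (latticePoints (convexHull ℝ (toReal '' (A : Set (Fin d → ℤ))))).Finite := by
  set K : ℤ := ∑ a ∈ A, ∑ k, |a k| with hK
  have hsub : latticePoints (convexHull ℝ (toReal '' (A : Set (Fin d → ℤ)))) ⊆
      Set.Icc (fun _ : Fin d => -K) (fun _ => K) := by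
    intro p hp
    have h1 : convexHull ℝ (toReal '' (A : Set (Fin d → ℤ))) ⊆
        Set.Icc (fun _ : Fin d => (-(K : ℝ))) (fun _ => (K : ℝ)) := by
      refine convexHull_min ?_ (convex_Icc _ _)
      rintro _ ⟨a, ha, rfl⟩
      have h2 : ∀ k, |a k| ≤ K := by
        intro k
        calc |a k| ≤ ∑ k, |a k| :=
              single_le_sum (f := fun k => |a k|) (fun _ _ => abs_nonneg _) (mem_univ k)
          _ ≤ K := single_le_sum (f := fun a : Fin d → ℤ => ∑ k, |a k|)
              (fun _ _ => sum_nonneg fun _ _ => abs_nonneg _) (mem_coe.1 ha)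
      refine ⟨fun k => ?_, fun k => ?_⟩
      · have := (abs_le.1 (h2 k)).1
        simp only [toReal]
        exact_mod_cast this
      · have := (abs_le.1 (h2 k)).2
        simp only [toReal]
        exact_mod_cast this
    have h3 := h1 hp
    refine ⟨fun k => ?_, fun k => ?_⟩
    · have := h3.1 k
      simp only [toReal] at this
      exact_mod_cast this
    · have := h3.2 k
      simp only [toReal] at this
      exact_mod_cast this
  exact (Set.finite_Icc _ _).subset hsub

theorem subset_latticePoints_hull {d : ℕ} (A : Finset (Fin d → ℤ)) {p : Fin d → ℤ} (hp : p ∈ A) :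
    p ∈ latticePoints (convexHull ℝ (toReal '' (A : Set (Fin d → ℤ)))) :=
  subset_convexHull ℝ _ ⟨p, mem_coe.2 hp, rfl⟩

/-- An open half space together with a convex part of its boundary is convex. -/
theorem hull_convex_union {d : ℕ} (w : Fin d → ℝ) (c : ℝ) (C : Set (Fin d → ℝ))
    (hC : Convex ℝ C) (hCc : ∀ x ∈ C, ∑ k, w k * x k = c) :
    Convex ℝ {x : Fin d → ℝ | c < ∑ k, w k * x k ∨ x ∈ C} := by
  intro x hx y hy α β hα hβ hαβ
  have hlin : ∑ k, w k * (α • x + β • y) k =
      α * ∑ k, w k * x k + β * ∑ k, w k * y k := by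
    rw [mul_sum, mul_sum, ← sum_add_distrib]
    refine sum_congr rfl fun k _ => ?_
    simp only [Pi.add_apply, Pi.smul_apply, smul_eq_mul]
    ring
  have hxc : c ≤ ∑ k, w k * x k := by
    rcases hx with hx | hx
    · exact hx.le
    · exact (hCc x hx).ge
  have hyc : c ≤ ∑ k, w k * y k := by
    rcases hy with hy | hy
    · exact hy.le
    · exact (hCc y hy).ge
  rcases hα.eq_or_lt with h0 | h0
  · subst h0
    have : β = 1 := by linarith
    subst this
    simpa using hy
  rcases hβ.eq_or_lt with h1 | h1
  · subst h1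
    have : α = 1 := by linarith
    subst this
    simpa using hx
  by_cases hxC : x ∈ C
  · by_cases hyC : y ∈ C
    · exact Or.inr (hC hxC hyC hα hβ hαβ)
    · left
      have hy' : c < ∑ k, w k * y k := hy.resolve_right hyC
      rw [hlin]
      have e : c = α * c + β * c := by rw [← add_mul, hαβ, one_mul]
      linarith [mul_lt_mul_of_pos_left hy' h1, mul_le_mul_of_nonneg_left hxc hα]
  · left
    have hx' : c < ∑ k, w k * x k := hx.resolve_right hxC
    rw [hlin]
    have e : c = α * c + β * c := by rw [← add_mul, hαβ, one_mul]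
    linarith [mul_lt_mul_of_pos_left hx' h0, mul_le_mul_of_nonneg_left hyc hβ]

theorem hull_dot_cast {d : ℕ} (w : Fin d → ℚ) (p : Fin d → ℤ) :
    ((dot w p : ℚ) : ℝ) = ∑ k, (w k : ℝ) * toReal p k := by
  simp [dot, toReal]

theorem hull_toReal_inj {d : ℕ} {p q : Fin d → ℤ} (h : toReal p = toReal q) : p = q := by
  funext k
  have := congrFun h k
  simp only [toReal] at this
  exact_mod_cast this

/-- B1: the only lattice point of the hull with minimal value is `a`, if `a` is the only
minimizer in `A`. -/
theorem dot_lt_of_unique {d : ℕ} (A : Finset (Fin d → ℤ)) (w : Fin d → ℚ) (a : Fin d → ℤ)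
    (ha : a ∈ A) (hmin : ∀ a' ∈ A, a' ≠ a → dot w a < dot w a') (p : Fin d → ℤ)
    (hp : p ∈ latticePoints (convexHull ℝ (toReal '' (A : Set (Fin d → ℤ))))) (hpa : p ≠ a) :
    dot w a < dot w p := by
  have hconv := hull_convex_union (fun k => (w k : ℝ)) ((dot w a : ℚ) : ℝ) {toReal a}
    (convex_singleton _) (by
      intro x hx
      rw [Set.mem_singleton_iff] at hx
      subst hx
      exact (hull_dot_cast w a).symm)
  have hsub := convexHull_min (s := toReal '' (A : Set (Fin d → ℤ))) ?_ hconv
  · rcases hsub hp with h | h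
    · rw [← hull_dot_cast] at h
      exact_mod_cast h
    · exact absurd (hull_toReal_inj h) hpa
  · rintro _ ⟨a', ha', rfl⟩
    by_cases h : a' = a
    · right
      rw [h]
      exact Set.mem_singleton _
    · left
      rw [← hull_dot_cast]
      exact_mod_cast hmin a' (mem_coe.1 ha') h

/-- B1: the edge version. `hprim`: the edge `[a, b]` contains no other lattice points. -/
theorem dot_lt_of_edge {d : ℕ} (A : Finset (Fin d → ℤ)) (w : Fin d → ℚ) (a b : Fin d → ℤ)
    (ha : a ∈ A) (hb : b ∈ A) (hab : dot w a = dot w b)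
    (hmin : ∀ a' ∈ A, a' ≠ a → a' ≠ b → dot w a < dot w a')
    (hprim : ∀ θ : ℝ, (∀ k, ∃ z : ℤ, θ * ((b k : ℝ) - a k) = z) → ∃ z : ℤ, θ = z)
    (p : Fin d → ℤ)
    (hp : p ∈ latticePoints (convexHull ℝ (toReal '' (A : Set (Fin d → ℤ)))))
    (hpa : p ≠ a) (hpb : p ≠ b) :
    dot w a < dot w p := by
  have hseg : ∀ x ∈ segment ℝ (toReal a) (toReal b),
      ∃ θ : ℝ, 0 ≤ θ ∧ θ ≤ 1 ∧ ∀ k, x k = a k + θ * ((b k : ℝ) - a k) := by
    rintro x ⟨α, β, hα, hβ, hαβ, rfl⟩
    refine ⟨β, hβ, by linarith, fun k => ?_⟩
    simp only [toReal, Pi.add_apply, Pi.smul_apply, smul_eq_mul]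
    have : α = 1 - β := by linarith
    rw [this]
    ring
  have hconv := hull_convex_union (fun k => (w k : ℝ)) ((dot w a : ℚ) : ℝ)
    (segment ℝ (toReal a) (toReal b)) (convex_segment _ _) (by
      intro x hx
      obtain ⟨θ, _, _, h3⟩ := hseg x hx
      have e1 : ∑ k, (w k : ℝ) * x k = ∑ k, (w k : ℝ) * toReal a k +
          θ * (∑ k, (w k : ℝ) * toReal b k - ∑ k, (w k : ℝ) * toReal a k) := by
        rw [← sum_sub_distrib, mul_sum, ← sum_add_distrib]
        refine sum_congr rfl fun k _ => ?_
        rw [h3 k]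
        simp only [toReal]
        ring
      rw [e1, ← hull_dot_cast, ← hull_dot_cast, hab]
      ring)
  have hsub := convexHull_min (s := toReal '' (A : Set (Fin d → ℤ))) ?_ hconv
  · rcases hsub hp with h | h
    · rw [← hull_dot_cast] at h
      exact_mod_cast h
    · exfalso
      obtain ⟨θ, h1, h2, h3⟩ := hseg _ h
      obtain ⟨z, hz⟩ := hprim θ (fun k => ⟨p k - a k, by
        have := h3 k
        simp only [toReal] at this
        push_cast
        linarith⟩)
      have hz0 : 0 ≤ z := by
        rw [hz] at h1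
        exact_mod_cast h1
      have hz1 : z ≤ 1 := by
        rw [hz] at h2
        exact_mod_cast h2
      have hz2 : z = 0 ∨ z = 1 := by omega
      rcases hz2 with rfl | rfl
      · apply hpa
        funext k
        have := h3 k
        rw [hz] at this
        simp only [toReal, Int.cast_zero, zero_mul, add_zero] at this
        exact_mod_cast this
      · apply hpb
        funext k
        have := h3 k
        rw [hz] at this
        simp only [toReal, Int.cast_one, one_mul, add_sub_cancel] at this
        exact_mod_cast this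
  · rintro _ ⟨a', ha', rfl⟩
    by_cases h : a' = a
    · right
      rw [h]
      exact left_mem_segment ℝ _ _
    · by_cases h' : a' = b
      · right
        rw [h']
        exact right_mem_segment ℝ _ _
      · left
        rw [← hull_dot_cast]
        exact_mod_cast hmin a' (mem_coe.1 ha') h h'

end Pool.Agent.Lib.MP_4e7804_co
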