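import Mathlib

/-! MP_4e7804_co, lower bound for all n, module Height. -/

set_option autoImplicit false

open Finset

namespace Pool.Agent.Lib.MP_4e7804_co

/-- TASK D3 (file Lo/Height.lean), 80 lines: a nonzero prime ideal of `R[X]` which meets `R` in
zero is principal, `R` a UFD.
PROOF. `Ideal.IsPrime.exists_mem_prime_of_ne_bot` gives a prime element `F ∈ I`. `F` is not a
constant (else it is a nonzero element of `R` in `I`), so it is primitive
(`Irreducible.isPrimitive`) and irreducible over the fraction field `K` of `R`
(`Polynomial.IsPrimitive.irreducible_iff_irreducible_map_fraction_map`, which may ask for a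
`NormalizedGCDMonoid` instance: `UniqueFactorizationMonoid.toGCDMonoid` etc. locally). Let `G ∈ I`.
If `F` does not divide `G` in `R[X]`, then not in `K[X]`
(`IsPrimitive.dvd_of_fraction_map_dvd_fraction_map`; the version where only `F` is primitive:
clear denominators, `C r * G = F * Q` and `F` prime, `F ∤ C r`), so over `K` they are coprime:
`a F + b G = 1`; clearing denominators (`IsLocalization.integerNormalization` or
`Polynomial.…`), `a' F + b' G = C r` with `r ≠ 0` in `R`, so `C r ∈ I`, contradiction. -/
theorem principal_of_prime {R : Type*} [CommRing R] [IsDomain R] [UniqueFactorizationMonoid R]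
    (I : Ideal (Polynomial R)) (hI : I.IsPrime) (h0 : I ≠ ⊥)
    (hC : ∀ r : R, Polynomial.C r ∈ I → r = 0) :
    ∃ F : Polynomial R, Prime F ∧ I = Ideal.span {F} := by
  obtain ⟨F, hF, hp⟩ := hI.exists_mem_prime_of_ne_bot h0
  refine ⟨F, hp, le_antisymm ?_ ?_⟩
  swap
  · rw [Ideal.span_le, Set.singleton_subset_iff]
    exact hF
  have hd : F.natDegree ≠ 0 := by
    intro h
    rw [Polynomial.natDegree_eq_zero] at h
    obtain ⟨r, rfl⟩ := h
    exact hp.ne_zero (by rw [hC r hF, map_zero])
  have hprim : F.IsPrimitive := hp.irreducible.isPrimitive hd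
  have hirr : Irreducible (F.map (algebraMap R (FractionRing R))) :=
    (hprim.irreducible_iff_irreducible_map_fraction_map (K := FractionRing R)).1 hp.irreducible
  intro G hG
  rw [Ideal.mem_span_singleton]
  apply hprim.dvd_of_fraction_map_dvd_fraction_map (K := FractionRing R)
  by_contra hn
  obtain ⟨a, b, hab⟩ := (hirr.coprime_iff_not_dvd).2 hn
  obtain ⟨c, hc0, hc⟩ := IsLocalization.integerNormalization_spec (nonZeroDivisors R) a
  obtain ⟨d, hd0, hd⟩ := IsLocalization.integerNormalization_spec (nonZeroDivisors R) b
  rw [mem_nonZeroDivisors_iff_ne_zero] at hc0 hd0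
  rw [Algebra.smul_def, Polynomial.algebraMap_apply] at hc hd
  have h1 : Polynomial.C (c * d) =
      Polynomial.C d * IsLocalization.integerNormalization (nonZeroDivisors R) a * F +
        Polynomial.C c * IsLocalization.integerNormalization (nonZeroDivisors R) b * G := by
    apply Polynomial.map_injective (algebraMap R (FractionRing R)) (IsFractionRing.injective _ _)
    rw [Polynomial.map_add, Polynomial.map_mul, Polynomial.map_mul, Polynomial.map_mul,
      Polynomial.map_mul, hc, hd, Polynomial.map_C, Polynomial.map_C, Polynomial.map_C, map_mul,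
      Polynomial.C_mul]
    linear_combination (-(Polynomial.C (algebraMap R (FractionRing R) c) *
      Polynomial.C (algebraMap R (FractionRing R) d))) * hab
  have h2 : Polynomial.C (c * d) ∈ I := by
    rw [h1]
    exact I.add_mem (I.mul_mem_left _ hF) (I.mul_mem_left _ hG)
  exact mul_ne_zero hc0 hd0 (hC _ h2)

end Pool.Agent.Lib.MP_4e7804_co
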