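import Mathlib
import Pool.Agent.Lib.MP_4e7804_co.Defs

/-! MP_4e7804_co, lower bound for all n, module Relation. -/

set_option autoImplicit false

open Finset

namespace Pool.Agent.Lib.MP_4e7804_co

/-- the monomial functions -/
noncomputable def relationMon {d : ℕ} (p : Fin d → ℤ) : (Fin d → ℂˣ) → ℂ := fun t => mono t p

theorem relation_mon_mul {d : ℕ} (p q : Fin d → ℤ) :
    relationMon p * relationMon q = relationMon (p + q) := by
  funext t
  simp only [relationMon, mono, Pi.mul_apply, Pi.add_apply]
  rw [← Finset.prod_mul_distrib]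
  refine Finset.prod_congr rfl (fun k _ => ?_)
  rw [zpow_add, Units.val_mul]

/-- the box -/
noncomputable def relationBox (d N : ℕ) : Finset (Fin d → ℤ) :=
  Fintype.piFinset (fun _ => Finset.Icc (-(N : ℤ)) (N : ℤ))

/-- the span of the monomials of a box -/
noncomputable def relationW (d N : ℕ) : Submodule ℂ ((Fin d → ℂˣ) → ℂ) :=
  Submodule.span ℂ (relationMon '' (relationBox d N : Set (Fin d → ℤ)))

theorem relation_mem_box {d N : ℕ} {p : Fin d → ℤ} :
    p ∈ relationBox d N ↔ ∀ k, -(N : ℤ) ≤ p k ∧ p k ≤ (N : ℤ) := by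
  simp [relationBox, Fintype.mem_piFinset]

theorem relation_mon_mem {d N : ℕ} {p : Fin d → ℤ} (h : ∀ k, -(N : ℤ) ≤ p k ∧ p k ≤ (N : ℤ)) :
    relationMon p ∈ relationW d N := by
  apply Submodule.subset_span
  exact ⟨p, Finset.mem_coe.2 (relation_mem_box.2 h), rfl⟩

theorem relation_mul_mem {d N M : ℕ} {f g : (Fin d → ℂˣ) → ℂ} (hf : f ∈ relationW d N)
    (hg : g ∈ relationW d M) : f * g ∈ relationW d (N + M) := by
  have h1 : f * g ∈ relationW d N * relationW d M := Submodule.mul_mem_mul hf hg
  have h2 : relationW d N * relationW d M ≤ relationW d (N + M) := by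
    unfold relationW
    rw [Submodule.span_mul_span, Submodule.span_le]
    rintro x hx
    rw [Set.mem_mul] at hx
    obtain ⟨a, ha, b, hb, rfl⟩ := hx
    obtain ⟨p, hp, rfl⟩ := ha
    obtain ⟨q, hq, rfl⟩ := hb
    rw [relation_mon_mul]
    rw [Finset.mem_coe, relation_mem_box] at hp hq
    apply relation_mon_mem
    intro k
    have h3 := hp k
    have h4 := hq k
    push_cast
    simp only [Pi.add_apply]
    constructor <;> linarith [h3.1, h3.2, h4.1, h4.2]
  exact h2 h1

theorem relation_mono {d N M : ℕ} (h : N ≤ M) : relationW d N ≤ relationW d M := by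
  unfold relationW
  rw [Submodule.span_le]
  intro x hx
  obtain ⟨p, hp, rfl⟩ := hx
  rw [Finset.mem_coe, relation_mem_box] at hp
  apply relation_mon_mem
  intro k
  have h3 := hp k
  have h5 : (N : ℤ) ≤ (M : ℤ) := by exact_mod_cast h
  constructor <;> linarith [h3.1, h3.2]

theorem relation_one_mem (d N : ℕ) : (1 : (Fin d → ℂˣ) → ℂ) ∈ relationW d N := by
  have h : (1 : (Fin d → ℂˣ) → ℂ) = relationMon 0 := by
    funext t
    simp [relationMon, mono]
  rw [h]
  apply relation_mon_mem
  intro k
  simp

theorem relation_pow_mem {d N : ℕ} {f : (Fin d → ℂˣ) → ℂ} (hf : f ∈ relationW d N) (a : ℕ) :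
    f ^ a ∈ relationW d (a * N) := by
  induction a with
  | zero => simpa using relation_one_mem d 0
  | succ a ih =>
    rw [pow_succ, Nat.succ_mul]
    exact relation_mul_mem ih hf

theorem relation_prod_mem {d N : ℕ} {ι : Type} (s : Finset ι) (F : ι → (Fin d → ℂˣ) → ℂ)
    (hF : ∀ i ∈ s, F i ∈ relationW d N) : ∏ i ∈ s, F i ∈ relationW d (s.card * N) := by
  classical
  induction s using Finset.induction_on with
  | empty => simpa using relation_one_mem d 0
  | insert i s hi ih =>
    rw [Finset.prod_insert hi, Finset.card_insert_of_notMem hi, Nat.succ_mul, Nat.add_comm]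
    exact relation_mul_mem (hF i (Finset.mem_insert_self i s))
      (ih (fun j hj => hF j (Finset.mem_insert_of_mem hj)))

theorem relation_card_box (d N : ℕ) : (relationBox d N).card = (2 * N + 1) ^ d := by
  unfold relationBox
  rw [Fintype.card_piFinset]
  simp only [Int.card_Icc, Finset.prod_const, Finset.card_univ, Fintype.card_fin]
  congr 1
  omega

theorem relation_eval_mem {d : ℕ} (P : Fin (d + 1) → Set (Fin d → ℝ))
    (hfin : ∀ i, (latticePoints (P i)).Finite) (c : Fin (d + 1) → (Fin d → ℤ) → ℂ) :
    ∃ K : ℕ, 1 ≤ K ∧ ∀ i, (fun t => evalAt P c t i) ∈ relationW d K := by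
  classical
  set T : Finset (Fin d → ℤ) := Finset.univ.biUnion (fun i => (hfin i).toFinset) with hT
  set K : ℕ := 1 + ∑ p ∈ T, ∑ k, (p k).natAbs with hK
  refine ⟨K, by omega, fun i => ?_⟩
  have h1 : (fun t => evalAt P c t i) =
      ∑ p ∈ (hfin i).toFinset, c i p • relationMon p := by
    funext t
    simp only [evalAt]
    rw [finsum_mem_eq_finite_toFinset_sum _ (hfin i)]
    simp [relationMon, Finset.sum_apply]
  rw [h1]
  apply Submodule.sum_mem
  intro p hp
  apply Submodule.smul_mem
  apply relation_mon_mem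
  intro k
  have h2 : p ∈ T := Finset.mem_biUnion.2 ⟨i, Finset.mem_univ _, hp⟩
  have h3 : (p k).natAbs ≤ ∑ k, (p k).natAbs :=
    Finset.single_le_sum (f := fun k => (p k).natAbs) (fun _ _ => Nat.zero_le _) (Finset.mem_univ k)
  have h4 : ∑ k, (p k).natAbs ≤ ∑ p ∈ T, ∑ k, (p k).natAbs :=
    Finset.single_le_sum (f := fun p : Fin d → ℤ => ∑ k, (p k).natAbs)
      (fun _ _ => Nat.zero_le _) h2
  have h5 : (p k).natAbs ≤ K := by omega
  omega

/-- TASK D2 (file Lo/Relation.lean), 120 lines: `n = d + 1` Laurent polynomials in `d` variables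
satisfy a polynomial relation.
PROOF (counting). Let all lattice points of all `P i` have coordinates in `[-K, K]`, `K ≥ 1`
(`hfin`). For `D ≥ 1` consider the `D^(d+1)` monomials `x^α`, `α i < D`; the function
`t ↦ ∏ i, (evalAt P c t i) ^ α i` is a linear combination of the functions `t ↦ mono t p` with
`p` in the box `[-N, N]^d`, `N = (d+1) * D * K` (products of Laurent polynomials with bounded
support; `mono t p * mono t q = mono t (p + q)`; prove by induction that the span `W N` of the
`mono · p`, `p ∈ [-N, N]^d`, satisfies `W N * W N' ⊆ W (N + N')`). The dimension of this span is at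
most `(2N + 1)^d ≤ (3 (d+1) K D)^d`, which is smaller than `D^(d+1)` for `D = (3 (d+1) K)^d + 1`. So
the `D^(d+1)` functions are linearly dependent (`LinearIndependent` would give
`Fintype.card ≤ finrank`, `linearIndependent_le_span_finset`, ...), and the coefficients of a
relation give `G`. -/
theorem exists_relation {d : ℕ} (P : Fin (d + 1) → Set (Fin d → ℝ))
    (hfin : ∀ i, (latticePoints (P i)).Finite) (c : Fin (d + 1) → (Fin d → ℤ) → ℂ) :
    ∃ G : MvPolynomial (Fin (d + 1)) ℂ, G ≠ 0 ∧
      ∀ t, MvPolynomial.eval (evalAt P c t) G = 0 := by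
  classical
  obtain ⟨K, hK1, hK⟩ := relation_eval_mem P hfin c
  set D : ℕ := (3 * (d + 1) * K) ^ d + 1 with hD
  set N : ℕ := (d + 1) * (D * K) with hN
  set f : Fin (d + 1) → (Fin d → ℂˣ) → ℂ := fun i t => evalAt P c t i with hf
  set v : (Fin (d + 1) → Fin D) → ((Fin d → ℂˣ) → ℂ) := fun α => ∏ i, f i ^ (α i : ℕ) with hv
  have hvW : ∀ α, v α ∈ relationW d N := by
    intro α
    have h1 := relation_prod_mem (d := d) (N := D * K) (Finset.univ : Finset (Fin (d + 1)))
      (fun i => f i ^ (α i : ℕ)) (fun i _ => relation_mono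
        (Nat.mul_le_mul_right K (le_of_lt (α i).2)) (relation_pow_mem (hK i) (α i : ℕ)))
    simpa [hN] using h1
  have hWeq : relationW d N = Submodule.span ℂ (((relationBox d N).image relationMon :
      Finset ((Fin d → ℂˣ) → ℂ)) : Set ((Fin d → ℂˣ) → ℂ)) := by
    unfold relationW
    rw [Finset.coe_image]
  have : Module.Finite ℂ (relationW d N) := by
    rw [hWeq]
    exact FiniteDimensional.span_finset ℂ _
  have hrank : Module.finrank ℂ (relationW d N) ≤ (2 * N + 1) ^ d := by
    calc Module.finrank ℂ (relationW d N) ≤ ((relationBox d N).image relationMon).card := by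
          rw [hWeq]
          exact finrank_span_finset_le_card _
      _ ≤ (relationBox d N).card := Finset.card_image_le
      _ = (2 * N + 1) ^ d := relation_card_box d N
  have hlt : (2 * N + 1) ^ d < D ^ (d + 1) := by
    have hD1 : 1 ≤ D := by omega
    have h1 : 2 * N + 1 ≤ (3 * (d + 1) * K) * D := by
      have h2 : 1 ≤ (d + 1) * (D * K) := by
        have h3 : 1 ≤ D * K := Nat.one_le_iff_ne_zero.2 (by positivity)
        nlinarith
      have h4 : (3 * (d + 1) * K) * D = 3 * ((d + 1) * (D * K)) := by ring
      rw [h4, hN]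
      omega
    calc (2 * N + 1) ^ d ≤ ((3 * (d + 1) * K) * D) ^ d := Nat.pow_le_pow_left h1 d
      _ = (3 * (d + 1) * K) ^ d * D ^ d := by rw [mul_pow]
      _ < D * D ^ d := by
          apply Nat.mul_lt_mul_of_pos_right
          · omega
          · positivity
      _ = D ^ (d + 1) := by rw [pow_succ]; ring
  have hnot : ¬ LinearIndependent ℂ v := by
    intro hli
    set v' : (Fin (d + 1) → Fin D) → relationW d N := fun α => ⟨v α, hvW α⟩ with hv'
    have hli' : LinearIndependent ℂ v' := by
      apply LinearIndependent.of_comp (relationW d N).subtype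
      exact hli
    have h1 := hli'.fintype_card_le_finrank
    simp only [Fintype.card_pi, Fintype.card_fin, Finset.prod_const, Finset.card_univ] at h1
    omega
  rw [Fintype.not_linearIndependent_iff] at hnot
  obtain ⟨g, hg, α0, hα0⟩ := hnot
  set e : (Fin (d + 1) → Fin D) → (Fin (d + 1) →₀ ℕ) :=
    fun α => Finsupp.equivFunOnFinite.symm (fun i => (α i : ℕ)) with he
  have hinj : Function.Injective e := by
    intro α β h
    funext i
    have h1 := DFunLike.congr_fun h i
    simp only [he, Finsupp.equivFunOnFinite_symm_apply_apply] at h1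
    exact Fin.ext h1
  refine ⟨∑ α, MvPolynomial.monomial (e α) (g α), ?_, fun t => ?_⟩
  · intro h0
    have h1 := congrArg (MvPolynomial.coeff (e α0)) h0
    rw [MvPolynomial.coeff_sum] at h1
    simp only [MvPolynomial.coeff_monomial, MvPolynomial.coeff_zero] at h1
    rw [Finset.sum_eq_single α0] at h1
    · simp at h1
      exact hα0 h1
    · intro β _ hβ
      rw [if_neg]
      intro h2
      exact hβ (hinj h2)
    · intro h2
      exact absurd (Finset.mem_univ _) h2
  · rw [map_sum]
    have h1 := congrFun hg t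
    simp only [Finset.sum_apply, Pi.smul_apply, Pi.zero_apply, smul_eq_mul, hv, Finset.prod_apply,
      Pi.pow_apply, hf] at h1
    rw [← h1]
    refine Finset.sum_congr rfl (fun α _ => ?_)
    rw [MvPolynomial.eval_monomial]
    congr 1
    rw [Finsupp.prod_fintype]
    · rfl
    · intro i
      simp

end Pool.Agent.Lib.MP_4e7804_co
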