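import Mathlib
import Pool.Agent.Lib.MP_4e7804_co.Lo.Prime
import Pool.Agent.Lib.MP_4e7804_co.Lo.Relation
import Pool.Agent.Lib.MP_4e7804_co.Lo.Height

/-! MP_4e7804_co, lower bound for all n, module Implicit. -/

set_option autoImplicit false

open Finset

namespace Pool.Agent.Lib.MP_4e7804_co

theorem Implicit_aeval {σ : Type*} (x : σ → ℂ) (G : MvPolynomial σ ℂ) :
    MvPolynomial.aeval x G = MvPolynomial.eval x G := by
  rw [← MvPolynomial.coe_aeval_eq_eval]; rfl

theorem Implicit_rename {d : ℕ} (r : MvPolynomial (Fin d) ℂ) :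
    MvPolynomial.finSuccEquiv ℂ d (MvPolynomial.rename Fin.succ r) = Polynomial.C r := by
  induction r using MvPolynomial.induction_on with
  | C a =>
    rw [MvPolynomial.rename_C]
    simp [MvPolynomial.finSuccEquiv_apply]
  | add p q hp hq => rw [map_add, map_add, hp, hq, map_add]
  | mul_X p i hp => rw [map_mul, map_mul, hp, MvPolynomial.rename_X,
      MvPolynomial.finSuccEquiv_X_succ, map_mul]

/-- TASK D4 (file Lo/Implicit.lean, imports D1, D2, D3), 80 lines: if `f_2, …, f_n` have no
polynomial relation then the implicit equation exists.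
PROOF. `I = MvPolynomial.vanishingIdeal ℂ (Set.range (evalAt P c))`; it is prime
(`relations_prime`; `1 ∉ I`), not zero (`exists_relation`). Transport to `Polynomial (MvPolynomial
(Fin d) ℂ)` by `MvPolynomial.finSuccEquiv ℂ d` (`X 0 ↦ X`, `X i.succ ↦ C (X i)`,
`finSuccEquiv_rename_finSuccSuccEquiv...`: the preimage of `C G` is `rename Fin.succ G`), apply
`principal_of_prime`, and go back: `I = span {F}` with `F` prime, hence irreducible; the equality
of the zero loci is then trivial. -/
theorem exists_implicit {d : ℕ} (P : Fin (d + 1) → Set (Fin d → ℝ))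
    (hfin : ∀ i, (latticePoints (P i)).Finite) (c : Fin (d + 1) → (Fin d → ℤ) → ℂ)
    (hind : ∀ G : MvPolynomial (Fin d) ℂ,
      (∀ t, MvPolynomial.eval (fun j => evalAt P c t (Fin.succ j)) G = 0) → G = 0) :
    ∃ F : MvPolynomial (Fin (d + 1)) ℂ, IsImplicitEq P c F := by
  set I : Ideal (MvPolynomial (Fin (d + 1)) ℂ) :=
    MvPolynomial.vanishingIdeal ℂ (Set.range (evalAt P c)) with hI
  have memI : ∀ G, G ∈ I ↔ ∀ t, MvPolynomial.eval (evalAt P c t) G = 0 := by
    intro G
    rw [hI, MvPolynomial.mem_vanishingIdeal_iff]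
    constructor
    · intro h t
      have := h _ (Set.mem_range_self t)
      rwa [Implicit_aeval] at this
    · rintro h x ⟨t, rfl⟩
      rw [Implicit_aeval]
      exact h t
  have hprime : I.IsPrime := by
    refine ⟨?_, ?_⟩
    · rw [Ideal.ne_top_iff_one, memI]
      intro h
      have := h 1
      rw [map_one] at this
      exact one_ne_zero this
    · intro G₁ G₂ h
      rw [memI] at h
      rw [memI, memI]
      exact relations_prime P hfin c G₁ G₂ h
  let e := MvPolynomial.finSuccEquiv ℂ d
  let I' : Ideal (Polynomial (MvPolynomial (Fin d) ℂ)) := I.comap e.symm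
  have memI' : ∀ G, G ∈ I' ↔ e.symm G ∈ I := fun G => Ideal.mem_comap
  have hI' : I'.IsPrime := Ideal.IsPrime.comap (hK := hprime) _
  have h0 : I' ≠ ⊥ := by
    obtain ⟨G, hG0, hG⟩ := exists_relation P hfin c
    intro hbot
    have h1 : e G ∈ I' := by
      rw [memI', AlgEquiv.symm_apply_apply, memI]
      exact hG
    rw [hbot, Ideal.mem_bot] at h1
    exact hG0 (by simpa using h1)
  obtain ⟨F', hF', hIF⟩ := principal_of_prime I' hI' h0 (by
    intro r hr
    rw [memI', ← Implicit_rename r, AlgEquiv.symm_apply_apply, memI] at hr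
    refine hind r fun t => ?_
    have := hr t
    rw [MvPolynomial.eval_rename] at this
    exact this)
  refine ⟨e.symm F', ?_, ?_⟩
  · exact ((MulEquiv.prime_iff e.symm.toRingEquiv.toMulEquiv).2 hF').irreducible
  · have hspan : I = Ideal.span {e.symm F'} := by
      ext G
      rw [Ideal.mem_span_singleton]
      have h1 : G ∈ I ↔ e G ∈ I' := by rw [memI', AlgEquiv.symm_apply_apply]
      rw [h1, hIF, Ideal.mem_span_singleton]
      constructor
      · rintro ⟨Q, hQ⟩
        refine ⟨e.symm Q, ?_⟩
        rw [← map_mul, ← hQ, AlgEquiv.symm_apply_apply]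
      · rintro ⟨Q, hQ⟩
        refine ⟨e Q, ?_⟩
        rw [hQ, map_mul, AlgEquiv.apply_symm_apply]
    rw [← hspan]

/-- TASK D4, second part: the implicit equation vanishes on the image. PROOF. The range is
contained in `zeroLocus (vanishingIdeal range) = zeroLocus (span {F})`. -/
theorem IsImplicitEq.eval_eq_zero {n d : ℕ} {P : Fin n → Set (Fin d → ℝ)}
    {c : Fin n → (Fin d → ℤ) → ℂ} {F : MvPolynomial (Fin n) ℂ} (h : IsImplicitEq P c F)
    (t : Fin d → ℂˣ) : MvPolynomial.eval (evalAt P c t) F = 0 := by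
  have h1 : evalAt P c t ∈ MvPolynomial.zeroLocus ℂ
      (MvPolynomial.vanishingIdeal ℂ (Set.range (evalAt P c))) := by
    rw [MvPolynomial.mem_zeroLocus_iff]
    intro p hp
    exact MvPolynomial.mem_vanishingIdeal_iff.1 hp _ (Set.mem_range_self t)
  rw [h.2, MvPolynomial.mem_zeroLocus_iff] at h1
  have h2 := h1 F (Ideal.mem_span_singleton_self F)
  rwa [Implicit_aeval] at h2

end Pool.Agent.Lib.MP_4e7804_co
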