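import Mathlib
import Pool.Agent.Lib.MP_4e7804_co.Defs

/-! MP_4e7804_co, lower bound for all n, module Tie. -/

set_option autoImplicit false

open Finset

namespace Pool.Agent.Lib.MP_4e7804_co

theorem Tie_prod {n : ℕ} (y : Fin n → ℝ) (D s : ℝ) (hs : 0 < s) (β : Fin n →₀ ℕ) :
    ∏ i, (D * s ^ y i) ^ β i = D ^ (∑ i, β i) * s ^ (∑ i, (β i : ℝ) * y i) := by
  rw [Real.rpow_sum_of_pos hs, ← Finset.prod_pow_eq_pow_sum, ← Finset.prod_mul_distrib]
  refine Finset.prod_congr rfl fun i _ => ?_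
  rw [mul_pow, ← Real.rpow_natCast (s ^ y i), ← Real.rpow_mul hs.le, mul_comm (y i)]

/-- TASK A3 (file Lo/Tie.lean), 80 lines.
PROOF. Suppose not: all `β ≠ α` in the support have `∑ β i * y i > μ := ∑ α i * y i`. Take `s ≤ 1`.
`‖coeff α F * ∏ x i ^ α i‖ ≥ ‖coeff α F‖ * (C⁻¹) ^ |α| * s ^ μ` and for `β ≠ α`
`‖coeff β F * ∏ x i ^ β i‖ ≤ ‖coeff β F‖ * C ^ |β| * s ^ (∑ β i * y i)`
`= ‖coeff β F‖ * C ^ |β| * s ^ μ * s ^ (positive)`, and `s ^ (positive) → 0` for `s → 0`. So for `s`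
small the sum over `β ≠ α` is smaller in norm than the `α` term, contradicting `eval x F = 0`
(`MvPolynomial.eval_eq'`). -/
theorem tie_of_arcs {n : ℕ} (F : MvPolynomial (Fin n) ℂ) (y : Fin n → ℝ) (C : ℝ) (hC : 0 < C)
    (harc : ∀ r : ℝ, 0 < r → ∃ s : ℝ, 0 < s ∧ s < r ∧ ∃ x : Fin n → ℂ,
      MvPolynomial.eval x F = 0 ∧ ∀ i, C⁻¹ * s ^ y i ≤ ‖x i‖ ∧ ‖x i‖ ≤ C * s ^ y i)
    (α : Fin n →₀ ℕ) (hα : α ∈ F.support) :
    ∃ β ∈ F.support, β ≠ α ∧ ∑ i, (β i : ℝ) * y i ≤ ∑ i, (α i : ℝ) * y i := by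
  classical
  by_contra hcon
  push Not at hcon
  set μ : ℝ := ∑ i, (α i : ℝ) * y i with hμ
  -- the comparison function
  have hlim : Filter.Tendsto (fun s : ℝ => ∑ β ∈ F.support.erase α,
      ‖F.coeff β‖ * C ^ (∑ i, β i) * s ^ (∑ i, (β i : ℝ) * y i - μ)) (nhds 0) (nhds 0) := by
    have h0 : (0 : ℝ) = ∑ β ∈ F.support.erase α, ‖F.coeff β‖ * C ^ (∑ i, β i) * 0 := by simp
    rw [h0]
    conv_lhs => rw [← h0]
    refine tendsto_finsetSum _ fun β hβ => ?_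
    refine Filter.Tendsto.const_mul _ ?_
    have hpos : 0 < ∑ i, (β i : ℝ) * y i - μ := by
      have := hcon β (Finset.mem_of_mem_erase hβ) (Finset.ne_of_mem_erase hβ)
      linarith
    have hc := Real.continuousAt_rpow_const 0 (∑ i, (β i : ℝ) * y i - μ) (Or.inr hpos.le)
    have h1 : (0 : ℝ) ^ (∑ i, (β i : ℝ) * y i - μ) = 0 := Real.zero_rpow hpos.ne'
    have h2 := hc.tendsto
    rw [h1] at h2
    exact h2
  have hε : 0 < ‖F.coeff α‖ * (C⁻¹) ^ (∑ i, α i) :=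
    mul_pos (norm_pos_iff.mpr (MvPolynomial.mem_support_iff.mp hα)) (pow_pos (inv_pos.mpr hC) _)
  obtain ⟨r, hr, hball⟩ := Metric.eventually_nhds_iff.mp (hlim.eventually (gt_mem_nhds hε))
  obtain ⟨s, hs0, hsr, x, hx, hb⟩ := harc r hr
  have hsmall := hball (show dist s 0 < r by
    rw [Real.dist_eq, sub_zero, abs_of_pos hs0]; exact hsr)
  -- split the evaluation
  have hsum : F.coeff α * ∏ i, x i ^ α i = - ∑ β ∈ F.support.erase α, F.coeff β * ∏ i, x i ^ β i := by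
    rw [MvPolynomial.eval_eq', ← Finset.add_sum_erase _ _ hα] at hx
    exact eq_neg_of_add_eq_zero_left hx
  have hlow : ‖F.coeff α‖ * ((C⁻¹) ^ (∑ i, α i) * s ^ μ) ≤ ‖F.coeff α * ∏ i, x i ^ α i‖ := by
    rw [norm_mul, norm_prod]
    refine mul_le_mul_of_nonneg_left ?_ (norm_nonneg _)
    rw [hμ, ← Tie_prod y _ s hs0 α]
    refine Finset.prod_le_prod (fun i _ => by positivity) fun i _ => ?_
    rw [norm_pow]
    exact pow_le_pow_left₀ (by positivity) (hb i).1 _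
  have hup : ‖F.coeff α * ∏ i, x i ^ α i‖ ≤ ∑ β ∈ F.support.erase α,
      ‖F.coeff β‖ * (C ^ (∑ i, β i) * s ^ (∑ i, (β i : ℝ) * y i)) := by
    rw [hsum, norm_neg]
    refine (norm_sum_le _ _).trans (Finset.sum_le_sum fun β _ => ?_)
    rw [norm_mul, norm_prod]
    refine mul_le_mul_of_nonneg_left ?_ (norm_nonneg _)
    rw [← Tie_prod y _ s hs0 β]
    refine Finset.prod_le_prod (fun i _ => norm_nonneg _) fun i _ => ?_
    rw [norm_pow]
    exact pow_le_pow_left₀ (norm_nonneg _) (hb i).2 _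
  have hspos : 0 < s ^ μ := Real.rpow_pos_of_pos hs0 _
  have heq : ∑ β ∈ F.support.erase α,
      ‖F.coeff β‖ * (C ^ (∑ i, β i) * s ^ (∑ i, (β i : ℝ) * y i)) =
      (∑ β ∈ F.support.erase α,
        ‖F.coeff β‖ * C ^ (∑ i, β i) * s ^ (∑ i, (β i : ℝ) * y i - μ)) * s ^ μ := by
    rw [Finset.sum_mul]
    refine Finset.sum_congr rfl fun β _ => ?_
    have : s ^ (∑ i, (β i : ℝ) * y i) = s ^ (∑ i, (β i : ℝ) * y i - μ) * s ^ μ := by
      rw [← Real.rpow_add hs0]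
      congr 1
      ring
    rw [this]
    ring
  have h1 := hlow.trans hup
  rw [heq, ← mul_assoc] at h1
  have h2 := le_of_mul_le_mul_right h1 hspos
  exact absurd hsmall (not_lt.mpr h2)

end Pool.Agent.Lib.MP_4e7804_co
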