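import Mathlib
import Pool.Agent.Lib.MP_4e7804_co.Lo.Tie

/-! MP_4e7804_co, lower bound for all n, module Indep. -/

set_option autoImplicit false

open Finset

namespace Pool.Agent.Lib.MP_4e7804_co

open Filter Topology in
theorem Indep_mono {d : ℕ} (u : Fin d → ℝ) (s : ℝ) (hs : 0 < s) :
    ∃ t : Fin d → ℂˣ, ∀ p : Fin d → ℤ, mono t p = ((s ^ (∑ k, u k * (p k : ℝ)) : ℝ) : ℂ) := by
  refine ⟨fun k => Units.mk0 ((s ^ (u k) : ℝ) : ℂ)
    (by exact_mod_cast (Real.rpow_pos_of_pos hs _).ne'), fun p => ?_⟩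
  unfold mono
  rw [Real.rpow_sum_of_pos hs, Complex.ofReal_prod]
  refine Finset.prod_congr rfl fun k _ => ?_
  rw [Units.val_zpow_eq_zpow_val, Units.val_mk0, Real.rpow_mul hs.le, Real.rpow_intCast]
  push_cast
  rfl

open Filter Topology in
theorem Indep_lin (A B : ℝ) (hB : B ≠ 0) :
    ∀ᶠ ε in 𝓝[>] (0 : ℝ), A + ε * B ≠ 0 := by
  rcases eq_or_ne A 0 with rfl | hA
  · filter_upwards [self_mem_nhdsWithin] with ε hε
    have : (0 : ℝ) < ε := hε
    simp [this.ne', hB]
  · have h : ContinuousAt (fun ε : ℝ => A + ε * B) 0 := by fun_prop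
    have h2 : ∀ᶠ ε in 𝓝 (0 : ℝ), A + ε * B ≠ 0 := by
      apply h.eventually_ne
      simpa using hA
    exact h2.filter_mono nhdsWithin_le_nhds

open Filter Topology in
theorem Indep_pos (A B : ℝ) (hA : 0 < A) :
    ∀ᶠ ε in 𝓝[>] (0 : ℝ), 0 < A + ε * B := by
  have h : ContinuousAt (fun ε : ℝ => A + ε * B) 0 := by fun_prop
  have h2 : ∀ᶠ ε in 𝓝 (0 : ℝ), 0 < A + ε * B := by
    apply h.eventually (lt_mem_nhds _)
    simpa using hA
  exact h2.filter_mono nhdsWithin_le_nhds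

open Filter Topology in
theorem Indep_limit {d : ℕ} (F : Finset (Fin d → ℤ)) (c : (Fin d → ℤ) → ℂ) (e : (Fin d → ℤ) → ℝ)
    (a : Fin d → ℤ) (ha : a ∈ F) (hea : e a = 0) (hpos : ∀ p ∈ F, p ≠ a → 0 < e p) :
    Tendsto (fun s : ℝ => ∑ p ∈ F, c p * ((s ^ (e p) : ℝ) : ℂ)) (𝓝[>] 0) (𝓝 (c a)) := by
  have h : Tendsto (fun s : ℝ => ∑ p ∈ F, c p * ((s ^ (e p) : ℝ) : ℂ)) (𝓝[>] 0)
      (𝓝 (∑ p ∈ F, if p = a then c a else 0)) := by
    apply tendsto_finsetSum
    intro p hp
    by_cases hpa : p = a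
    · subst hpa
      simp [hea]
    · rw [if_neg hpa]
      have h1 : Tendsto (fun s : ℝ => s ^ (e p)) (𝓝[>] 0) (𝓝 0) := by
        have h2 := (Real.continuousAt_rpow_const 0 (e p) (Or.inr (hpos p hp hpa).le)).tendsto
        rw [Real.zero_rpow (hpos p hp hpa).ne'] at h2
        exact h2.mono_left nhdsWithin_le_nhds
      have h3 : Tendsto (fun s : ℝ => ((s ^ (e p) : ℝ) : ℂ)) (𝓝[>] 0) (𝓝 0) := by
        have := (Complex.continuous_ofReal.tendsto 0).comp h1
        rw [Complex.ofReal_zero] at this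
        exact this
      simpa using h3.const_mul (c p)
  rw [Finset.sum_ite_eq' F a, if_pos ha] at h
  exact h

open Filter Topology in
/-- TASK D5 (file Lo/Indep.lean), 120 lines: if at some `w` every `P_i` has only one minimal
lattice point `a_i`, and the `a_{σ j}` are linearly independent, then the `f_{σ j}` have no
polynomial relation. -/
theorem indep_of_min {n d m : ℕ} (P : Fin n → Set (Fin d → ℝ))
    (hfin : ∀ i, (latticePoints (P i)).Finite) (c : Fin n → (Fin d → ℤ) → ℂ)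
    (a : Fin n → Fin d → ℤ) (w : Fin d → ℚ) (σ : Fin m → Fin n)
    (ha : ∀ j, a (σ j) ∈ latticePoints (P (σ j)))
    (hca : ∀ j, c (σ j) (a (σ j)) ≠ 0)
    (hmin : ∀ j, ∀ p ∈ latticePoints (P (σ j)), p ≠ a (σ j) → dot w (a (σ j)) < dot w p)
    (hli : LinearIndependent ℝ (fun j => toReal (a (σ j))))
    (G : MvPolynomial (Fin m) ℂ)
    (hG : ∀ t, MvPolynomial.eval (fun j => evalAt P c t (σ j)) G = 0) : G = 0 := by
  classical
  by_contra hne
  have hsup : G.support.Nonempty := by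
    rwa [Finset.nonempty_iff_ne_empty, Ne, MvPolynomial.support_eq_empty]
  let D : (Fin d → ℝ) → (Fin d → ℤ) → ℝ := fun u p => ∑ k, u k * (p k : ℝ)
  have hDlin : ∀ (u v : Fin d → ℝ) (ε : ℝ) (p : Fin d → ℤ),
      D (fun k => u k + ε * v k) p = D u p + ε * D v p := by
    intro u v ε p
    simp only [D]
    rw [Finset.mul_sum, ← Finset.sum_add_distrib]
    exact Finset.sum_congr rfl fun k _ => by ring
  -- a direction
  obtain ⟨u', hu'⟩ : ∃ u' : Fin d → ℝ, ∀ α ∈ G.support, ∀ β ∈ G.support, α ≠ β →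
      ∑ j, ((α j : ℝ) - β j) * D u' (a (σ j)) ≠ 0 := by
    let S : Finset ((Fin m →₀ ℕ) × (Fin m →₀ ℕ)) :=
      (G.support ×ˢ G.support).filter (fun pq => pq.1 ≠ pq.2)
    let f : S → Module.Dual ℝ (Fin d → ℝ) := fun i =>
      ∑ k, (∑ j, ((i.1.1 j : ℝ) - i.1.2 j) * (a (σ j) k : ℝ)) • (LinearMap.proj k)
    have hf : ∀ (i : S) (u : Fin d → ℝ),
        f i u = ∑ j, ((i.1.1 j : ℝ) - i.1.2 j) * D u (a (σ j)) := by
      intro i u
      simp only [f, D, LinearMap.sum_apply, LinearMap.smul_apply, LinearMap.proj_apply,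
        smul_eq_mul, Finset.sum_mul, Finset.mul_sum]
      rw [Finset.sum_comm]
      exact Finset.sum_congr rfl fun j _ => Finset.sum_congr rfl fun k _ => by ring
    obtain ⟨u', hu'⟩ := Module.Dual.exists_forall_ne_zero_of_forall_exists f (by
        intro i
        refine ⟨fun k => ∑ j, ((i.1.1 j : ℝ) - i.1.2 j) * (a (σ j) k : ℝ), ?_⟩
        intro h0
        have h1 : f i (fun k => ∑ j, ((i.1.1 j : ℝ) - i.1.2 j) * (a (σ j) k : ℝ)) =
            ∑ k, (∑ j, ((i.1.1 j : ℝ) - i.1.2 j) * (a (σ j) k : ℝ)) *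
              (∑ j, ((i.1.1 j : ℝ) - i.1.2 j) * (a (σ j) k : ℝ)) := by
          simp only [f, LinearMap.sum_apply, LinearMap.smul_apply, LinearMap.proj_apply,
            smul_eq_mul]
        rw [h1, Finset.sum_eq_zero_iff_of_nonneg (fun k _ => mul_self_nonneg _)] at h0
        have h2 : ∑ j, ((i.1.1 j : ℝ) - i.1.2 j) • toReal (a (σ j)) = 0 := by
          funext k
          have := mul_self_eq_zero.mp (h0 k (Finset.mem_univ k))
          simpa [Finset.sum_apply, toReal] using this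
        have h3 := Fintype.linearIndependent_iff.mp hli _ h2
        have hi := (Finset.mem_filter.mp i.2).2
        apply hi
        ext j
        have h4 := h3 j
        have h5 : (i.1.1 j : ℝ) = i.1.2 j := by linarith
        exact_mod_cast h5)
    refine ⟨u', fun α hα β hβ hαβ => ?_⟩
    have := hu' ⟨(α, β), Finset.mem_filter.mpr ⟨Finset.mem_product.mpr ⟨hα, hβ⟩, hαβ⟩⟩
    rw [hf] at this
    exact this
  -- the point u
  obtain ⟨u, hu1, hu2⟩ : ∃ u : Fin d → ℝ,
      (∀ j, ∀ p ∈ latticePoints (P (σ j)), p ≠ a (σ j) → D u (a (σ j)) < D u p) ∧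
      (∀ α ∈ G.support, ∀ β ∈ G.support, α ≠ β →
        ∑ j, ((α j : ℝ) - β j) * D u (a (σ j)) ≠ 0) := by
    let wr : Fin d → ℝ := fun k => (w k : ℝ)
    have hwr : ∀ p : Fin d → ℤ, D wr p = ((dot w p : ℚ) : ℝ) := by
      intro p; simp [D, wr, dot]
    have e1 : ∀ᶠ ε in 𝓝[>] (0 : ℝ), ∀ j, ∀ p ∈ latticePoints (P (σ j)), p ≠ a (σ j) →
        0 < (D wr p - D wr (a (σ j))) + ε * (D u' p - D u' (a (σ j))) := by
      rw [eventually_all]
      intro j
      rw [eventually_all_finite (hfin (σ j))]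
      intro p hp
      by_cases hpa : p = a (σ j)
      · exact Eventually.of_forall fun ε h => absurd hpa h
      · refine (Indep_pos _ _ ?_).mono fun ε h _ => h
        rw [hwr, hwr]
        have := hmin j p hp hpa
        have h2 : ((dot w (a (σ j)) : ℚ) : ℝ) < ((dot w p : ℚ) : ℝ) := by exact_mod_cast this
        linarith
    have e2 : ∀ᶠ ε in 𝓝[>] (0 : ℝ), ∀ α ∈ G.support, ∀ β ∈ G.support, α ≠ β →
        (∑ j, ((α j : ℝ) - β j) * D wr (a (σ j))) +
          ε * (∑ j, ((α j : ℝ) - β j) * D u' (a (σ j))) ≠ 0 := by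
      rw [eventually_all_finset]
      intro α hα
      rw [eventually_all_finset]
      intro β hβ
      by_cases hαβ : α = β
      · exact Eventually.of_forall fun ε h => absurd hαβ h
      · exact (Indep_lin _ _ (hu' α hα β hβ hαβ)).mono fun ε h _ => h
    obtain ⟨ε, h1, h2⟩ := (e1.and e2).exists
    refine ⟨fun k => wr k + ε * u' k, ?_, ?_⟩
    · intro j p hp hpa
      have := h1 j p hp hpa
      rw [hDlin, hDlin]
      linarith
    · intro α hα β hβ hαβ h0
      apply h2 α hα β hβ hαβ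
      rw [← h0, Finset.mul_sum, ← Finset.sum_add_distrib]
      refine Finset.sum_congr rfl fun j _ => ?_
      rw [hDlin]; ring
  let y : Fin m → ℝ := fun j => D u (a (σ j))
  let C : ℝ := 1 + ∑ j, (2 / ‖c (σ j) (a (σ j))‖ + 2 * ‖c (σ j) (a (σ j))‖)
  have hcpos : ∀ j, 0 < ‖c (σ j) (a (σ j))‖ := fun j => norm_pos_iff.mpr (hca j)
  have hterm : ∀ j, 0 ≤ 2 / ‖c (σ j) (a (σ j))‖ + 2 * ‖c (σ j) (a (σ j))‖ := fun j => by
    have := hcpos j; positivity
  have hCj : ∀ j, 2 / ‖c (σ j) (a (σ j))‖ + 2 * ‖c (σ j) (a (σ j))‖ ≤ C := fun j => by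
    have := Finset.single_le_sum (f := fun j => 2 / ‖c (σ j) (a (σ j))‖ +
      2 * ‖c (σ j) (a (σ j))‖) (fun i _ => hterm i) (Finset.mem_univ j)
    simp only [C]
    linarith
  have hC : 0 < C := by
    have := Finset.sum_nonneg (s := Finset.univ) (fun j _ => hterm j)
    simp only [C]; linarith
  -- the arcs
  have harc : ∀ r : ℝ, 0 < r → ∃ s : ℝ, 0 < s ∧ s < r ∧ ∃ x : Fin m → ℂ,
      MvPolynomial.eval x G = 0 ∧ ∀ i, C⁻¹ * s ^ y i ≤ ‖x i‖ ∧ ‖x i‖ ≤ C * s ^ y i := by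
    intro r hr
    have hev : ∀ᶠ s in 𝓝[>] (0 : ℝ), ∀ j,
        ‖c (σ j) (a (σ j))‖ / 2 < ‖∑ p ∈ (hfin (σ j)).toFinset,
          c (σ j) p * ((s ^ (D u p - y j) : ℝ) : ℂ)‖ ∧
        ‖∑ p ∈ (hfin (σ j)).toFinset,
          c (σ j) p * ((s ^ (D u p - y j) : ℝ) : ℂ)‖ < 2 * ‖c (σ j) (a (σ j))‖ := by
      rw [eventually_all]
      intro j
      have h1 := (Indep_limit (hfin (σ j)).toFinset (c (σ j)) (fun p => D u p - y j) (a (σ j))
        (by simpa using ha j) (by simp [y]) (by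
          intro p hp hpa
          have := hu1 j p (by simpa using hp) hpa
          simp only [y]; linarith)).norm
      have h2 := hcpos j
      exact (h1.eventually (lt_mem_nhds (by linarith))).and
        (h1.eventually (gt_mem_nhds (by linarith)))
    obtain ⟨s, hs, hsr⟩ := (hev.and (Ioo_mem_nhdsGT hr)).exists
    have hs0 : 0 < s := hsr.1
    obtain ⟨t, ht⟩ := Indep_mono u s hs0
    refine ⟨s, hs0, hsr.2, fun j => evalAt P c t (σ j), hG t, fun j => ?_⟩
    have hval : evalAt P c t (σ j) = ((s ^ y j : ℝ) : ℂ) * ∑ p ∈ (hfin (σ j)).toFinset,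
        c (σ j) p * ((s ^ (D u p - y j) : ℝ) : ℂ) := by
      unfold evalAt
      rw [finsum_mem_eq_finite_toFinset_sum _ (hfin (σ j)), Finset.mul_sum]
      refine Finset.sum_congr rfl fun p _ => ?_
      rw [ht p]
      have : s ^ (∑ k, u k * (p k : ℝ)) = s ^ y j * s ^ (D u p - y j) := by
        rw [← Real.rpow_add hs0]
        congr 1
        simp only [D]; ring
      rw [this]
      push_cast
      ring
    have hsy : 0 < s ^ y j := Real.rpow_pos_of_pos hs0 _
    have hnorm : ‖((s ^ y j : ℝ) : ℂ)‖ = s ^ y j := by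
      rw [Complex.norm_real, Real.norm_of_nonneg hsy.le]
    simp only
    rw [hval, norm_mul, hnorm]
    have hj := hs j
    have hc := hcpos j
    have hCj' := hCj j
    have hA : 2 / ‖c (σ j) (a (σ j))‖ ≤ C := by
      have : 0 ≤ 2 * ‖c (σ j) (a (σ j))‖ := by positivity
      linarith
    have hB : 2 * ‖c (σ j) (a (σ j))‖ ≤ C := by
      have : 0 ≤ 2 / ‖c (σ j) (a (σ j))‖ := by positivity
      linarith
    have hA' : C⁻¹ ≤ ‖c (σ j) (a (σ j))‖ / 2 := by
      rw [inv_le_comm₀ hC (by positivity)]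
      rwa [inv_div]
    constructor
    · rw [mul_comm]
      exact mul_le_mul_of_nonneg_left (by linarith [hj.1]) hsy.le
    · rw [mul_comm C]
      exact mul_le_mul_of_nonneg_left (by linarith [hj.2]) hsy.le
  obtain ⟨α, hα, hαmin⟩ := Finset.exists_min_image G.support
    (fun α => ∑ i, (α i : ℝ) * y i) hsup
  obtain ⟨β, hβ, hβα, hle⟩ := tie_of_arcs G y C hC harc α hα
  have h1 := hαmin β hβ
  have h2 : ∑ j, ((α j : ℝ) - β j) * y j = 0 := by
    have h3 : ∑ i, (α i : ℝ) * y i = ∑ i, (β i : ℝ) * y i := le_antisymm h1 hle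
    have h4 : ∑ j, ((α j : ℝ) - β j) * y j =
        ∑ i, (α i : ℝ) * y i - ∑ i, (β i : ℝ) * y i := by
      rw [← Finset.sum_sub_distrib]
      exact Finset.sum_congr rfl fun j _ => by ring
    rw [h4, h3, sub_self]
  exact hu2 α hα β hβ (Ne.symm hβα) h2

end Pool.Agent.Lib.MP_4e7804_co
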