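import Mathlib

/-! MP_4e7804_co, lower bound for all n, module Solve. -/

set_option autoImplicit false

open Finset

namespace Pool.Agent.Lib.MP_4e7804_co

/-- TASK A1 (file Lo/Solve.lean), 100 lines.
PROOF. Put `ζ0 j = Complex.log (-(c j (α j)) / c j (β j))`, so that
`c j (α j) + c j (β j) * exp (ζ0 j) = 0`, hence by `hb`
`c j (α j) * exp (∑ l, ζ0 l * b j (α j) l) = - c j (β j) * exp (∑ l, ζ0 l * b j (β j) l)`; call the
common value `- q j`, `q j ≠ 0`. Let `G : (ι → ℂ) × ℂ → (ι → ℂ) × ℂ`,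
`G (ζ, s) = (fun j => ∑ p ∈ T j, c j p * s ^ m j p * exp (∑ l, ζ l * b j p l), s)`. It is `ContDiff`
(fun_prop), so it has a strict derivative `G'` at `(ζ0, 0)`
(`ContDiffAt.hasStrictFDerivAt`). `G (ζ0, 0) = 0` (only the terms `α j`, `β j` have `m = 0`, the
others have `0 ^ m = 0`). `G' (η, 0) = (fun j => q j * η j, 0)`: compute the derivative of
`u ↦ G (ζ0 + u • η, 0)` at `u = 0` (`HasDerivAt` of one variable, at `s = 0` only the two terms
survive: `(-q j) * ∑ η l * b j (α j) l + q j * ∑ η l * b j (β j) l = q j * η j` by `hb`), and the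
second component of `G' (η, σ)` is `σ`. So `G'` is surjective: for `(x, σ)` take
`x' = (G' (0, σ)).1`, `η j = (x j - x' j) / q j`. By `HasStrictFDerivAt.map_nhds_eq_of_surj`
`map G (𝓝 (ζ0, 0)) = 𝓝 0`; apply it to the neighbourhood `U ×ˢ univ`: its image contains a ball of
radius `r` around `0` (sup norm on the product), in particular all `(x, s)` with `‖x j‖ < r`,
`0 < s < r`; the second component of `G (ζ, s') = (x, s)` gives `s' = s`. -/
theorem local_solve {ι τ : Type*} [Fintype ι] [DecidableEq ι] (T : ι → Finset τ)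
    (c : ι → τ → ℂ) (m : ι → τ → ℕ) (b : ι → τ → ι → ℂ) (α β : ι → τ)
    (hα : ∀ j, α j ∈ T j) (hβ : ∀ j, β j ∈ T j) (hne : ∀ j, α j ≠ β j)
    (hcα : ∀ j, c j (α j) ≠ 0) (hcβ : ∀ j, c j (β j) ≠ 0)
    (hm : ∀ j, ∀ p ∈ T j, m j p = 0 ↔ p = α j ∨ p = β j)
    (hb : ∀ j l, b j (β j) l - b j (α j) l = if l = j then 1 else 0) :
    ∃ ζ0 : ι → ℂ, ∀ U ∈ nhds ζ0, ∃ r : ℝ, 0 < r ∧ ∀ s : ℝ, 0 < s → s < r → ∀ x : ι → ℂ,
      (∀ j, ‖x j‖ < r) → ∃ ζ ∈ U, ∀ j,
        ∑ p ∈ T j, c j p * (s : ℂ) ^ m j p * Complex.exp (∑ l, ζ l * b j p l) = x j := by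
  classical
  have hquot : ∀ j, -(c j (α j)) / c j (β j) ≠ 0 := fun j =>
    div_ne_zero (neg_ne_zero.2 (hcα j)) (hcβ j)
  set ζ0 : ι → ℂ := fun j => Complex.log (-(c j (α j)) / c j (β j)) with hζ0
  have hexp0 : ∀ j, c j (β j) * Complex.exp (ζ0 j) = -(c j (α j)) := by
    intro j
    simp only [hζ0]
    rw [Complex.exp_log (hquot j)]
    field_simp [hcβ j]
  set G : (ι → ℂ) × ℂ → (ι → ℂ) × ℂ := fun z =>
    (fun j => ∑ p ∈ T j, c j p * z.2 ^ m j p * Complex.exp (∑ l, z.1 l * b j p l), z.2) with hG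
  have hcoord : ∀ l : ι, ContDiff ℂ 1 (fun z : (ι → ℂ) × ℂ => z.1 l) := fun l =>
    (contDiff_apply ℂ ℂ l).comp contDiff_fst
  have hGd : ContDiff ℂ 1 G := by
    refine ContDiff.prodMk (contDiff_pi.2 fun j => ContDiff.sum fun p _ => ?_) contDiff_snd
    refine (contDiff_const.mul (contDiff_snd.pow _)).mul (Complex.contDiff_exp.comp ?_)
    exact ContDiff.sum fun l _ => (hcoord l).mul contDiff_const
  -- value at `s = 0`
  have hval0 : ∀ (ζ : ι → ℂ) (j : ι), (G (ζ, 0)).1 j =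
      Complex.exp (∑ l, ζ l * b j (α j) l) * (c j (α j) + c j (β j) * Complex.exp (ζ j)) := by
    intro ζ j
    have hsub : ({α j, β j} : Finset τ) ⊆ T j := by
      intro p hp
      simp only [Finset.mem_insert, Finset.mem_singleton] at hp
      rcases hp with rfl | rfl
      · exact hα j
      · exact hβ j
    have hs : (G (ζ, 0)).1 j = ∑ p ∈ ({α j, β j} : Finset τ),
        c j p * (0 : ℂ) ^ m j p * Complex.exp (∑ l, ζ l * b j p l) := by
      simp only [hG]
      symm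
      refine Finset.sum_subset hsub fun p hp hp2 => ?_
      have hmp : m j p ≠ 0 := by
        intro h0
        apply hp2
        rcases (hm j p hp).1 h0 with h | h
        · simp [h]
        · simp [h]
      rw [zero_pow hmp]
      ring
    rw [hs, Finset.sum_pair (hne j), (hm j _ (hα j)).2 (Or.inl rfl),
      (hm j _ (hβ j)).2 (Or.inr rfl)]
    have hbβ : ∑ l, ζ l * b j (β j) l = ∑ l, ζ l * b j (α j) l + ζ j := by
      have h1 : ∑ l, ζ l * b j (β j) l - ∑ l, ζ l * b j (α j) l = ζ j := by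
        rw [← Finset.sum_sub_distrib]
        have : ∀ l ∈ (Finset.univ : Finset ι), ζ l * b j (β j) l - ζ l * b j (α j) l =
            if l = j then ζ l else 0 := by
          intro l _
          rw [← mul_sub, hb j l]
          split_ifs <;> simp
        rw [Finset.sum_congr rfl this]
        simp
      rw [← h1]
      ring
    rw [hbβ, Complex.exp_add]
    ring
  have hG0 : G (ζ0, 0) = 0 := by
    refine Prod.ext (funext fun j => ?_) rfl
    rw [hval0 ζ0 j, hexp0 j]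
    simp
  have hstrict : HasStrictFDerivAt G (fderiv ℂ G (ζ0, 0)) (ζ0, 0) :=
    hGd.contDiffAt.hasStrictFDerivAt one_ne_zero
  set G' := fderiv ℂ G (ζ0, 0) with hG'
  have hsnd : ∀ z, (G' z).2 = z.2 := by
    have h1 : HasFDerivAt (fun z => (G z).2) ((ContinuousLinearMap.snd ℂ (ι → ℂ) ℂ).comp G')
        (ζ0, 0) := (hasFDerivAt_snd.comp (ζ0, (0 : ℂ)) hstrict.hasFDerivAt)
    have h2 : HasFDerivAt (fun z : (ι → ℂ) × ℂ => (G z).2) (ContinuousLinearMap.snd ℂ (ι → ℂ) ℂ)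
        (ζ0, 0) := hasFDerivAt_snd
    have h3 := h1.unique h2
    intro z
    exact congrArg (fun f : (ι → ℂ) × ℂ →L[ℂ] ℂ => f z) h3
  set q : ι → ℂ := fun j => -(c j (α j)) * Complex.exp (∑ l, ζ0 l * b j (α j) l) with hq
  have hq0 : ∀ j, q j ≠ 0 := fun j =>
    mul_ne_zero (neg_ne_zero.2 (hcα j)) (Complex.exp_ne_zero _)
  have hfst : ∀ (η : ι → ℂ) (j : ι), (G' (η, 0)).1 j = q j * η j := by
    intro η j
    have hγ : HasDerivAt (fun u : ℂ => ((ζ0 + u • η, 0) : (ι → ℂ) × ℂ)) ((η, 0) : (ι → ℂ) × ℂ)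
        0 := by
      have h1 : HasDerivAt (fun u : ℂ => ζ0 + u • η) η 0 := by
        have := ((hasDerivAt_id (0 : ℂ)).smul_const η).const_add ζ0
        simpa using this
      exact h1.prodMk (hasDerivAt_const (0 : ℂ) (0 : ℂ))
    have hγ0 : ((ζ0 + (0 : ℂ) • η, 0) : (ι → ℂ) × ℂ) = (ζ0, 0) := by simp
    have hst : HasFDerivAt G G' (ζ0 + (0 : ℂ) • η, 0) := by
      rw [hγ0]
      exact hstrict.hasFDerivAt
    have h2 : HasDerivAt (fun u : ℂ => G (ζ0 + u • η, 0)) (G' (η, 0)) 0 :=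
      HasFDerivAt.comp_hasDerivAt (f := fun u : ℂ => ((ζ0 + u • η, 0) : (ι → ℂ) × ℂ)) (0 : ℂ) hst hγ
    have h3 : HasDerivAt (fun u : ℂ => (G (ζ0 + u • η, 0)).1) (G' (η, 0)).1 0 :=
      HasFDerivAt.comp_hasDerivAt (l := (Prod.fst : (ι → ℂ) × ℂ → (ι → ℂ)))
        (f := fun u : ℂ => G (ζ0 + u • η, 0)) (0 : ℂ) hasFDerivAt_fst h2
    have h4 : HasDerivAt (fun u : ℂ => (G (ζ0 + u • η, 0)).1 j) ((G' (η, 0)).1 j) 0 :=
      (hasDerivAt_pi.1 h3) j
    have h5 : (fun u : ℂ => (G (ζ0 + u • η, 0)).1 j) = fun u : ℂ =>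
        Complex.exp (∑ l, (ζ0 + u • η) l * b j (α j) l) *
          (c j (α j) * (1 - Complex.exp (u * η j))) := by
      funext u
      rw [hval0]
      congr 1
      have h6 : (ζ0 + u • η) j = ζ0 j + u * η j := by simp
      rw [h6, Complex.exp_add, ← mul_assoc, hexp0 j]
      ring
    rw [h5] at h4
    have hu : HasDerivAt (fun u : ℂ => u * η j) (η j) 0 := by
      simpa using (hasDerivAt_id (0 : ℂ)).mul_const (η j)
    have h7 : HasDerivAt (fun u : ℂ => c j (α j) * (1 - Complex.exp (u * η j)))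
        (c j (α j) * (-(Complex.exp (0 * η j) * η j))) 0 :=
      (hu.cexp.const_sub 1).const_mul _
    have hlin : HasDerivAt (fun u : ℂ => ∑ l, (ζ0 + u • η) l * b j (α j) l)
        (∑ l, η l * b j (α j) l) 0 := by
      refine HasDerivAt.fun_sum fun l _ => ?_
      have : HasDerivAt (fun u : ℂ => (ζ0 + u • η) l) (η l) 0 := by
        have := ((hasDerivAt_id (0 : ℂ)).mul_const (η l)).const_add (ζ0 l)
        simpa using this
      exact this.mul_const _
    have h8 := hlin.cexp.fun_mul h7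
    have h9 := h4.unique h8
    rw [h9]
    simp only [hq, zero_smul, add_zero, zero_mul, Complex.exp_zero, sub_self, mul_zero, zero_add,
      one_mul]
    ring
  have hsurj : Function.Surjective G' := by
    rintro ⟨x, σ⟩
    refine ⟨(fun j => (x j - (G' (0, σ)).1 j) / q j, σ), ?_⟩
    refine Prod.ext (funext fun j => ?_) (hsnd _)
    have hsplit : ((fun j => (x j - (G' (0, σ)).1 j) / q j, σ) : (ι → ℂ) × ℂ) =
        (fun j => (x j - (G' (0, σ)).1 j) / q j, 0) + (0, σ) := by simp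
    rw [hsplit, map_add]
    show (G' (fun j => (x j - (G' (0, σ)).1 j) / q j, 0)).1 j + (G' (0, σ)).1 j = x j
    rw [hfst]
    field_simp [hq0 j]
    ring
  have hmap := hstrict.map_nhds_eq_of_surj (LinearMap.range_eq_top.2 hsurj)
  rw [hG0] at hmap
  refine ⟨ζ0, fun U hU => ?_⟩
  have hmem : G '' (U ×ˢ Set.univ) ∈ nhds (0 : (ι → ℂ) × ℂ) := by
    rw [← hmap]
    exact Filter.image_mem_map (prod_mem_nhds hU Filter.univ_mem)
  obtain ⟨r, hr, hball⟩ := Metric.mem_nhds_iff.1 hmem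
  refine ⟨r, hr, fun s hs hsr x hx => ?_⟩
  have hin : (x, (s : ℂ)) ∈ Metric.ball (0 : (ι → ℂ) × ℂ) r := by
    rw [mem_ball_zero_iff, Prod.norm_def]
    refine max_lt ((pi_norm_lt_iff hr).2 hx) ?_
    simpa [abs_of_pos hs] using hsr
  obtain ⟨⟨ζ, s'⟩, ⟨hζU, -⟩, hGe⟩ := hball hin
  have hs' : s' = (s : ℂ) := congrArg Prod.snd hGe
  subst hs'
  exact ⟨ζ, hζU, fun j => congrFun (congrArg Prod.fst hGe) j⟩

end Pool.Agent.Lib.MP_4e7804_co
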