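import Mathlib
import Pool.Agent.Lib.MP_4e7804_co.Defs
import Pool.Agent.Lib.MP_4e7804_co.Lo.Solve

/-! MP_4e7804_co, lower bound for all n, module Arc. -/

set_option autoImplicit false

open Finset

namespace Pool.Agent.Lib.MP_4e7804_co

theorem Arc_mono {d : ℕ} (s : ℝ) (hs : 0 < s) (z : Fin d → ℂ) (w : Fin d → ℤ) (t : Fin d → ℂˣ)
    (ht : ∀ k, (t k : ℂ) = (s : ℂ) ^ (w k) * Complex.exp (z k)) (p : Fin d → ℤ) :
    mono t p = (s : ℂ) ^ (∑ k, w k * p k) * Complex.exp (∑ k, z k * p k) := by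
  have hs' : (s : ℂ) = Complex.exp (Real.log s : ℝ) := by
    rw [← Complex.ofReal_exp, Real.exp_log hs]
  have hpow : ∀ n : ℤ, (s : ℂ) ^ n = Complex.exp (n * (Real.log s : ℝ)) := by
    intro n
    rw [hs', ← Complex.exp_int_mul]
  have h1 : ∀ k, ((t k ^ p k : ℂˣ) : ℂ) =
      Complex.exp ((p k : ℂ) * ((w k : ℂ) * (Real.log s : ℝ) + z k)) := by
    intro k
    rw [Units.val_zpow_eq_zpow_val, ht k, hpow, ← Complex.exp_add, ← Complex.exp_int_mul]
  unfold mono
  rw [Finset.prod_congr rfl fun k _ => h1 k, ← Complex.exp_sum, hpow, ← Complex.exp_add]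
  congr 1
  push_cast
  rw [Finset.sum_mul, ← Finset.sum_add_distrib]
  refine Finset.sum_congr rfl fun k _ => ?_
  ring

/-- TASK A2 (file Lo/Arc.lean, imports Lo/Solve.lean), 150 lines.
PROOF. Let `T i` be the finite set of lattice points of `P i` (`(hfin i).toFinset`), `ι = J` (as a
type), and for `s > 0` and `ζ : J → ℂ` let `t k = s ^ (w k) * exp (∑ l, ζ l * bs l k)`, a unit
(`Units.mk0`; zpow of the real number `s` cast to `ℂ`). Then
`mono t p = s ^ (∑ k, w k * p k) * exp (∑ l, ζ l * ∑ k, bs l k * p k)` (`Finset.prod_zpow`,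
`Complex.exp_int_mul`, ...). For `i ∈ J`, with `m i p = (∑ k, w k * p k - h i).toNat` we get
`evalAt P c t i = s ^ (h i) * ∑ p ∈ T i, c i p * s ^ m i p * exp (∑ l, ζ l * b' p l)`,
`b' p l = ∑ k, bs l k * p k` (cast to `ℂ`). Apply `local_solve` (hypothesis `hb` is `hbs`), with
`U` a ball of radius `1` around `ζ0`; choose `x j = s ^ (y j - h j)` (real power, tends to `0` with
`s` because `y j > h j`), so that `‖evalAt P c t j‖ = s ^ h j * s ^ (y j - h j) = s ^ y j` exactly.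
For `i ∉ J`: `evalAt P c t i = s ^ h i * (c i (a i) * exp (∑ ζ l * b' (a i) l) + R)`, where
`‖R‖ ≤ s * K₁` for `s ≤ 1` (all the other exponents `∑ w k * p k - h i` are `≥ 1`), and for `ζ ∈ U`
the norm of the exponential is between two positive constants (`Complex.norm_exp`, `ζ` bounded);
for `s` small this gives the two bounds. -/
theorem exists_arc {n d : ℕ} (P : Fin n → Set (Fin d → ℝ))
    (hfin : ∀ i, (latticePoints (P i)).Finite) (c : Fin n → (Fin d → ℤ) → ℂ)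
    (w : Fin d → ℤ) (h : Fin n → ℤ) (J : Finset (Fin n)) (a b : Fin n → Fin d → ℤ)
    (ha : ∀ i, a i ∈ latticePoints (P i)) (haw : ∀ i, ∑ k, w k * a i k = h i)
    (hca : ∀ i, c i (a i) ≠ 0)
    (hb : ∀ i ∈ J, b i ∈ latticePoints (P i)) (hbw : ∀ i ∈ J, ∑ k, w k * b i k = h i)
    (hcb : ∀ i ∈ J, c i (b i) ≠ 0)
    (hmin : ∀ i, ∀ p ∈ latticePoints (P i), p ≠ a i → (i ∈ J → p ≠ b i) →
      h i < ∑ k, w k * p k)
    (bs : Fin n → Fin d → ℚ)
    (hbs : ∀ l ∈ J, ∀ j ∈ J, ∑ k, bs l k * ((b j k : ℚ) - a j k) = if l = j then 1 else 0)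
    (y : Fin n → ℝ) (hyJ : ∀ i ∈ J, (h i : ℝ) < y i) (hy : ∀ i, i ∉ J → y i = h i) :
    ∃ C : ℝ, 0 < C ∧ ∀ r : ℝ, 0 < r → ∃ s : ℝ, 0 < s ∧ s < r ∧ ∃ t : Fin d → ℂˣ, ∀ i,
      C⁻¹ * s ^ y i ≤ ‖evalAt P c t i‖ ∧ ‖evalAt P c t i‖ ≤ C * s ^ y i := by
  classical
  set T : Fin n → Finset (Fin d → ℤ) := fun i => (hfin i).toFinset with hT
  have memT : ∀ i p, p ∈ T i ↔ p ∈ latticePoints (P i) := fun i p => by simp [hT]
  set m : Fin n → (Fin d → ℤ) → ℕ := fun i p => (∑ k, w k * p k - h i).toNat with hm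
  have hge : ∀ i, ∀ p ∈ T i, h i ≤ ∑ k, w k * p k := by
    intro i p hp
    by_cases h1 : p = a i
    · rw [h1, haw]
    · by_cases h2 : i ∈ J ∧ p = b i
      · rw [h2.2, hbw i h2.1]
      · exact (hmin i p ((memT i p).1 hp) h1 fun hJ hpb => h2 ⟨hJ, hpb⟩).le
  have hm0 : ∀ i, ∀ p ∈ T i, m i p = 0 → p = a i ∨ (i ∈ J ∧ p = b i) := by
    intro i p hp h0
    by_contra hcon
    push Not at hcon
    have h1 := hmin i p ((memT i p).1 hp) hcon.1 hcon.2
    have h2 : (∑ k, w k * p k - h i).toNat = 0 := h0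
    omega
  have hma : ∀ i, m i (a i) = 0 := by
    intro i
    have : (∑ k, w k * a i k - h i).toNat = 0 := by rw [haw]; simp
    exact this
  have hmb : ∀ i ∈ J, m i (b i) = 0 := by
    intro i hi
    have : (∑ k, w k * b i k - h i).toNat = 0 := by rw [hbw i hi]; simp
    exact this
  set B : (Fin d → ℤ) → J → ℂ := fun p l => ∑ k, (bs l.1 k : ℂ) * (p k : ℂ) with hB
  set Φ : Fin n → (J → ℂ) → ℝ → ℂ := fun i ζ s =>
    ∑ p ∈ T i, c i p * (s : ℂ) ^ m i p * Complex.exp (∑ l, ζ l * B p l) with hΦ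
  have hne : ∀ j : J, a j.1 ≠ b j.1 := by
    intro j hab
    have h1 := hbs j.1 j.2 j.1 j.2
    rw [if_pos rfl] at h1
    rw [hab] at h1
    simp at h1
  obtain ⟨ζ0, hζ0⟩ := local_solve (ι := J) (fun j => T j.1) (fun j => c j.1) (fun j => m j.1)
    (fun _ => B) (fun j => a j.1) (fun j => b j.1)
    (fun j => (memT _ _).2 (ha j.1)) (fun j => (memT _ _).2 (hb j.1 j.2)) hne
    (fun j => hca j.1) (fun j => hcb j.1 j.2)
    (fun j p hp => ⟨fun h0 => (hm0 j.1 p hp h0).imp id fun hh => hh.2, fun h0 => by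
      rcases h0 with h0 | h0
      · rw [h0]; exact hma j.1
      · rw [h0]; exact hmb j.1 j.2⟩)
    (fun j l => by
      have h1 := hbs l.1 l.2 j.1 j.2
      have h2 : (((∑ k, bs l.1 k * ((b j.1 k : ℚ) - a j.1 k) : ℚ)) : ℂ) =
          (((if l.1 = j.1 then 1 else 0 : ℚ)) : ℂ) := by rw [h1]
      have h3 : B (b j.1) l - B (a j.1) l =
          (((∑ k, bs l.1 k * ((b j.1 k : ℚ) - a j.1 k) : ℚ)) : ℂ) := by
        simp only [hB]
        rw [← Finset.sum_sub_distrib]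
        push_cast
        exact Finset.sum_congr rfl fun k _ => by ring
      rw [h3, h2]
      by_cases hlj : l = j
      · simp [hlj]
      · have : ¬ l.1 = j.1 := fun hh => hlj (Subtype.ext hh)
        simp [hlj, this])
  -- values at the limit point
  set v : Fin n → ℝ := fun i => ‖Φ i ζ0 0‖ with hv
  have hvpos : ∀ i, i ∉ J → 0 < v i := by
    intro i hi
    have h1 : Φ i ζ0 0 = c i (a i) * Complex.exp (∑ l, ζ0 l * B (a i) l) := by
      simp only [hΦ]
      rw [Finset.sum_eq_single (a i)]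
      · rw [hma i]; simp
      · intro p hp hpa
        have h2 : m i p ≠ 0 := fun h0 => by
          rcases hm0 i p hp h0 with h3 | h3
          · exact hpa h3
          · exact hi h3.1
        rw [Complex.ofReal_zero, zero_pow h2]; simp
      · intro h2
        exact absurd ((memT _ _).2 (ha i)) h2
    simp only [hv]
    rw [h1, norm_mul]
    exact mul_pos (norm_pos_iff.2 (hca i)) (norm_pos_iff.2 (Complex.exp_ne_zero _))
  have hcont : ∀ i, Continuous fun q : (J → ℂ) × ℝ => ‖Φ i q.1 q.2‖ := by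
    intro i
    simp only [hΦ]
    fun_prop
  have hev : ∀ᶠ q : (J → ℂ) × ℝ in nhds (ζ0, (0 : ℝ)), ∀ i, i ∉ J →
      v i / 2 < ‖Φ i q.1 q.2‖ ∧ ‖Φ i q.1 q.2‖ < 2 * v i := by
    rw [Filter.eventually_all]
    intro i
    by_cases hi : i ∈ J
    · exact Filter.Eventually.of_forall fun q hh => absurd hi hh
    · have h1 := (hcont i).continuousAt (x := (ζ0, (0 : ℝ)))
      have h2 : v i / 2 < ‖Φ i ζ0 0‖ := by
        have := hvpos i hi
        show v i / 2 < v i
        linarith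
      have h3 : ‖Φ i ζ0 0‖ < 2 * v i := by
        have := hvpos i hi
        show v i < 2 * v i
        linarith
      filter_upwards [h1.eventually_const_lt h2, h1.eventually_lt_const h3] with q hq1 hq2 _
      exact ⟨hq1, hq2⟩
  rw [nhds_prod_eq, Filter.eventually_prod_iff] at hev
  obtain ⟨pa, hpa, pb, hpb, hpab⟩ := hev
  obtain ⟨r1, hr1, hsol⟩ := hζ0 {ζ | pa ζ} hpa
  refine ⟨1 + ∑ i, (2 * v i + 2 / v i), ?_, ?_⟩
  · have : 0 ≤ ∑ i, (2 * v i + 2 / v i) :=
      Finset.sum_nonneg fun i _ => by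
        have : 0 ≤ v i := norm_nonneg _
        positivity
    linarith
  intro r hr
  set C : ℝ := 1 + ∑ i, (2 * v i + 2 / v i) with hC
  have hterm : ∀ i, 0 ≤ 2 * v i + 2 / v i := fun i => by
    have : 0 ≤ v i := norm_nonneg _
    positivity
  have hC1 : 1 ≤ C := by
    have : 0 ≤ ∑ i, (2 * v i + 2 / v i) := Finset.sum_nonneg fun i _ => hterm i
    linarith
  have hCi : ∀ i, 2 * v i + 2 / v i ≤ C := by
    intro i
    have := Finset.single_le_sum (f := fun i => 2 * v i + 2 / v i) (fun i _ => hterm i)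
      (Finset.mem_univ i)
    have h2 : 2 * v i + 2 / v i ≤ ∑ i, (2 * v i + 2 / v i) := this
    linarith
  -- choice of s
  have e1 : ∀ᶠ s : ℝ in nhdsWithin 0 (Set.Ioi 0), 0 < s := self_mem_nhdsWithin
  have e2 : ∀ᶠ s : ℝ in nhdsWithin 0 (Set.Ioi 0), s < r :=
    (Filter.Eventually.filter_mono nhdsWithin_le_nhds (gt_mem_nhds hr))
  have e3 : ∀ᶠ s : ℝ in nhdsWithin 0 (Set.Ioi 0), s < r1 :=
    (Filter.Eventually.filter_mono nhdsWithin_le_nhds (gt_mem_nhds hr1))
  have e4 : ∀ᶠ s : ℝ in nhdsWithin 0 (Set.Ioi 0), pb s :=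
    Filter.Eventually.filter_mono nhdsWithin_le_nhds hpb
  have e5 : ∀ᶠ s : ℝ in nhdsWithin 0 (Set.Ioi 0), ∀ j : J, s ^ (y j.1 - h j.1) < r1 := by
    rw [Filter.eventually_all]
    intro j
    have hpos : 0 < y j.1 - h j.1 := sub_pos.2 (hyJ j.1 j.2)
    have h1 : Filter.Tendsto (fun s : ℝ => s ^ (y j.1 - h j.1)) (nhds 0) (nhds 0) := by
      have := (Real.continuous_rpow_const (q := y j.1 - h j.1) hpos.le).tendsto 0
      rwa [Real.zero_rpow hpos.ne'] at this
    exact Filter.Eventually.filter_mono nhdsWithin_le_nhds (h1.eventually_lt_const hr1)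
  obtain ⟨s, hs0, hsr, hsr1, hsb, hsj⟩ := (e1.and (e2.and (e3.and (e4.and e5)))).exists
  obtain ⟨ζ, hζU, hζ⟩ := hsol s hs0 hsr1 (fun j => ((s ^ (y j.1 - h j.1) : ℝ) : ℂ)) (fun j => by
    rw [Complex.norm_real, Real.norm_eq_abs, abs_of_pos (Real.rpow_pos_of_pos hs0 _)]
    exact hsj j)
  have hsC : (s : ℂ) ≠ 0 := Complex.ofReal_ne_zero.2 hs0.ne'
  refine ⟨s, hs0, hsr, fun k => Units.mk0 ((s : ℂ) ^ (w k) *
    Complex.exp (∑ l, ζ l * (bs l.1 k : ℂ))) (mul_ne_zero (zpow_ne_zero _ hsC)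
      (Complex.exp_ne_zero _)), ?_⟩
  set t : Fin d → ℂˣ := fun k => Units.mk0 ((s : ℂ) ^ (w k) *
    Complex.exp (∑ l, ζ l * (bs l.1 k : ℂ))) (mul_ne_zero (zpow_ne_zero _ hsC)
      (Complex.exp_ne_zero _)) with ht
  have hmono : ∀ p, mono t p = (s : ℂ) ^ (∑ k, w k * p k) * Complex.exp (∑ l, ζ l * B p l) := by
    intro p
    rw [Arc_mono s hs0 (fun k => ∑ l, ζ l * (bs l.1 k : ℂ)) w t (fun k => by simp [ht]) p]
    congr 2
    simp only [hB, Finset.sum_mul, Finset.mul_sum]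
    rw [Finset.sum_comm]
    refine Finset.sum_congr rfl fun l _ => Finset.sum_congr rfl fun k _ => ?_
    ring
  have heval : ∀ i, evalAt P c t i = (s : ℂ) ^ (h i) * Φ i ζ s := by
    intro i
    unfold evalAt
    rw [finsum_mem_eq_finite_toFinset_sum _ (hfin i)]
    simp only [hΦ]
    rw [Finset.mul_sum]
    refine Finset.sum_congr rfl fun p hp => ?_
    rw [hmono p]
    have h1 := hge i p hp
    have h2 : (∑ k, w k * p k) = h i + ((m i p : ℕ) : ℤ) := by
      have h3 : ((m i p : ℕ) : ℤ) = ∑ k, w k * p k - h i := Int.toNat_of_nonneg (sub_nonneg.2 h1)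
      rw [h3]; ring
    rw [h2, zpow_add₀ hsC, zpow_natCast]
    ring
  have hnorm : ∀ i, ‖evalAt P c t i‖ = s ^ (h i : ℝ) * ‖Φ i ζ s‖ := by
    intro i
    rw [heval, norm_mul, norm_zpow, Complex.norm_real, Real.norm_eq_abs, abs_of_pos hs0,
      Real.rpow_intCast]
  intro i
  have hsy : 0 < s ^ y i := Real.rpow_pos_of_pos hs0 _
  by_cases hi : i ∈ J
  · have h1 : ‖evalAt P c t i‖ = s ^ y i := by
      rw [hnorm i]
      have h2 : Φ i ζ s = ((s ^ (y i - h i) : ℝ) : ℂ) := hζ ⟨i, hi⟩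
      rw [h2, Complex.norm_real, Real.norm_eq_abs, abs_of_pos (Real.rpow_pos_of_pos hs0 _),
        ← Real.rpow_add hs0]
      congr 1
      ring
    rw [h1]
    refine ⟨?_, ?_⟩
    · have : C⁻¹ ≤ 1 := inv_le_one_of_one_le₀ hC1
      calc C⁻¹ * s ^ y i ≤ 1 * s ^ y i := by gcongr
        _ = s ^ y i := one_mul _
    · calc s ^ y i = 1 * s ^ y i := (one_mul _).symm
        _ ≤ C * s ^ y i := by gcongr
  · obtain ⟨h1, h2⟩ := hpab hζU hsb i hi
    have hvi := hvpos i hi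
    have h3 : s ^ y i = s ^ (h i : ℝ) := by rw [hy i hi]
    rw [hnorm i, h3]
    have hsh : 0 < s ^ (h i : ℝ) := Real.rpow_pos_of_pos hs0 _
    have h4 : 2 * v i ≤ C := by
      have h5 := hCi i
      have : 0 ≤ 2 / v i := by positivity
      linarith
    have h6 : C⁻¹ ≤ v i / 2 := by
      have h5 := hCi i
      have h7 : 2 / v i ≤ C := by
        have : 0 ≤ 2 * v i := by positivity
        linarith
      have h8 : (2 / v i)⁻¹ = v i / 2 := by rw [inv_div]
      rw [← h8]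
      exact inv_anti₀ (by positivity) h7
    refine ⟨?_, ?_⟩
    · rw [mul_comm]
      gcongr
      exact (h6.trans h1.le)
    · rw [mul_comm]
      gcongr
      exact (h2.le.trans h4)

end Pool.Agent.Lib.MP_4e7804_co
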