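import Mathlib
import Pool.Agent.Lib.MP_4e7804_co.Defs
import Pool.Agent.Lib.MP_4e7804_co.Lo.Arc
import Pool.Agent.Lib.MP_4e7804_co.Lo.Tie

/-! MP_4e7804_co, lower bound for all n, module Sheet. -/

set_option autoImplicit false

open Finset

namespace Pool.Agent.Lib.MP_4e7804_co

/-- A common denominator. -/
theorem sheet_common_den {d : ℕ} (w : Fin d → ℚ) :
    ∃ D : ℕ, 0 < D ∧ ∃ w' : Fin d → ℤ, ∀ k, (w' k : ℚ) = D * w k := by
  refine ⟨∏ k, (w k).den, Finset.prod_pos fun k _ => (w k).den_pos, ?_⟩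
  have h : ∀ k, ∃ z : ℤ, (z : ℚ) = ((∏ k, (w k).den : ℕ) : ℚ) * w k := by
    intro k
    obtain ⟨m, hm⟩ := Finset.dvd_prod_of_mem (fun k => (w k).den) (Finset.mem_univ k)
    refine ⟨(m : ℤ) * (w k).num, ?_⟩
    rw [hm]
    push_cast
    have h2 : (w k) * ((w k).den : ℚ) = (w k).num := Rat.mul_den_eq_num (w k)
    calc (m : ℚ) * ((w k).num : ℚ) = m * (w k * (w k).den) := by rw [h2]
      _ = ((w k).den : ℚ) * m * w k := by ring
  exact ⟨fun k => (h k).choose, fun k => (h k).choose_spec⟩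

/-- TASK A4 (file Lo/Sheet.lean, imports Lo/Arc.lean, Lo/Tie.lean), 70 lines: the version with
rational `w`.
PROOF. Let `D > 0` be a common denominator of all `w k` (e.g. `D = ∏ k, (w k).den`), `w' k` the
integer `D * w k`, `h' i` the integer `D * h i` (`h i = dot w (a i)`, so `D * h i` is the integer
`∑ w' k * a i k`). Apply `exists_arc` to `w'`, `h'`, `y' i = D * y i` and `tie_of_arcs` to `F`
(with `x = evalAt P c t`, `hF`), and divide by `D`. -/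
theorem sheet_tie {n d : ℕ} (P : Fin n → Set (Fin d → ℝ))
    (hfin : ∀ i, (latticePoints (P i)).Finite) (c : Fin n → (Fin d → ℤ) → ℂ)
    (F : MvPolynomial (Fin n) ℂ) (hF : ∀ t, MvPolynomial.eval (evalAt P c t) F = 0)
    (w : Fin d → ℚ) (h : Fin n → ℚ) (J : Finset (Fin n)) (a b : Fin n → Fin d → ℤ)
    (ha : ∀ i, a i ∈ latticePoints (P i)) (haw : ∀ i, dot w (a i) = h i)
    (hca : ∀ i, c i (a i) ≠ 0)
    (hb : ∀ i ∈ J, b i ∈ latticePoints (P i)) (hbw : ∀ i ∈ J, dot w (b i) = h i)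
    (hcb : ∀ i ∈ J, c i (b i) ≠ 0)
    (hmin : ∀ i, ∀ p ∈ latticePoints (P i), p ≠ a i → (i ∈ J → p ≠ b i) → h i < dot w p)
    (bs : Fin n → Fin d → ℚ)
    (hbs : ∀ l ∈ J, ∀ j ∈ J, ∑ k, bs l k * ((b j k : ℚ) - a j k) = if l = j then 1 else 0)
    (y : Fin n → ℝ) (hyJ : ∀ i ∈ J, ((h i : ℚ) : ℝ) < y i) (hy : ∀ i, i ∉ J → y i = (h i : ℚ))
    (α : Fin n →₀ ℕ) (hα : α ∈ F.support) :
    ∃ β ∈ F.support, β ≠ α ∧ ∑ i, (β i : ℝ) * y i ≤ ∑ i, (α i : ℝ) * y i := by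
  obtain ⟨D, hD, w', hw'⟩ := sheet_common_den w
  have hDq : (0 : ℚ) < D := by exact_mod_cast hD
  have hDr : (0 : ℝ) < D := by exact_mod_cast hD
  have hdot : ∀ p : Fin d → ℤ, ((∑ k, w' k * p k : ℤ) : ℚ) = D * dot w p := by
    intro p
    push_cast
    rw [dot, Finset.mul_sum]
    refine Finset.sum_congr rfl fun k _ => ?_
    rw [hw' k]
    ring
  have hh : ∀ i, ((∑ k, w' k * a i k : ℤ) : ℚ) = D * h i := fun i => by rw [hdot, haw]
  have hhr : ∀ i, ((∑ k, w' k * a i k : ℤ) : ℝ) = D * ((h i : ℚ) : ℝ) := by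
    intro i
    have := hh i
    have h2 : (((∑ k, w' k * a i k : ℤ) : ℚ) : ℝ) = (((D : ℚ) * h i : ℚ) : ℝ) := by rw [this]
    push_cast at h2 ⊢
    exact h2
  obtain ⟨C, hC, harc⟩ := exists_arc P hfin c w' (fun i => ∑ k, w' k * a i k) J a b ha
    (fun i => rfl) hca hb (fun i hi => by
      have h1 : ((∑ k, w' k * b i k : ℤ) : ℚ) = ((∑ k, w' k * a i k : ℤ) : ℚ) := by
        rw [hdot, hbw i hi, hh]
      exact_mod_cast h1) hcb (fun i p hp hpa hpb => by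
      have h1 : ((∑ k, w' k * a i k : ℤ) : ℚ) < ((∑ k, w' k * p k : ℤ) : ℚ) := by
        rw [hdot p, hh]
        exact mul_lt_mul_of_pos_left (hmin i p hp hpa hpb) hDq
      exact_mod_cast h1) bs hbs (fun i => D * y i) (fun i hi => by
      show ((∑ k, w' k * a i k : ℤ) : ℝ) < D * y i
      rw [hhr]
      exact mul_lt_mul_of_pos_left (hyJ i hi) hDr) (fun i hi => by
      show D * y i = ((∑ k, w' k * a i k : ℤ) : ℝ)
      rw [hhr, hy i hi])
  obtain ⟨β, hβ, hne, hle⟩ := tie_of_arcs F (fun i => D * y i) C hC (fun r hr => by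
    obtain ⟨s, hs, hsr, t, ht⟩ := harc r hr
    exact ⟨s, hs, hsr, evalAt P c t, hF t, ht⟩) α hα
  refine ⟨β, hβ, hne, ?_⟩
  have h3 : (D : ℝ) * ∑ i, (β i : ℝ) * y i ≤ D * ∑ i, (α i : ℝ) * y i := by
    rw [Finset.mul_sum, Finset.mul_sum]
    calc ∑ i, (D : ℝ) * ((β i : ℝ) * y i) = ∑ i, (β i : ℝ) * (D * y i) :=
          Finset.sum_congr rfl fun i _ => by ring
      _ ≤ ∑ i, (α i : ℝ) * (D * y i) := hle
      _ = ∑ i, (D : ℝ) * ((α i : ℝ) * y i) := Finset.sum_congr rfl fun i _ => by ring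
  exact le_of_mul_le_mul_left h3 hDr

end Pool.Agent.Lib.MP_4e7804_co
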