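import Mathlib
import Pool.Agent.Lib.MP_4e7804_co.Lo.Implicit
import Pool.Agent.Lib.MP_4e7804_co.Lo.Indep
import Pool.Agent.Lib.MP_4e7804_co.Lo.Hull
import Pool.Agent.Lib.MP_4e7804_co.Lo.GeoDefs

/-! MP_4e7804_co, lower bound for all n, module ExistF. -/

set_option autoImplicit false

open Finset

namespace Pool.Agent.Lib.MP_4e7804_co

/-- TASK E2 (file Lo/ExistF.lean), 60 lines: the implicit equation exists.
PROOF. `exists_implicit` (Lo/Implicit.lean) and `indep_of_min` (Lo/Indep.lean) with `σ = Fin.succ`,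
`w = fun _ => 1`, `a = Fin.cons 0 (fun j => Pi.single j 1)` (linearly independent: the standard
basis, `Pi.basisFun`), `hmin` by `dot_lt_of_unique` and `h4`. -/
theorem exists_F_conf {d : ℕ} (M : Fin d → ℤ) (L A : ℤ)
    (k : Fin d → Fin d → ℕ) (v0 : ℕ)
    (h4 : ∀ j, ∀ a ∈ setA M L k j, a ≠ Pi.single j 1 →
      dot (fun _ => (1 : ℚ)) (Pi.single j 1) < dot (fun _ => (1 : ℚ)) a)
    (c : Fin (d + 1) → (Fin d → ℤ) → ℂ) (hc : ∀ j : Fin d, ∀ a ∈ setA M L k j, c j.succ a ≠ 0) :
    ∃ F, IsImplicitEq (confP M L k A v0) c F := by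
  have hfin : ∀ i, (latticePoints (confP M L k A v0 i)).Finite := by
    intro i
    refine Fin.cases ?_ (fun j => ?_) i
    · exact latticePoints_hull_finite (set0 d A v0)
    · exact latticePoints_hull_finite (setA M L k j)
  have hmem : ∀ j : Fin d, (Pi.single j 1 : Fin d → ℤ) ∈ setA M L k j :=
    fun j => Finset.mem_insert_self _ _
  refine exists_implicit (confP M L k A v0) hfin c fun G hG => ?_
  refine indep_of_min (confP M L k A v0) hfin c
    (Fin.cons 0 (fun j : Fin d => (Pi.single j 1 : Fin d → ℤ))) (fun _ => 1) Fin.succ ?_ ?_ ?_ ?_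
    G hG
  · exact fun j => subset_latticePoints_hull (setA M L k j) (hmem j)
  · exact fun j => hc j _ (hmem j)
  · exact fun j p hp hpa => dot_lt_of_unique (setA M L k j) (fun _ => 1) (Pi.single j 1) (hmem j)
      (h4 j) p hp hpa
  · have h1 := (Pi.basisFun ℝ (Fin d)).linearIndependent
    have h2 : (fun j : Fin d => toReal ((Fin.cons 0 (fun j : Fin d => (Pi.single j 1 : Fin d → ℤ)) :
        Fin (d + 1) → Fin d → ℤ) (Fin.succ j))) = fun j => (Pi.basisFun ℝ (Fin d)) j := by
      funext j l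
      rw [Fin.cons_succ, Pi.basisFun_apply]
      unfold toReal
      by_cases h : l = j
      · subst h
        simp
      · simp [Pi.single_eq_of_ne h]
    rw [h2]
    exact h1

end Pool.Agent.Lib.MP_4e7804_co
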