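import Mathlib
import Pool.Agent.Lib.MP_4e7804_co.Lo.Wg

/-! MP_4e7804_co, lower bound for all n, module Levels. -/

set_option autoImplicit false

open Finset

namespace Pool.Agent.Lib.MP_4e7804_co

theorem Levels_mem {d : ℕ} (k : Fin d → Fin d → ℕ) (K : ℕ) (hK : ∀ j i, k j i ≤ K)
    (hK1 : 1 ≤ K) (i : Fin d) (κ : Fin d → ℕ)
    (hκ : κ ∈ Fintype.piFinset fun j => if j = i then ({0} : Finset ℕ) else range (k j i - 1)) :
    (∀ l, κ l < K) ∧ κ i = 0 := by
  rw [Fintype.mem_piFinset] at hκ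
  have hi : κ i = 0 := by
    have h := hκ i
    simpa using h
  refine ⟨fun l => ?_, hi⟩
  by_cases hl : l = i
  · rw [hl, hi]; omega
  · have h := hκ l
    simp only [hl, if_false, mem_range] at h
    have := hK l i
    omega

/-- TASK E3 (file Lo/Levels.lean), 60 lines: the levels.
PROOF. `wg_self`: the level is `1 - eps i (qk M κ) / (d - 1)`; injectivity of `κ ↦` level on the
`κ` with `κ i = 0`, `κ j < k j i - 1 < K` (`hinj`), so the cardinality is the one of the piFinset:
`∏ j, (if j = i then 1 else k j i - 1)` (`Fintype.card_piFinset`, `Finset.card_image_of_injOn`).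
Positivity: `wg_signs`. -/
theorem levels_card {d : ℕ} (hd : 2 ≤ d) (M : Fin d → ℤ) (hM : ∀ l, 0 < M l)
    (k : Fin d → Fin d → ℕ) (K : ℕ) (hK : ∀ j i, k j i ≤ K) (hK1 : 1 ≤ K)
    (he : ∀ κ : Fin d → ℕ, (∀ l, κ l < K) → ∀ i, eps i (qk M κ) ≤ 1 / 3)
    (hinj : ∀ i : Fin d, ∀ κ κ' : Fin d → ℕ, (∀ l, κ l < K) → (∀ l, κ' l < K) → κ i = κ' i →
        eps i (qk M κ) = eps i (qk M κ') → κ = κ') (i : Fin d) :
    (levels M k i).card = ∏ j ∈ univ.filter (· ≠ i), (k j i - 1) ∧
      ∀ r ∈ levels M k i, 0 < r := by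
  have hd1 : (0 : ℚ) < (d : ℚ) - 1 := by
    have : (2 : ℚ) ≤ d := by exact_mod_cast hd
    linarith
  constructor
  · unfold levels
    rw [Finset.card_image_of_injOn, Fintype.card_piFinset]
    · rw [prod_filter]
      apply prod_congr rfl
      intro j _
      by_cases hj : j = i
      · simp [hj]
      · simp [hj]
    · intro κ hκ κ' hκ' h
      obtain ⟨h1, h1i⟩ := Levels_mem k K hK hK1 i κ (by simpa only [mem_coe] using hκ)
      obtain ⟨h2, h2i⟩ := Levels_mem k K hK hK1 i κ' (by simpa only [mem_coe] using hκ')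
      have h0 : ((wg i (qk M κ) i : ℚ) : ℝ) = ((wg i (qk M κ') i : ℚ) : ℝ) := h
      have h3 : wg i (qk M κ) i = wg i (qk M κ') i := by exact_mod_cast h0
      rw [wg_self, wg_self] at h3
      have h4 : eps i (qk M κ) / ((d : ℚ) - 1) = eps i (qk M κ') / ((d : ℚ) - 1) := by linarith
      rw [div_left_inj' hd1.ne'] at h4
      exact hinj i κ κ' h1 h2 (by rw [h1i, h2i]) h4
  · intro r hr
    unfold levels at hr
    obtain ⟨κ, hκ, rfl⟩ := mem_image.mp hr
    obtain ⟨h1, _⟩ := Levels_mem k K hK hK1 i κ hκ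
    have hq : ∀ l, 0 ≤ qk M κ l := by
      intro l
      unfold qk
      have : (0 : ℚ) < M l := by exact_mod_cast hM l
      positivity
    have := (wg_signs hd i (qk M κ) hq (he κ h1 i)).1
    exact_mod_cast this

end Pool.Agent.Lib.MP_4e7804_co
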