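import Mathlib
import Pool.Agent.Lib.MP_4e7804_co.Lo.GeoDefs

/-! MP_4e7804_co, lower bound for all n, module Param. -/

set_option autoImplicit false

open Finset

namespace Pool.Agent.Lib.MP_4e7804_co

/-! ### TASK C6 (file Lo/Param.lean), 100 lines: the parameters `M_l = 2^(s (l+1))`. -/

theorem Param_digits (B : ℕ) (hB : 0 < B) : ∀ (d : ℕ) (f g : Fin d → ℕ), (∀ l, f l < B) →
    (∀ l, g l < B) → ∑ l, f l * B ^ (d - 1 - l.val) = ∑ l, g l * B ^ (d - 1 - l.val) → f = g := by
  intro d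
  induction d with
  | zero => intro f g _ _ _; funext l; exact l.elim0
  | succ d ih =>
    intro f g hf hg h
    have key : ∀ u : Fin (d + 1) → ℕ, ∑ l, u l * B ^ (d + 1 - 1 - l.val) =
        B * (∑ l : Fin d, u l.castSucc * B ^ (d - 1 - l.val)) + u (Fin.last d) := by
      intro u
      rw [Fin.sum_univ_castSucc, Finset.mul_sum]
      congr 1
      · refine Finset.sum_congr rfl fun l _ => ?_
        have h1 : d + 1 - 1 - (l.castSucc).val = (d - 1 - l.val) + 1 := by
          have := l.isLt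
          simp only [Fin.val_castSucc]
          omega
        rw [h1, pow_succ]
        ring
      · simp
    rw [key f, key g] at h
    have h2 : f (Fin.last d) = g (Fin.last d) := by
      have h3 := congrArg (· % B) h
      simpa [Nat.mul_add_mod, Nat.mod_eq_of_lt (hf _), Nat.mod_eq_of_lt (hg _)] using h3
    rw [h2] at h
    have h4 : ∑ l : Fin d, f l.castSucc * B ^ (d - 1 - l.val) =
        ∑ l : Fin d, g l.castSucc * B ^ (d - 1 - l.val) :=
      Nat.eq_of_mul_eq_mul_left hB (Nat.add_right_cancel h)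
    have h5 := ih (fun l => f l.castSucc) (fun l => g l.castSucc) (fun l => hf _) (fun l => hg _) h4
    funext l
    refine Fin.lastCases h2 (fun l => ?_) l
    exact congrFun h5 l

/-- The slopes are small. PROOF. `0 < (2 κ_l + 1)/M_l ≤ 2K/2^s ≤ 1/(3d)` if `κ_l < K`, where
`s` is chosen with `2^s ≥ 6 d K`; the sum of at most `d` terms is at most `1/3`. `qv`: `2x ≤ 2K`.
Injectivity (for `κ_l < K`, `κ_i = 0`): multiply `∑_{l ≠ i} (2κ_l+1)/2^(s(l+1))` by `2^(s d)`; the
digits `2κ_l+1 < 2^s` in base `2^s` are determined by the sum (induction, or the largest power: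
if `κ ≠ κ'` let `l` be the first index where they differ; the difference of the terms number `l`
is at least `2/2^(s(l+1))` and the difference of the later terms is less than
`∑_{t > l} (2K)/2^(s(t+1)) < 1/2^(s(l+1))`). -/
theorem exists_M (d : ℕ) (hd : 2 ≤ d) (K : ℕ) (hK : 1 ≤ K) :
    ∃ (e : Fin d → ℕ) (M : Fin d → ℤ), (∀ l, M l = 2 ^ e l) ∧
      (∀ κ : Fin d → ℕ, (∀ l, κ l < K) → ∀ i, eps i (qk M κ) ≤ 1 / 3) ∧
      (∀ j, ∀ x < K, ∀ i, eps i (qv M j x) ≤ 1 / 3) ∧
      ∀ i : Fin d, ∀ κ κ' : Fin d → ℕ, (∀ l, κ l < K) → (∀ l, κ' l < K) → κ i = κ' i →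
        eps i (qk M κ) = eps i (qk M κ') → κ = κ' := by
  set s : ℕ := 6 * d * K with hs
  have hs2 : 6 * d * K ≤ 2 ^ s := (Nat.lt_two_pow_self).le
  set M : Fin d → ℤ := fun l => 2 ^ (s * (l.val + 1)) with hM
  have hd0 : (0 : ℚ) < d := by exact_mod_cast (by omega : 0 < d)
  have hK0 : (0 : ℚ) < K := by exact_mod_cast (by omega : 0 < K)
  have hMc : ∀ l, (M l : ℚ) = ((2 : ℚ) ^ s) ^ (l.val + 1) := by
    intro l
    simp only [hM]
    push_cast
    rw [pow_mul]
  have hB1 : (6 * d * K : ℚ) ≤ (2 : ℚ) ^ s := by exact_mod_cast hs2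
  have hMge : ∀ l, (6 * d * K : ℚ) ≤ M l := by
    intro l
    rw [hMc]
    refine hB1.trans ?_
    exact le_self_pow₀ (one_le_pow₀ (by norm_num)) (by omega)
  have hMpos : ∀ l, (0 : ℚ) < M l := fun l => lt_of_lt_of_le (by positivity) (hMge l)
  have hterm : ∀ (a : ℚ) (l : Fin d), 0 ≤ a → a ≤ 2 * K → a / M l ≤ 1 / (3 * d) := by
    intro a l _ ha
    rw [div_le_div_iff₀ (hMpos l) (by positivity)]
    calc a * (3 * d) ≤ 2 * K * (3 * d) := by gcongr
      _ = 6 * d * K := by ring
      _ ≤ 1 * M l := by rw [one_mul]; exact hMge l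
  have hsum : ∀ (q : Fin d → ℚ) (i : Fin d), (∀ l, q l ≤ 1 / (3 * d)) → eps i q ≤ 1 / 3 := by
    intro q i hq
    unfold eps
    calc ∑ j ∈ univ.filter (· ≠ i), q j ≤ ∑ j ∈ univ.filter (· ≠ i), (1 / (3 * d) : ℚ) :=
          Finset.sum_le_sum fun j _ => hq j
      _ = ((univ.filter (· ≠ i) : Finset (Fin d)).card : ℚ) * (1 / (3 * d)) := by
          rw [Finset.sum_const, nsmul_eq_mul]
      _ ≤ (d : ℚ) * (1 / (3 * d)) := by
          gcongr
          exact (Finset.card_le_univ _).trans (by simp)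
      _ = 1 / 3 := by field_simp
  refine ⟨fun l => s * (l.val + 1), M, fun l => rfl, ?_, ?_, ?_⟩
  · intro κ hκ i
    refine hsum _ i fun l => ?_
    unfold qk
    refine hterm _ l (by positivity) ?_
    have : (κ l : ℚ) + 1 ≤ K := by exact_mod_cast hκ l
    linarith
  · intro j x hx i
    refine hsum _ i fun l => ?_
    unfold qv
    split_ifs with h
    · refine hterm _ l (by positivity) ?_
      have : (x : ℚ) ≤ K := by exact_mod_cast hx.le
      linarith
    · positivity
  · intro i κ κ' hκ hκ' hi h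
    have hB : 0 < 2 ^ s := by positivity
    have hfull : ∑ l, qk M κ l = ∑ l, qk M κ' l := by
      have h1 : ∀ q : Fin d → ℚ, ∑ l, q l = q i + eps i q := by
        intro q
        unfold eps
        rw [← Finset.sum_filter_add_sum_filter_not univ (fun l => l = i)]
        congr 1
        rw [Finset.filter_eq' univ i]
        simp
      rw [h1, h1, h]
      unfold qk
      rw [hi]
    have h2 : ∀ u : Fin d → ℕ, (∑ l, qk M u l) * ((2 : ℚ) ^ s) ^ d =
        ((∑ l, (2 * u l + 1) * (2 ^ s) ^ (d - 1 - l.val) : ℕ) : ℚ) := by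
      intro u
      rw [Finset.sum_mul]
      push_cast
      refine Finset.sum_congr rfl fun l _ => ?_
      unfold qk
      rw [hMc]
      have h3 : d = (l.val + 1) + (d - 1 - l.val) := by
        have := l.isLt
        omega
      have h4 : ((2 : ℚ) ^ s) ^ d = ((2 : ℚ) ^ s) ^ (l.val + 1) * ((2 : ℚ) ^ s) ^ (d - 1 - l.val) := by
        rw [← pow_add, ← h3]
      rw [h4]
      have h5 : ((2 : ℚ) ^ s) ^ (l.val + 1) ≠ 0 := by positivity
      field_simp
    have h6 : (∑ l, (2 * κ l + 1) * (2 ^ s) ^ (d - 1 - l.val) : ℕ) =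
        ∑ l, (2 * κ' l + 1) * (2 ^ s) ^ (d - 1 - l.val) := by
      have h7 := h2 κ
      rw [hfull, h2 κ'] at h7
      exact_mod_cast h7.symm
    have hlt : ∀ u : ℕ, u < K → 2 * u + 1 < 2 ^ s := by
      intro u hu
      refine lt_of_lt_of_le ?_ hs2
      have : 6 * 2 * K ≤ 6 * d * K := Nat.mul_le_mul_right _ (Nat.mul_le_mul_left _ hd)
      omega
    have h8 := Param_digits (2 ^ s) hB d (fun l => 2 * κ l + 1) (fun l => 2 * κ' l + 1)
      (fun l => hlt _ (hκ l)) (fun l => hlt _ (hκ' l)) h6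
    funext l
    have h9 := congrFun h8 l
    omega

end Pool.Agent.Lib.MP_4e7804_co
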