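import Mathlib
import Pool.Agent.Lib.MP_4e7804_co.Lo.Wg

/-! MP_4e7804_co, lower bound for all n, module Large. -/

set_option autoImplicit false

open Finset

namespace Pool.Agent.Lib.MP_4e7804_co

/-- `c < c' + L * δ` for all large integers `L`, if `δ > 0`. -/
theorem Large_ev (c c' δ : ℚ) (hδ : 0 < δ) : ∀ᶠ L : ℤ in Filter.atTop, c < c' + L * δ := by
  obtain ⟨N, hN⟩ := exists_nat_gt ((c - c') / δ)
  refine Filter.eventually_atTop.2 ⟨(N : ℤ), fun L hL => ?_⟩
  have h1 : ((N : ℤ) : ℚ) ≤ (L : ℚ) := by exact_mod_cast hL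
  have h2 : (c - c') / δ < (L : ℚ) := lt_of_lt_of_le hN (by simpa using h1)
  rw [div_lt_iff₀ hδ] at h2
  linarith

/-- A finite conjunction over `x < n` of eventually true statements. -/
theorem Large_range {n : ℕ} {P : ℤ → ℕ → Prop}
    (h : ∀ x < n, ∀ᶠ L : ℤ in Filter.atTop, P L x) :
    ∀ᶠ L : ℤ in Filter.atTop, ∀ x < n, P L x := by
  have := (Filter.eventually_all_finset (l := Filter.atTop) (Finset.range n)
    (p := fun x (L : ℤ) => P L x)).2 (fun x hx => h x (Finset.mem_range.1 hx))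
  filter_upwards [this] with L hL x hx
  exact hL x (Finset.mem_range.2 hx)

/-! ### TASK C2 (file Lo/Large.lean, imports Lo/Wg.lean), 120 lines: choice of `L` and `A`.

PROOF. Each of the inequalities is of the form `c < c' + L * δ` with `δ > 0` rational (by
`dot_pt` and `wg_signs`; in the second one `δ = dot w (om i) - dot w (om i') > 0`, in the fourth one
`w = 1`, `dot 1 (om i) = (d+1) - 2d = -(d-1) < 0`), so it is true for all large `L`
(`Filter.Eventually ... atTop`, `Filter.Tendsto.const_mul_atTop`...); there are finitely many of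
them (`Filter.eventually_all_finset`, `Filter.eventually_all`, `Nat.lt` quantifiers:
use `Finset.range`), so a common `L` exists. -/
theorem exists_L {d : ℕ} (hd : 2 ≤ d) (M : Fin d → ℤ) (k : Fin d → Fin d → ℕ)
    (Q : Finset (Fin d → ℚ)) (hQ : ∀ q ∈ Q, ∀ l, 0 ≤ q l) (hQe : ∀ q ∈ Q, ∀ i, eps i q ≤ 1 / 3) :
    ∃ L : ℤ,
      (∀ i, ∀ q ∈ Q, ∀ j, j ≠ i → ∀ x < k j i,
        dot (wg i q) (pt M L j i x) < wg i q j) ∧
      (∀ i, ∀ q ∈ Q, ∀ j, j ≠ i → ∀ x < k j i, ∀ i', i' ≠ i → i' ≠ j → ∀ x' < k j i',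
        dot (wg i q) (pt M L j i x) < dot (wg i q) (pt M L j i' x')) ∧
      (∀ i, ∀ q ∈ Q, ∀ i', i' ≠ i → ∀ x < k i i',
        wg i q i < dot (wg i q) (pt M L i i' x)) ∧
      (∀ j i : Fin d, j ≠ i → ∀ x < k j i, 1 < dot (fun _ => (1 : ℚ)) (pt M L j i x)) := by
  have hd' : (0 : ℚ) < (d : ℚ) - 1 := by
    have : (2 : ℚ) ≤ d := by exact_mod_cast hd
    linarith
  have E1 : ∀ᶠ L : ℤ in Filter.atTop, ∀ i, ∀ q ∈ Q, ∀ j, j ≠ i → ∀ x < k j i,
      dot (wg i q) (pt M L j i x) < wg i q j := by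
    refine Filter.eventually_all.2 fun i => (Filter.eventually_all_finset Q).2 fun q hq =>
      Filter.eventually_all.2 fun j => Filter.eventually_imp_distrib_left.2 fun _ =>
      Large_range fun x _ => ?_
    obtain ⟨_, _, h3, _⟩ := wg_signs hd i q (hQ q hq) (hQe q hq i)
    filter_upwards [Large_ev (x * M j * dot (wg i q) (uU i j) + (x : ℚ) ^ 2 * dot (wg i q) (vV d))
      0 _ h3] with L hL
    rw [dot_pt]
    linarith
  have E2 : ∀ᶠ L : ℤ in Filter.atTop, ∀ i, ∀ q ∈ Q, ∀ j, j ≠ i → ∀ x < k j i, ∀ i', i' ≠ i →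
      i' ≠ j → ∀ x' < k j i',
        dot (wg i q) (pt M L j i x) < dot (wg i q) (pt M L j i' x') := by
    refine Filter.eventually_all.2 fun i => (Filter.eventually_all_finset Q).2 fun q hq =>
      Filter.eventually_all.2 fun j => Filter.eventually_imp_distrib_left.2 fun _ =>
      Large_range fun x _ => Filter.eventually_all.2 fun i' =>
      Filter.eventually_imp_distrib_left.2 fun hi' =>
      Filter.eventually_imp_distrib_left.2 fun _ => Large_range fun x' _ => ?_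
    obtain ⟨_, _, h3, h4⟩ := wg_signs hd i q (hQ q hq) (hQe q hq i)
    have h5 := h4 i' hi'
    filter_upwards [Large_ev (x * M j * dot (wg i q) (uU i j) + (x : ℚ) ^ 2 * dot (wg i q) (vV d))
      (x' * M j * dot (wg i q) (uU i' j) + (x' : ℚ) ^ 2 * dot (wg i q) (vV d))
      (dot (wg i q) (om i) - dot (wg i q) (om i')) (by linarith)] with L hL
    rw [dot_pt, dot_pt]
    linarith
  have E3 : ∀ᶠ L : ℤ in Filter.atTop, ∀ i, ∀ q ∈ Q, ∀ i', i' ≠ i → ∀ x < k i i',
      wg i q i < dot (wg i q) (pt M L i i' x) := by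
    refine Filter.eventually_all.2 fun i => (Filter.eventually_all_finset Q).2 fun q hq =>
      Filter.eventually_all.2 fun i' => Filter.eventually_imp_distrib_left.2 fun hi' =>
      Large_range fun x _ => ?_
    obtain ⟨_, _, h3, h4⟩ := wg_signs hd i q (hQ q hq) (hQe q hq i)
    have h5 := h4 i' hi'
    filter_upwards [Large_ev 0
      (x * M i * dot (wg i q) (uU i' i) + (x : ℚ) ^ 2 * dot (wg i q) (vV d))
      (-dot (wg i q) (om i')) (by linarith)] with L hL
    rw [dot_pt]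
    linarith
  have E4 : ∀ᶠ L : ℤ in Filter.atTop, ∀ j i : Fin d, j ≠ i → ∀ x < k j i,
      1 < dot (fun _ => (1 : ℚ)) (pt M L j i x) := by
    refine Filter.eventually_all.2 fun j => Filter.eventually_all.2 fun i =>
      Filter.eventually_imp_distrib_left.2 fun _ => Large_range fun x _ => ?_
    have h5 : dot (fun _ => (1 : ℚ)) (om i) = -((d : ℚ) - 1) := by
      rw [dot_om]
      simp
      ring
    filter_upwards [Large_ev 0
      (x * M j * dot (fun _ => (1 : ℚ)) (uU i j) + (x : ℚ) ^ 2 * dot (fun _ => (1 : ℚ)) (vV d))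
      ((d : ℚ) - 1) hd'] with L hL
    rw [dot_pt, h5]
    linarith
  obtain ⟨L, h1, h2, h3, h4⟩ := (E1.and (E2.and (E3.and E4))).exists
  exact ⟨L, h1, h2, h3, h4⟩

/-- In the same way: `dot w (pt0 d A x) - dot w (pt0 d A 0) = x * A + x² * w_0 > 0` for `A` large,
`x ≥ 1` (`w = wg i q`, `sum_wg`). -/
theorem exists_A {d : ℕ} (hd : 2 ≤ d) (v : ℕ) (Q : Finset (Fin d → ℚ)) :
    ∃ A : ℤ, 0 < A ∧ ∀ i : Fin d, ∀ q ∈ Q, ∀ x < v, x ≠ 0 →
      dot (wg i q) (pt0 d A 0) < dot (wg i q) (pt0 d A x) := by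
  have E : ∀ᶠ A : ℤ in Filter.atTop, ∀ i : Fin d, ∀ q ∈ Q, ∀ x < v, x ≠ 0 →
      dot (wg i q) (pt0 d A 0) < dot (wg i q) (pt0 d A x) := by
    refine Filter.eventually_all.2 fun i => (Filter.eventually_all_finset Q).2 fun q _ =>
      Large_range fun x _ => Filter.eventually_imp_distrib_left.2 fun hx => ?_
    have hx' : (0 : ℚ) < x := by
      have : 0 < x := Nat.pos_of_ne_zero hx
      exact_mod_cast this
    filter_upwards [Large_ev 0 ((x : ℚ) ^ 2 * wg i q ⟨0, by omega⟩) x hx'] with A hA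
    rw [dot_pt0 hd, dot_pt0 hd, sum_wg hd]
    push_cast
    linarith
  obtain ⟨A, h1, h2⟩ := ((Filter.eventually_gt_atTop (0 : ℤ)).and E).exists
  exact ⟨A, h1, h2⟩

end Pool.Agent.Lib.MP_4e7804_co
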