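import Mathlib
import Pool.Agent.Lib.MP_4e7804_co.Lo.Wg

/-! MP_4e7804_co, lower bound for all n, module Prim. -/

set_option autoImplicit false

open Finset

namespace Pool.Agent.Lib.MP_4e7804_co

/-! ### TASK C5 (file Lo/Prim.lean, imports Lo/Wg.lean), 100 lines. -/

theorem Prim_diff {d : ℕ} (M : Fin d → ℤ) (L : ℤ) (j i : Fin d) (x : ℕ) (l : Fin d) :
    pt M L j i (x + 1) l - pt M L j i x l = M j * uU i j l - (2 * (x : ℤ) + 1) := by
  unfold pt vV
  push_cast
  ring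

/-- The edges are primitive. PROOF. `β := pt (x+1) - pt x = M_j U_j^i + (2x+1) V`, with coordinates
`β_i = 2M - m`, `β_j = (d-1)M - m`, the others `-m`, where `M = M j = 2^e`, `m = 2x+1` odd.
If `d = 2`: `θ β_i, θ β_j ∈ ℤ` give `θ M ∈ ℤ` and then `θ m ∈ ℤ`. If `d ≥ 3` there is a third
coordinate: `θ m ∈ ℤ`, so `θ 2M ∈ ℤ`. As `m` is prime to `2 M`, Bezout gives `θ ∈ ℤ`. -/
theorem prim_edge {d : ℕ} (hd : 2 ≤ d) (M : Fin d → ℤ) (L : ℤ) (j i : Fin d) (hji : j ≠ i)
    (e : ℕ) (hM : M j = 2 ^ e) (x : ℕ) (θ : ℝ)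
    (hθ : ∀ l, ∃ z : ℤ, θ * ((pt M L j i (x + 1) l : ℝ) - pt M L j i x l) = z) :
    ∃ z : ℤ, θ = z := by
  have hdiff : ∀ l, ((pt M L j i (x + 1) l : ℝ) - pt M L j i x l) =
      2 ^ e * (uU i j l : ℝ) - (2 * (x : ℝ) + 1) := by
    intro l
    have h := congrArg (fun z : ℤ => (z : ℝ)) (Prim_diff M L j i x l)
    rw [hM] at h
    push_cast at h
    exact h
  have hi : ∃ z : ℤ, θ * (2 ^ e * 2 - (2 * (x : ℝ) + 1)) = z := by
    obtain ⟨z, hz⟩ := hθ i
    rw [hdiff] at hz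
    refine ⟨z, ?_⟩
    rw [← hz]
    simp [uU]
  have hj : ∃ z : ℤ, θ * (2 ^ e * ((d : ℝ) - 1) - (2 * (x : ℝ) + 1)) = z := by
    obtain ⟨z, hz⟩ := hθ j
    rw [hdiff] at hz
    refine ⟨z, ?_⟩
    rw [← hz]
    simp [uU, hji]
  obtain ⟨z₁, h₁⟩ := hi
  obtain ⟨z₂, h₂⟩ := hj
  have key : (∃ z : ℤ, θ * (2 * (x : ℝ) + 1) = z) ∧ ∃ z : ℤ, θ * 2 ^ (e + 1) = z := by
    rcases hd.eq_or_lt with rfl | hd3
    · have h3 : θ * 2 ^ e = ((z₁ - z₂ : ℤ) : ℝ) := by
        push_cast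
        rw [← h₁, ← h₂]
        push_cast
        ring
      refine ⟨⟨z₁ - z₂ - z₂, ?_⟩, ⟨2 * (z₁ - z₂), ?_⟩⟩
      · rw [Int.cast_sub, ← h3, ← h₂]
        push_cast
        ring
      · rw [Int.cast_mul, ← h3]
        push_cast
        ring
    · obtain ⟨l, hl⟩ : ∃ l : Fin d, l ∉ ({i, j} : Finset (Fin d)) := by
        by_contra h
        push Not at h
        have h1 : (Finset.univ : Finset (Fin d)) ⊆ {i, j} := fun l _ => h l
        have h2 := Finset.card_le_card h1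
        rw [Finset.card_univ, Fintype.card_fin] at h2
        have h3 := Finset.card_le_two (a := i) (b := j)
        omega
      rw [Finset.mem_insert, Finset.mem_singleton] at hl
      push Not at hl
      obtain ⟨z₃, h₃⟩ := hθ l
      rw [hdiff] at h₃
      have hu : uU i j l = 0 := by
        unfold uU
        rw [if_neg hl.1, if_neg hl.2]
      rw [hu] at h₃
      push_cast at h₃
      refine ⟨⟨-z₃, ?_⟩, ⟨z₁ - z₃, ?_⟩⟩
      · rw [Int.cast_neg, ← h₃]
        ring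
      · rw [Int.cast_sub, ← h₃, ← h₁]
        ring
  obtain ⟨⟨a, ha⟩, b, hb⟩ := key
  have hcop : IsCoprime (2 * (x : ℤ) + 1) (2 ^ (e + 1)) := by
    apply IsCoprime.pow_right
    exact ⟨1, -x, by ring⟩
  obtain ⟨r, t, hrt⟩ := hcop
  refine ⟨r * a + t * b, ?_⟩
  have h5 : (r : ℝ) * (2 * (x : ℝ) + 1) + t * 2 ^ (e + 1) = 1 := by exact_mod_cast hrt
  push_cast
  rw [← ha, ← hb]
  linear_combination (-θ) * h5

/-- The dual family: `u^l_i = 1/(d-1)`, `u^l_j = (δ_{jl} - 2/(d-1))/(d-1)` for `j ≠ i`, divided by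
`M_l`. PROOF. `∑ u^l = 1/(d-1) + (1 - 2)/(d-1) = 0` (there are `d - 1` indices `≠ i`), and
`2 u^l_i + (d-1) u^l_j = δ_{jl}`; `pt (x+1) - pt x = M_j U_j^i + (2x+1) V`. -/
theorem dual_edge {d : ℕ} (hd : 2 ≤ d) (M : Fin d → ℤ) (hM : ∀ l, 0 < M l) (L : ℤ) (i : Fin d) :
    ∃ u : Fin d → Fin d → ℚ, ∀ l, l ≠ i → ∀ j, j ≠ i → ∀ x : ℕ,
      ∑ t, u l t * ((pt M L j i (x + 1) t : ℚ) - pt M L j i x t) = if l = j then 1 else 0 := by
  have hs : (d : ℚ) - 1 ≠ 0 := by
    have : (2 : ℚ) ≤ d := by exact_mod_cast hd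
    linarith
  set s : ℚ := (d : ℚ) - 1 with hsdef
  refine ⟨fun l t => ((if t = l then 1 / s else 0) - 2 / s ^ 2 +
    (if t = i then 1 / s + 2 / s ^ 2 else 0)) / M l, fun l hl j hj x => ?_⟩
  have hMl : (M l : ℚ) ≠ 0 := by exact_mod_cast (hM l).ne'
  have hdiff : ∀ t, ((pt M L j i (x + 1) t : ℚ) - pt M L j i x t) =
      M j * ((if t = i then 2 else 0) + (if t = j then s else 0)) - (2 * (x : ℚ) + 1) := by
    intro t
    have h := congrArg (fun z : ℤ => (z : ℚ)) (Prim_diff M L j i x t)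
    push_cast at h
    rw [h]
    congr 2
    unfold uU
    by_cases h1 : t = i
    · subst h1
      rw [if_pos rfl, if_pos rfl, if_neg hj.symm]
      push_cast
      ring
    · rw [if_neg h1, if_neg h1]
      by_cases h2 : t = j
      · rw [if_pos h2, if_pos h2]
        push_cast
        ring
      · rw [if_neg h2, if_neg h2]
        push_cast
        ring
  have h1 : ∑ t : Fin d, ((if t = l then 1 / s else 0) - 2 / s ^ 2 +
      (if t = i then 1 / s + 2 / s ^ 2 else 0)) / (M l : ℚ) = 0 := by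
    rw [← Finset.sum_div, Finset.sum_add_distrib, Finset.sum_sub_distrib, Finset.sum_ite_eq',
      Finset.sum_ite_eq', if_pos (Finset.mem_univ _), if_pos (Finset.mem_univ _),
      Finset.sum_const, Finset.card_univ, Fintype.card_fin, nsmul_eq_mul]
    have hd' : (d : ℚ) = s + 1 := by rw [hsdef]; ring
    rw [hd']
    field_simp
    ring
  have h2 : ∀ t : Fin d, ((if t = l then 1 / s else 0) - 2 / s ^ 2 +
      (if t = i then 1 / s + 2 / s ^ 2 else 0)) / (M l : ℚ) *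
      ((pt M L j i (x + 1) t : ℚ) - pt M L j i x t) =
      M j * ((if t = i then 1 / s / M l * 2 else 0) +
        (if t = j then ((if j = l then 1 / s else 0) - 2 / s ^ 2) / M l * s else 0)) -
      (2 * (x : ℚ) + 1) * (((if t = l then 1 / s else 0) - 2 / s ^ 2 +
      (if t = i then 1 / s + 2 / s ^ 2 else 0)) / (M l : ℚ)) := by
    intro t
    rw [hdiff]
    by_cases h1 : t = i
    · subst h1
      rw [if_neg hl.symm, if_pos rfl, if_pos rfl, if_neg hj.symm, if_pos rfl, if_neg hj.symm]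
      ring
    · rw [if_neg h1, if_neg h1, if_neg h1]
      by_cases h2 : t = j
      · subst h2
        rw [if_pos rfl, if_pos rfl]
        ring
      · rw [if_neg h2, if_neg h2]
        ring
  rw [Finset.sum_congr rfl fun t _ => h2 t, Finset.sum_sub_distrib, ← Finset.mul_sum,
    ← Finset.mul_sum, h1, mul_zero, sub_zero, Finset.sum_add_distrib, Finset.sum_ite_eq',
    Finset.sum_ite_eq', if_pos (Finset.mem_univ _), if_pos (Finset.mem_univ _)]
  by_cases h3 : j = l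
  · subst h3
    rw [if_pos rfl, if_pos rfl]
    field_simp
    ring
  · rw [if_neg h3, if_neg (Ne.symm h3)]
    field_simp
    ring

end Pool.Agent.Lib.MP_4e7804_co
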