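import Mathlib
import Pool.Agent.Lib.MP_4e7804_co.Lo.Sheet
import Pool.Agent.Lib.MP_4e7804_co.Lo.Hull
import Pool.Agent.Lib.MP_4e7804_co.Lo.MinSet
import Pool.Agent.Lib.MP_4e7804_co.Lo.Prim
import Pool.Agent.Lib.MP_4e7804_co.Lo.Large

/-! MP_4e7804_co, lower bound for all n, module SheetConf. -/

set_option autoImplicit false

open Finset

namespace Pool.Agent.Lib.MP_4e7804_co

/-- TASK E1 (file Lo/SheetConf.lean), 150 lines: the sheets of the explicit polytopes.
PROOF. Apply `sheet_tie` (Lo/Sheet.lean) with `P = confP ..`, `w = wg i (qk M κ)`,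
`J = (univ.filter (· ≠ i)).map Fin.succ`,
`a = Fin.cons (pt0 d A 0) (fun j => if j = i then Pi.single i 1 else pt M L j i (κ j))`,
`b = Fin.cons (pt0 d A 0) (fun j => if j = i then Pi.single i 1 else pt M L j i (κ j + 1))`,
`h m = dot w (a m)`: `h 0 = 1` (`dot_pt0`, `sum_wg`), `h i.succ = wg i (qk M κ) i` (`dot_single`),
`h j.succ < wg .. j < 0 < y j.succ` for `j ≠ i` (`h1`, `wg_signs`). `hfin` is
`latticePoints_hull_finite`. `hmin`: for `0`: `dot_lt_of_unique` with `hA`; for `i.succ`: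
`dot_lt_of_unique` with `minset_unit`; for `j.succ`, `j ≠ i`: `dot_lt_of_edge` with `minset_edge`
and `prim_edge`. `bs`: from `dual_edge`, `bs = Fin.cons 0 u`. -/
theorem sheet_conf {d : ℕ} (hd : 2 ≤ d) (e : Fin d → ℕ) (M : Fin d → ℤ)
    (hM : ∀ l, M l = 2 ^ e l) (L A : ℤ) (k : Fin d → Fin d → ℕ) (v0 : ℕ) (hv0 : 1 ≤ v0)
    (i : Fin d) (κ : Fin d → ℕ) (hκ : ∀ j, j ≠ i → κ j + 1 < k j i)
    (he : eps i (qk M κ) ≤ 1 / 3)
    (h1 : ∀ j, j ≠ i → ∀ x < k j i, dot (wg i (qk M κ)) (pt M L j i x) < wg i (qk M κ) j)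
    (h2 : ∀ j, j ≠ i → ∀ x < k j i, ∀ i', i' ≠ i → i' ≠ j → ∀ x' < k j i',
        dot (wg i (qk M κ)) (pt M L j i x) < dot (wg i (qk M κ)) (pt M L j i' x'))
    (h3 : ∀ i', i' ≠ i → ∀ x < k i i',
        wg i (qk M κ) i < dot (wg i (qk M κ)) (pt M L i i' x))
    (hA : ∀ x < v0, x ≠ 0 →
      dot (wg i (qk M κ)) (pt0 d A 0) < dot (wg i (qk M κ)) (pt0 d A x))
    (c : Fin (d + 1) → (Fin d → ℤ) → ℂ) (hc0 : ∀ a ∈ set0 d A v0, c 0 a ≠ 0)
    (hc : ∀ j : Fin d, ∀ a ∈ setA M L k j, c j.succ a ≠ 0)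
    (F : MvPolynomial (Fin (d + 1)) ℂ)
    (hF : ∀ t, MvPolynomial.eval (evalAt (confP M L k A v0) c t) F = 0)
    (y : Fin (d + 1) → ℝ) (hy0 : y 0 = 1) (hyi : y i.succ = ((wg i (qk M κ) i : ℚ) : ℝ))
    (hy : ∀ j : Fin d, 0 < y j.succ) (α : Fin (d + 1) →₀ ℕ) (hα : α ∈ F.support) :
    ∃ β ∈ F.support, β ≠ α ∧ ∑ m, (β m : ℝ) * y m ≤ ∑ m, (α m : ℝ) * y m := by
  have hMpos : ∀ l, 0 < M l := fun l => by rw [hM l]; positivity
  have hqk : ∀ l, 0 ≤ qk M κ l := by
    intro l
    have h0 : (0 : ℚ) < M l := by exact_mod_cast hMpos l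
    unfold qk
    positivity
  obtain ⟨-, hneg, -, -⟩ := wg_signs hd i (qk M κ) hqk he
  have hedge := fun (j : Fin d) (hji : j ≠ i) =>
    minset_edge hd M hMpos L k i κ j hji (hκ j hji) (h1 j hji) (h2 j hji)
  obtain ⟨u, hu⟩ := dual_edge hd M hMpos L i
  set w : Fin d → ℚ := wg i (qk M κ) with hw
  set a : Fin (d + 1) → Fin d → ℤ := Fin.cons (pt0 d A 0)
    (fun j => if j = i then Pi.single i 1 else pt M L j i (κ j)) with ha
  set b : Fin (d + 1) → Fin d → ℤ := Fin.cons (pt0 d A 0)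
    (fun j => if j = i then Pi.single i 1 else pt M L j i (κ j + 1)) with hb
  set J : Finset (Fin (d + 1)) := (univ.filter (· ≠ i)).map (Fin.succEmb d) with hJ
  have a0 : a 0 = pt0 d A 0 := by simp [ha]
  have ai : a i.succ = Pi.single i 1 := by simp [ha]
  have aj : ∀ j, j ≠ i → a j.succ = pt M L j i (κ j) := fun j hj => by simp [ha, hj]
  have bj : ∀ j, j ≠ i → b j.succ = pt M L j i (κ j + 1) := fun j hj => by simp [hb, hj]
  have hP0 : confP M L k A v0 0 = convexHull ℝ (toReal '' (set0 d A v0 : Set (Fin d → ℤ))) := by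
    simp [confP]
  have hPj : ∀ j : Fin d, confP M L k A v0 j.succ =
      convexHull ℝ (toReal '' (setA M L k j : Set (Fin d → ℤ))) := fun j => by simp [confP]
  have hmem0 : pt0 d A 0 ∈ set0 d A v0 :=
    Finset.mem_image_of_mem _ (Finset.mem_range.2 (by omega))
  have hmemi : (Pi.single i 1 : Fin d → ℤ) ∈ setA M L k i := Finset.mem_insert_self _ _
  have memJ : ∀ m, m ∈ J → ∃ j, j ≠ i ∧ m = j.succ := by
    intro m hm
    rw [hJ, Finset.mem_map] at hm
    obtain ⟨j, hj, rfl⟩ := hm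
    exact ⟨j, (Finset.mem_filter.1 hj).2, rfl⟩
  have sJ : ∀ j : Fin d, j ≠ i → j.succ ∈ J := by
    intro j hj
    rw [hJ, Finset.mem_map]
    exact ⟨j, Finset.mem_filter.2 ⟨Finset.mem_univ _, hj⟩, rfl⟩
  refine sheet_tie (confP M L k A v0) ?_ c F hF w (fun m => dot w (a m)) J a b ?_ (fun _ => rfl)
    ?_ ?_ ?_ ?_ ?_ (Fin.cons 0 u) ?_ y ?_ ?_ α hα
  · intro m
    refine Fin.cases ?_ (fun j => ?_) m
    · rw [hP0]
      exact latticePoints_hull_finite _
    · rw [hPj]
      exact latticePoints_hull_finite _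
  · intro m
    refine Fin.cases ?_ (fun j => ?_) m
    · rw [hP0, a0]
      exact subset_latticePoints_hull _ hmem0
    · rw [hPj]
      by_cases hji : j = i
      · subst hji
        rw [ai]
        exact subset_latticePoints_hull _ hmemi
      · rw [aj j hji]
        exact subset_latticePoints_hull _ (hedge j hji).1
  · intro m
    refine Fin.cases ?_ (fun j => ?_) m
    · rw [a0]
      exact hc0 _ hmem0
    · by_cases hji : j = i
      · subst hji
        rw [ai]
        exact hc j _ hmemi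
      · rw [aj j hji]
        exact hc j _ (hedge j hji).1
  · intro m hm
    obtain ⟨j, hji, rfl⟩ := memJ m hm
    rw [hPj, bj j hji]
    exact subset_latticePoints_hull _ (hedge j hji).2.1
  · intro m hm
    obtain ⟨j, hji, rfl⟩ := memJ m hm
    show dot w (b j.succ) = dot w (a j.succ)
    rw [bj j hji, aj j hji]
    exact (hedge j hji).2.2.1.symm
  · intro m hm
    obtain ⟨j, hji, rfl⟩ := memJ m hm
    rw [bj j hji]
    exact hc j _ (hedge j hji).2.1
  · intro m
    refine Fin.cases ?_ (fun j => ?_) m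
    · intro p hp hpa _
      show dot w (a 0) < dot w p
      rw [hP0] at hp
      rw [a0] at hpa ⊢
      refine dot_lt_of_unique (set0 d A v0) w _ hmem0 ?_ p hp hpa
      intro a' ha' hne
      obtain ⟨x, hx, rfl⟩ := Finset.mem_image.1 ha'
      refine hA x (Finset.mem_range.1 hx) ?_
      rintro rfl
      exact hne rfl
    · intro p hp hpa hpb
      show dot w (a j.succ) < dot w p
      rw [hPj] at hp
      by_cases hji : j = i
      · subst hji
        rw [ai] at hpa ⊢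
        exact dot_lt_of_unique (setA M L k j) w _ hmemi (minset_unit M L k j (qk M κ) h3) p hp hpa
      · rw [aj j hji] at hpa ⊢
        have hpb' := hpb (sJ j hji)
        rw [bj j hji] at hpb'
        obtain ⟨e1, e2, e3, e4⟩ := hedge j hji
        exact dot_lt_of_edge (setA M L k j) w _ _ e1 e2 e3 e4
          (fun θ hθ => prim_edge hd M L j i hji (e j) (hM j) (κ j) θ hθ) p hp hpa hpb'
  · intro l hl m hm
    obtain ⟨l', hl', rfl⟩ := memJ l hl
    obtain ⟨j, hji, rfl⟩ := memJ m hm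
    rw [bj j hji, aj j hji]
    simp only [Fin.cons_succ, Fin.succ_inj]
    exact hu l' hl' j hji (κ j)
  · intro m hm
    obtain ⟨j, hji, rfl⟩ := memJ m hm
    show ((dot w (a j.succ) : ℚ) : ℝ) < y j.succ
    rw [aj j hji]
    have hlt : dot w (pt M L j i (κ j)) < 0 :=
      (h1 j hji (κ j) (by have := hκ j hji; omega)).trans (hneg j hji)
    have hlt' : ((dot w (pt M L j i (κ j)) : ℚ) : ℝ) < 0 := by exact_mod_cast hlt
    exact hlt'.trans (hy j)
  · intro m
    refine Fin.cases ?_ (fun j => ?_) m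
    · intro _
      show y 0 = ((dot w (a 0) : ℚ) : ℝ)
      rw [a0, dot_pt0 hd, hw, sum_wg hd, hy0]
      norm_num
    · intro hj
      show y j.succ = ((dot w (a j.succ) : ℚ) : ℝ)
      by_cases hji : j = i
      · subst hji
        rw [ai, dot_single, hyi]
      · exact absurd (sJ j hji) hj

end Pool.Agent.Lib.MP_4e7804_co
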