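import Mathlib
import Pool.Agent.Lib.MP_4e7804_co.Lo.SheetConf
import Pool.Agent.Lib.MP_4e7804_co.Lo.ExistF
import Pool.Agent.Lib.MP_4e7804_co.Lo.Levels
import Pool.Agent.Lib.MP_4e7804_co.Lo.Param
import Pool.Agent.Lib.MP_4e7804_co.Lo.CardA
import Pool.Agent.Lib.MP_4e7804_co.Lo.NumV
import Pool.Agent.Lib.MP_4e7804_co.Lo.Boxes

/-! MP_4e7804_co, lower bound for all n, module Config. -/

set_option autoImplicit false

open Finset

namespace Pool.Agent.Lib.MP_4e7804_co

theorem config_lt_K {d : ℕ} (k : Fin d → Fin d → ℕ) (j i : Fin d) :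
    k j i < 1 + ∑ j, ∑ i, k j i := by
  have h1 : k j i ≤ ∑ i, k j i := Finset.single_le_sum (f := fun i => k j i)
    (fun _ _ => Nat.zero_le _) (Finset.mem_univ i)
  have h2 : ∑ i, k j i ≤ ∑ j, ∑ i, k j i := Finset.single_le_sum (f := fun j => ∑ i, k j i)
    (fun _ _ => Nat.zero_le _) (Finset.mem_univ j)
  omega

open scoped Classical in
theorem config_newton {n : ℕ} (F : MvPolynomial (Fin n) ℂ) :
    newton F = convexHull ℝ
      ((F.support.image fun (a : Fin n →₀ ℕ) (i : Fin n) => (a i : ℝ) : Finset (Fin n → ℝ)) :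
        Set (Fin n → ℝ)) := by
  rw [newton, Finset.coe_image]

/-- TASK E4 (file Lo/Config.lean), 150 lines: the lower bound for all coefficients which are not
zero at the vertices.
PROOF. `K = 1 + ` the sum of all `k j i`; `e, M` from `exists_M`; `Q` = the finite set of all
`qk M κ` with all `κ l < K` (`Fintype.piFinset`) and all `qv M j x`, `x < K`; `L` from `exists_L`,
`A` from `exists_A` for `v = v 0`. `P = confP M L k A (v 0)`. The polytopes are lattice polytopes;
the vertex numbers are `numVertices_hull` with `setA_vertices`, `set0_vertices`. (The lattice points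
in `setA`, `set0` are extreme points: `hc` in the form below is asked for all lattice points of
`P i` which are vertices; the proof of `numVertices_hull` shows that all `toReal a`, `a ∈ A`, are
extreme: use the lemma `toReal_mem_extremePoints` of Lo/NumV.lean.) `F` exists by `exists_F_conf`.
For the inequality apply `boxes_le` (Lo/Boxes.lean) to `S` = the image of `F.support` in
`Fin (d+1) → ℝ` (so `newton F = convexHull ℝ S`), `R = levels M k`, with `levels_card` and
`sheet_conf` (`IsImplicitEq.eval_eq_zero`). -/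
theorem lower_config {d : ℕ} (hd : 2 ≤ d) (k : Fin d → Fin d → ℕ) (v : Fin (d + 1) → ℕ)
    (hv0 : 1 ≤ v 0) (hv : ∀ j : Fin d, v j.succ = 1 + ∑ i ∈ univ.filter (· ≠ j), k j i) :
    ∃ P : Fin (d + 1) → Set (Fin d → ℝ), (∀ i, IsLatticePolytope (P i)) ∧
      (∀ i, numVertices (P i) = v i) ∧
      ∀ c : Fin (d + 1) → (Fin d → ℤ) → ℂ,
        (∀ i p, toReal p ∈ (P i).extremePoints ℝ → c i p ≠ 0) →
        (∃ F, IsImplicitEq P c F) ∧ ∀ F, IsImplicitEq P c F →
          ∏ i, (∏ j ∈ univ.filter (· ≠ i), (k j i - 1) + 1) ≤ numVertices (newton F) := by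
  classical
  set K : ℕ := 1 + ∑ j, ∑ i, k j i with hKdef
  have hKlt : ∀ j i, k j i < K := fun j i => config_lt_K k j i
  have hK1 : 1 ≤ K := by omega
  obtain ⟨e, M, hMe, heps, hepsv, hinj⟩ := exists_M d hd K hK1
  have hM : ∀ l, 0 < M l := fun l => by rw [hMe l]; positivity
  have hMQ : ∀ l, (0 : ℚ) < (M l : ℚ) := fun l => by exact_mod_cast hM l
  let Q : Finset (Fin d → ℚ) :=
    ((Fintype.piFinset fun _ : Fin d => range K).image (qk M)) ∪
      ((univ ×ˢ range K : Finset (Fin d × ℕ)).image fun p => qv M p.1 p.2)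
  have hQk : ∀ κ : Fin d → ℕ, (∀ l, κ l < K) → qk M κ ∈ Q := by
    intro κ hκ
    refine Finset.mem_union_left _ (Finset.mem_image_of_mem _ ?_)
    rw [Fintype.mem_piFinset]
    intro l
    exact Finset.mem_range.2 (hκ l)
  have hQv : ∀ (j : Fin d) (x : ℕ), x < K → qv M j x ∈ Q := by
    intro j x hx
    refine Finset.mem_union_right _ (Finset.mem_image.2 ⟨(j, x), ?_, rfl⟩)
    exact Finset.mem_product.2 ⟨Finset.mem_univ _, Finset.mem_range.2 hx⟩
  have hQcases : ∀ q ∈ Q, (∃ κ : Fin d → ℕ, (∀ l, κ l < K) ∧ q = qk M κ) ∨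
      ∃ (j : Fin d) (x : ℕ), x < K ∧ q = qv M j x := by
    intro q hq
    rcases Finset.mem_union.1 hq with h | h
    · obtain ⟨κ, hκ, rfl⟩ := Finset.mem_image.1 h
      rw [Fintype.mem_piFinset] at hκ
      exact Or.inl ⟨κ, fun l => Finset.mem_range.1 (hκ l), rfl⟩
    · obtain ⟨p, hp, rfl⟩ := Finset.mem_image.1 h
      exact Or.inr ⟨p.1, p.2, Finset.mem_range.1 (Finset.mem_product.1 hp).2, rfl⟩
  have hQ : ∀ q ∈ Q, ∀ l, 0 ≤ q l := by
    intro q hq l
    rcases hQcases q hq with ⟨κ, -, rfl⟩ | ⟨j, x, -, rfl⟩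
    · have := hMQ l
      simp only [qk]
      positivity
    · have := hMQ l
      simp only [qv]
      split_ifs
      · positivity
      · exact le_refl _
  have hQe : ∀ q ∈ Q, ∀ i, eps i q ≤ 1 / 3 := by
    intro q hq i
    rcases hQcases q hq with ⟨κ, hκ, rfl⟩ | ⟨j, x, hx, rfl⟩
    · exact heps κ hκ i
    · exact hepsv j x hx i
  obtain ⟨L, hL1, hL2, hL3, hL4⟩ := exists_L hd M k Q hQ hQe
  obtain ⟨A, hA0, hA⟩ := exists_A hd (v 0) Q
  have hset0 := set0_vertices hd A hA0 (v 0)
  have hsetA : ∀ j, _ := fun j => setA_vertices hd M hM L k j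
    (fun i hji x hx x' hx' =>
      hL1 i (qv M j x) (hQv j x (hx.trans (hKlt j i))) j hji x' hx')
    (fun i hji x hx x' hx' i' hi' hj' x'' hx'' =>
      hL2 i (qv M j x) (hQv j x (hx.trans (hKlt j i))) j hji x' hx' i' hi' hj' x'' hx'')
    (fun i hji x hx => hL4 j i hji x hx)
  refine ⟨confP M L k A (v 0), ?_, ?_, ?_⟩
  · refine Fin.cases ?_ ?_
    · refine ⟨set0 d A (v 0), ?_, rfl⟩
      exact (Finset.nonempty_range_iff.2 (by omega)).image _
    · intro j
      exact ⟨setA M L k j, ⟨_, Finset.mem_insert_self _ _⟩, rfl⟩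
  · refine Fin.cases ?_ ?_
    · exact (numVertices_hull _ hset0.2).trans hset0.1
    · intro j
      exact ((numVertices_hull _ (hsetA j).2.1).trans (hsetA j).1).trans (hv j).symm
  · intro c hc
    have hc0 : ∀ a ∈ set0 d A (v 0), c 0 a ≠ 0 := fun a ha =>
      hc 0 a (toReal_mem_extremePoints (set0 d A (v 0)) a ha (hset0.2 a ha))
    have hcA : ∀ j : Fin d, ∀ a ∈ setA M L k j, c j.succ a ≠ 0 := fun j a ha =>
      hc j.succ a (toReal_mem_extremePoints (setA M L k j) a ha ((hsetA j).2.1 a ha))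
    refine ⟨exists_F_conf M L A k (v 0) (fun j => (hsetA j).2.2) c hcA, ?_⟩
    intro F hF
    have hlev : ∀ i, _ := fun i =>
      levels_card hd M hM k K (fun j i => (hKlt j i).le) hK1 heps hinj i
    rw [config_newton F]
    have hne : F.support.Nonempty := by
      rw [Finset.nonempty_iff_ne_empty]
      intro h0
      exact hF.1.ne_zero (MvPolynomial.support_eq_empty.1 h0)
    have hbox := boxes_le
      (F.support.image fun (a : Fin (d + 1) →₀ ℕ) (i : Fin (d + 1)) => (a i : ℝ))
      (hne.image _) (levels M k) (fun i => (hlev i).2) ?_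
    · refine le_trans (le_of_eq ?_) hbox
      refine Finset.prod_congr rfl fun i _ => ?_
      rw [(hlev i).1]
    · rintro y hy0 hy ⟨i, hyi⟩ α hα
      obtain ⟨a, ha, rfl⟩ := Finset.mem_image.1 hα
      obtain ⟨κ, hκ, hκy⟩ := Finset.mem_image.1 hyi
      rw [Fintype.mem_piFinset] at hκ
      have hκ1 : ∀ j, j ≠ i → κ j + 1 < k j i := by
        intro j hji
        have := hκ j
        rw [if_neg hji, Finset.mem_range] at this
        omega
      have hκK : ∀ l, κ l < K := by
        intro l
        by_cases hl : l = i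
        · have := hκ l
          rw [if_pos hl, Finset.mem_singleton] at this
          omega
        · have := hκ1 l hl
          have := hKlt l i
          omega
      have hq := hQk κ hκK
      obtain ⟨β, hβ, hβa, hle⟩ := sheet_conf hd e M hMe L A k (v 0) hv0 i κ hκ1 (heps κ hκK i)
        (fun j hji x hx => hL1 i _ hq j hji x hx)
        (fun j hji x hx i' hi' hj' x' hx' => hL2 i _ hq j hji x hx i' hi' hj' x' hx')
        (fun i' hi' x hx => hL3 i _ hq i' hi' x hx)
        (fun x hx hx0 => hA i _ hq x hx hx0) c hc0 hcA F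
        (fun t => hF.eval_eq_zero t) y hy0 hκy.symm hy a ha
      refine ⟨fun m => (β m : ℝ), Finset.mem_image_of_mem _ hβ, ?_, ?_⟩
      · intro h
        apply hβa
        ext m
        have := congrFun h m
        exact_mod_cast this
      · simpa [dotProduct] using hle

end Pool.Agent.Lib.MP_4e7804_co
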