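import Mathlib
import Pool.Agent.Lib.MP_4e7804_co.Lo.Config
import Pool.Agent.Lib.MP_4e7804_co.Lo.Generic

/-! MP_4e7804_co, lower bound for all n, module Growth. -/

set_option autoImplicit false

open Finset

namespace Pool.Agent.Lib.MP_4e7804_co

theorem Growth_card {d : ℕ} (j : Fin d) : (univ.filter (· ≠ j)).card = d - 1 := by
  rw [Finset.filter_ne', Finset.card_erase_of_mem (Finset.mem_univ _), Finset.card_univ,
    Fintype.card_fin]

theorem Growth_finite {d : ℕ} {P : Set (Fin d → ℝ)} (hP : IsLatticePolytope P) :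
    (latticePoints P).Finite := by
  obtain ⟨A, -, rfl⟩ := hP
  have hb : Bornology.IsBounded (convexHull ℝ (toReal '' (A : Set (Fin d → ℤ)))) := by
    rw [isBounded_convexHull]
    exact ((A.finite_toSet).image _).isBounded
  obtain ⟨R, hR⟩ := hb.subset_closedBall 0
  refine (Set.finite_Icc (fun _ => -⌈|R|⌉ : Fin d → ℤ) (fun _ => ⌈|R|⌉)).subset ?_
  intro p hp
  have h1 := hR hp
  rw [mem_closedBall_zero_iff] at h1
  have h2 : ∀ l, |(p l : ℝ)| ≤ ⌈|R|⌉ := fun l =>
    ((norm_le_pi_norm (toReal p) l).trans (h1.trans (le_abs_self R))).trans (Int.le_ceil _)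
  rw [Set.mem_Icc, Pi.le_def, Pi.le_def]
  refine ⟨fun l => ?_, fun l => ?_⟩
  · have := (abs_le.1 (h2 l)).1
    exact_mod_cast this
  · have := (abs_le.1 (h2 l)).2
    exact_mod_cast this

/-- TASK E5 (file Lo/Growth.lean), 100 lines: the lower bound in terms of `v`.
PROOF. Choose `k j i` for `i ≠ j` with sum `v j.succ - 1` and all `k j i ≥ (v j.succ - 1) / (d - 1)`
(natural division): give the remainder to one index `i ≠ j` (there is one, `d ≥ 2`); e.g.
`k j i = (v-1)/(d-1) + if i = f j then (v-1) % (d-1) else 0` with `f j ≠ j`. Then use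
`lower_config` and monotonicity of the product. -/
theorem lower_bound {d : ℕ} (hd : 2 ≤ d) (v : Fin (d + 1) → ℕ) (hv : ∀ i, 1 ≤ v i) :
    ∃ P : Fin (d + 1) → Set (Fin d → ℝ), (∀ i, IsLatticePolytope (P i)) ∧
      (∀ i, numVertices (P i) = v i) ∧
      ∀ c : Fin (d + 1) → (Fin d → ℤ) → ℂ,
        (∀ i p, toReal p ∈ (P i).extremePoints ℝ → c i p ≠ 0) →
        (∃ F, IsImplicitEq P c F) ∧ ∀ F, IsImplicitEq P c F →
          ∏ i : Fin d, (∏ j ∈ univ.filter (· ≠ i), ((v j.succ - 1) / (d - 1) - 1) + 1)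
            ≤ numVertices (newton F) := by
  have hne : ∀ j : Fin d, ∃ i, i ≠ j := fun j =>
    Fintype.exists_ne_of_one_lt_card (by rw [Fintype.card_fin]; omega) j
  choose f hf using hne
  obtain ⟨k, hk⟩ : ∃ k : Fin d → Fin d → ℕ, k = fun j i =>
    (v j.succ - 1) / (d - 1) + if i = f j then (v j.succ - 1) % (d - 1) else 0 := ⟨_, rfl⟩
  have hsum : ∀ j : Fin d, v j.succ = 1 + ∑ i ∈ univ.filter (· ≠ j), k j i := by
    intro j
    have hm : f j ∈ univ.filter (· ≠ j) := by simp [hf j]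
    rw [hk]
    beta_reduce
    rw [Finset.sum_add_distrib, Finset.sum_const, Growth_card, Finset.sum_ite_eq',
      if_pos hm, smul_eq_mul, Nat.div_add_mod]
    have := hv j.succ
    omega
  obtain ⟨P, h1, h2, h3⟩ := lower_config hd k v (hv 0) hsum
  refine ⟨P, h1, h2, fun c hc => ⟨(h3 c hc).1, fun F hF => le_trans ?_ ((h3 c hc).2 F hF)⟩⟩
  refine Finset.prod_le_prod' fun i _ => Nat.add_le_add_right ?_ 1
  refine Finset.prod_le_prod' fun j _ => Nat.sub_le_sub_right ?_ 1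
  rw [hk]
  exact Nat.le_add_right _ _

/-- E5, second part. PROOF. Take generic coefficients (`exists_generic`, `IsGeneric.ne_zero`;
the extreme points of a lattice polytope belong to it). -/
theorem lower_isVertexNumber {d : ℕ} (hd : 2 ≤ d) (v : Fin (d + 1) → ℕ) (hv : ∀ i, 1 ≤ v i) :
    ∃ N, IsVertexNumber v N ∧
      ∏ i : Fin d, (∏ j ∈ univ.filter (· ≠ i), ((v j.succ - 1) / (d - 1) - 1) + 1) ≤ N := by
  obtain ⟨P, h1, h2, h3⟩ := lower_bound hd v hv
  obtain ⟨c, hc⟩ := exists_generic P fun i => Growth_finite (h1 i)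
  obtain ⟨⟨F, hF⟩, h4⟩ := h3 c fun i p hp => hc.ne_zero i p
    (show toReal p ∈ P i from extremePoints_subset hp)
  exact ⟨numVertices (newton F), ⟨P, c, F, h1, h2, hc, hF, rfl⟩, h4 F hF⟩

/-- E5, third part. PROOF. For `v ≥ 4 d` we have `(v - 1)/(d - 1) - 1 ≥ v / (4 d)` (real
numbers: `(v-1)/(d-1) - 2 ≥ (v-1)/(2(d-1)) ≥ v/(4d)`, floor loses at most `1`), so the product is
at least `(v/(4d))^(d(d-1))`; for `v < 4 d` the claimed bound is `< 1 ≤ N`. -/
theorem lower_growth {d : ℕ} (hd : 2 ≤ d) (v : ℕ) (hv : 1 ≤ v) :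
    ((v : ℝ) / (4 * d)) ^ (d * (d - 1)) ≤
      (∏ i : Fin d, (∏ j ∈ univ.filter (· ≠ i), ((v - 1) / (d - 1) - 1) + 1) : ℕ) := by
  obtain ⟨c, hc⟩ : ∃ c, c = (v - 1) / (d - 1) - 1 := ⟨_, rfl⟩
  have hR : (∏ i : Fin d, (∏ j ∈ univ.filter (· ≠ i), ((v - 1) / (d - 1) - 1) + 1) : ℕ) =
      (c ^ (d - 1) + 1) ^ d := by
    simp only [← hc]
    rw [Finset.prod_congr rfl fun i _ => by rw [Finset.prod_const, Growth_card i],
      Finset.prod_const, Finset.card_univ, Fintype.card_fin]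
  rw [hR]
  have hd0 : (0 : ℝ) < d := by
    have : 0 < d := by omega
    exact_mod_cast this
  by_cases hvd : v < 4 * d
  · have h1 : ((v : ℝ) / (4 * d)) ≤ 1 := by
      rw [div_le_one (by positivity)]
      exact_mod_cast hvd.le
    have h2 : ((v : ℝ) / (4 * d)) ^ (d * (d - 1)) ≤ 1 := pow_le_one₀ (by positivity) h1
    refine h2.trans ?_
    have : 1 ≤ (c ^ (d - 1) + 1) ^ d := Nat.one_le_pow _ _ (Nat.succ_pos _)
    exact_mod_cast this
  · push Not at hvd
    have hq : v ≤ (d - 1) * ((v - 1) / (d - 1) + 1) := by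
      have h1 := Nat.div_add_mod (v - 1) (d - 1)
      have h2 := Nat.mod_lt (v - 1) (show 0 < d - 1 by omega)
      rw [Nat.mul_add, Nat.mul_one]
      omega
    obtain ⟨q, hq'⟩ : ∃ q, q = (v - 1) / (d - 1) := ⟨_, rfl⟩
    rw [← hq'] at hq hc
    have h3 : v ≤ d * (q + 1) := hq.trans (Nat.mul_le_mul_right _ (Nat.sub_le _ _))
    have h4 : 4 ≤ q + 1 := by
      have : d * 4 ≤ d * (q + 1) := by omega
      exact Nat.le_of_mul_le_mul_left this (by omega)
    have h5 : v ≤ 4 * d * c := by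
      have h6 : q + 1 ≤ 4 * c := by omega
      calc v ≤ d * (q + 1) := h3
        _ ≤ d * (4 * c) := Nat.mul_le_mul_left _ h6
        _ = 4 * d * c := by ring
    have h6 : (v : ℝ) / (4 * d) ≤ c := by
      rw [div_le_iff₀ (by positivity)]
      have : (v : ℝ) ≤ 4 * d * c := by exact_mod_cast h5
      linarith
    have h7 : ((v : ℝ) / (4 * d)) ^ (d * (d - 1)) ≤ ((c : ℝ) ^ (d - 1)) ^ d := by
      rw [← pow_mul, mul_comm (d - 1) d]
      exact pow_le_pow_left₀ (by positivity) h6 _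
    refine h7.trans ?_
    push_cast
    exact pow_le_pow_left₀ (by positivity) (by linarith) _

end Pool.Agent.Lib.MP_4e7804_co
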